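import Pool.Agent.Helper63K9.KS.Leaves

/-! Classification of the closed orbits of the rotations of a plane field by position and size. -/

open Real Set MeasureTheory
open scoped ENNReal

namespace Pool.Agent.Helper63K9.KS

noncomputable section

open Pool.Agent.H709R2 (fld rot rotc NP wedge field ClosedOrbit)
open Pool.Agent.W960.HR
open Pool.Agent.H709U
open Pool.Agent.H709Q (Maj)
open Pool.Agent.H709U.Z1aux (encard_mono' encard_biUnion)

/-- measurable majorant with integral at most `K` -/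
def MJ (N : ℝ → ℝ≥0∞) (K : ℝ≥0∞) : Prop :=
  ∃ g : ℝ → ℝ≥0∞, Measurable g ∧ (∀ α ∈ Ioo 0 π, N α ≤ g α) ∧ ∫⁻ α in Ioo 0 π, g α ≤ K

lemma MJ.of_maj {N : ℝ → ℝ≥0∞} {K : ℝ} (h : Maj N K) : MJ N (ENNReal.ofReal K) := h

lemma MJ.mono {N N' : ℝ → ℝ≥0∞} {K K' : ℝ≥0∞} (h : ∀ α ∈ Ioo 0 π, N α ≤ N' α) (hK : K' ≤ K)
    (hM : MJ N' K') : MJ N K := by
  obtain ⟨g, hg1, hg2, hg3⟩ := hM
  exact ⟨g, hg1, fun α hα => (h α hα).trans (hg2 α hα), hg3.trans hK⟩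

lemma MJ.add {N N' : ℝ → ℝ≥0∞} {K K' : ℝ≥0∞} (h : MJ N K) (h' : MJ N' K') :
    MJ (fun α => N α + N' α) (K + K') := by
  obtain ⟨g, hg1, hg2, hg3⟩ := h
  obtain ⟨g', hg1', hg2', hg3'⟩ := h'
  refine ⟨fun α => g α + g' α, hg1.add hg1', fun α hα => add_le_add (hg2 α hα) (hg2' α hα), ?_⟩
  rw [lintegral_add_left hg1]
  exact add_le_add hg3 hg3'

lemma MJ.sum {ι : Type*} (s : Finset ι) (N : ι → ℝ → ℝ≥0∞) (K : ι → ℝ≥0∞)
    (h : ∀ i ∈ s, MJ (N i) (K i)) : MJ (fun α => ∑ i ∈ s, N i α) (∑ i ∈ s, K i) := by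
  classical
  induction s using Finset.induction_on with
  | empty => exact ⟨fun _ => 0, measurable_const, fun α _ => by simp, by simp⟩
  | insert a s ha ih =>
    simp only [Finset.sum_insert ha]
    exact MJ.add (h a (Finset.mem_insert_self a s))
      (ih fun i hi => h i (Finset.mem_insert_of_mem hi))

lemma sq_add_le (a b : ℝ × ℝ) :
    H709R2.sq (a + b) ≤ 2 * H709R2.sq a + 2 * H709R2.sq b := by
  unfold H709R2.sq
  simp only [Prod.fst_add, Prod.snd_add]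
  nlinarith [sq_nonneg (a.1 - b.1), sq_nonneg (a.2 - b.2)]

lemma sqrt_sub_eq (x y : ℝ × ℝ) :
    √((x.1 - y.1) ^ 2 + (x.2 - y.2) ^ 2) = √(H709R2.sq (x - y)) := rfl

lemma sq_comm (x y : ℝ × ℝ) : H709R2.sq (x - y) = H709R2.sq (y - x) := by
  unfold H709R2.sq
  simp only [Prod.fst_sub, Prod.snd_sub]
  ring

lemma sq_le_of_box {C : Set (ℝ × ℝ)} {p z : ℝ × ℝ} (hp : InBox p C) (hz : z ∈ C) {d : ℝ}
    (hd0 : 0 ≤ d) (hd : ∀ x ∈ C, ∀ y ∈ C, H709R2.sq (x - y) ≤ d ^ 2) :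
    H709R2.sq (z - p) ≤ 2 * d ^ 2 := by
  have h := box_of_diam hp (d := d) (fun x hx y hy => by
    rw [sqrt_sub_eq]
    exact Real.sqrt_le_iff.2 ⟨hd0, hd x hx y hy⟩) hz
  rw [mem_prod] at h
  obtain ⟨⟨h1, h2⟩, h3, h4⟩ := h
  unfold H709R2.sq
  simp only [Prod.fst_sub, Prod.snd_sub]
  nlinarith

/-- the classification -/
theorem classify (hF : S_F) (hF2 : S_F2) {X : ℝ × ℝ → ℝ × ℝ} (hX : ContDiff ℝ 2 X) {n : ℕ}
    {P Q : MvPolynomial (Fin 2) ℝ} (hP : P.totalDegree ≤ n) (hQ : Q.totalDegree ≤ n)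
    (hPQ : field P Q = X) {Z : Finset (ℝ × ℝ)} (hZ : ∀ z, X z = 0 ↔ z ∈ Z) {R Λ r Λz : ℝ}
    {K J : ℕ} (hR : 1 ≤ R) (hΛ : 1 ≤ Λ) (hinf : ZC X 0 (-1) (Real.log R) Λ)
    (hRK : R * Λ ≤ 2 ^ K) (hr : 0 < r) (hΛz : 1 ≤ Λz)
    (hzero : ∀ p ∈ Z, ZC X p 1 (Real.log r) Λz) (hrJ : 2 ^ K * Λz ≤ r * 2 ^ J)
    {Om : ℕ → ℕ → Set (ℝ × ℝ)} (hOmc : ∀ k j, IsCompact (Om k j))
    (hOm : ∀ k ≤ K, ∀ j ≤ J, ∀ p ∈ Z, ∀ z : ℝ × ℝ, ‖z‖ ≤ 2 ^ (k + 1) → 2 ^ k ≤ 2 * √(q z) →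
      H709R2.sq (z - p) ≤ 2 * (2 ^ k / 2 ^ j) ^ 2 → z ∈ Om k j) :
    MJ (fun α => (({C | ClosedOrbit (rf X α) C}.encard : ℕ∞) : ℝ≥0∞))
      (((ENNReal.ofReal 4000 + (Z.card : ℝ≥0∞) * ENNReal.ofReal 4000) +
        ((K + 1 : ℕ) : ℝ≥0∞) * ENNReal.ofReal (8000 * (n + 1))) +
        ∑ k ∈ Finset.range (K + 1), ∑ j ∈ Finset.range (J + 1),
          ENNReal.ofReal (1 / (2 * (2 ^ k / 2 ^ (j + 1)))) * ∫⁻ z in Om k j, hk X z) := by
  have hR0 : 0 < R := by linarith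
  have hΛ0 : 0 < Λ := by linarith
  have hΛz0 : 0 < Λz := by linarith
  set S1 : (ℝ × ℝ) → ℝ → Set (Set (ℝ × ℝ)) := fun p α => {C | ClosedOrbit (rf X α) C ∧
    p ∉ C ∧ ∀ z ∈ C, 1 * (lg p z - Real.log r) ≤ -Real.log Λz} with hS1
  set S3 : ℝ → Set (Set (ℝ × ℝ)) := fun α => {C | ClosedOrbit (rf X α) C ∧
    (0 : ℝ × ℝ) ∉ C ∧ ∀ z ∈ C, (-1) * (lg 0 z - Real.log R) ≤ -Real.log Λ} with hS3
  set SI : ℕ → ℝ → Set (Set (ℝ × ℝ)) := fun k α => {C | C ∈ Cl P Q α ∧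
    ∃ x ∈ C, ∃ y ∈ C, H709R2.sq x ≤ (2 ^ k) ^ 2 ∧ (2 ^ k / 5) ^ 2 ≤ H709R2.sq (y - x)} with hSI
  set S2 : ℕ → ℕ → ℝ → Set (Set (ℝ × ℝ)) := fun k j α => {C | ClosedOrbit (rf X α) C ∧
    C ⊆ Om k j ∧ ∃ x ∈ C, ∃ y ∈ C, (2 ^ k / 2 ^ (j + 1)) ^ 2 ≤ H709R2.sq (x - y)} with hS2
  have m3 : MJ (fun α => (((S3 α).encard : ℕ∞) : ℝ≥0∞)) (ENNReal.ofReal 4000) :=
    MJ.of_maj (zone hX (Or.inr rfl) hΛ hinf)
  have m1 : MJ (fun α => ∑ p ∈ Z, (((S1 p α).encard : ℕ∞) : ℝ≥0∞))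
      (∑ p ∈ Z, ENNReal.ofReal 4000) :=
    MJ.sum Z _ _ fun p hp => MJ.of_maj (zone hX (Or.inl rfl) hΛz (hzero p hp))
  have mI : MJ (fun α => ∑ k ∈ Finset.range (K + 1), (((SI k α).encard : ℕ∞) : ℝ≥0∞))
      (∑ k ∈ Finset.range (K + 1), ENNReal.ofReal (8000 * (n + 1))) :=
    MJ.sum _ _ _ fun k _ => MJ.of_maj (hF n P Q hP hQ (2 ^ k) (by positivity))
  have m2 : MJ (fun α => ∑ k ∈ Finset.range (K + 1), ∑ j ∈ Finset.range (J + 1),
      (((S2 k j α).encard : ℕ∞) : ℝ≥0∞))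
      (∑ k ∈ Finset.range (K + 1), ∑ j ∈ Finset.range (J + 1),
          ENNReal.ofReal (1 / (2 * (2 ^ k / 2 ^ (j + 1)))) * ∫⁻ z in Om k j, hk X z) :=
    MJ.sum _ _ _ fun k _ => MJ.sum _ _ _ fun j _ =>
      hF2 X hX (Om k j) (hOmc k j) _ (by positivity)
  have hsum1 : ∑ p ∈ Z, ENNReal.ofReal 4000 = (Z.card : ℝ≥0∞) * ENNReal.ofReal 4000 := by
    rw [Finset.sum_const, nsmul_eq_mul]
  have hsum2 : ∑ k ∈ Finset.range (K + 1), ENNReal.ofReal (8000 * ((n : ℝ) + 1)) =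
      ((K + 1 : ℕ) : ℝ≥0∞) * ENNReal.ofReal (8000 * (n + 1)) := by
    rw [Finset.sum_const, nsmul_eq_mul, Finset.card_range]
  rw [hsum1] at m1
  rw [hsum2] at mI
  refine MJ.mono (fun α hα => ?_) le_rfl (((m3.add m1).add mI).add m2)
  have hcov : {C | ClosedOrbit (rf X α) C} ⊆ ((S3 α ∪ ⋃ p ∈ Z, S1 p α) ∪
      ⋃ k ∈ Finset.range (K + 1), SI k α) ∪
      ⋃ k ∈ Finset.range (K + 1), ⋃ j ∈ Finset.range (J + 1), S2 k j α := by
    intro C hC
    rw [mem_ofPred_eq] at hC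
    obtain ⟨p, hp0, hbox⟩ := t3' X hX α C hC
    have hCne : ∀ z ∈ C, X z ≠ 0 := by
      intro z hz h0
      apply Pool.Agent.W960.HP.ne_zero (Pool.Agent.W960.HP.rf_smooth hX α) hC hz
      unfold rf rot
      rw [h0]
      ext <;> simp
    have hpC : p ∉ C := fun h => hCne p h hp0
    have hpZ : p ∈ Z := (hZ p).1 hp0
    by_cases h1 : ∀ z ∈ C, ((2:ℝ) ^ K) ^ 2 < H709R2.sq z
    · left; left; left
      have h0C : (0 : ℝ × ℝ) ∉ C := by
        intro h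
        have h2 := h1 0 h
        have h3 : (0:ℝ) < ((2:ℝ) ^ K) ^ 2 := by positivity
        unfold H709R2.sq at h2
        simp at h2
        linarith [h2, h3]
      refine ⟨hC, h0C, fun z hz => ?_⟩
      have hz0 : z ≠ 0 := fun h => h0C (h ▸ hz)
      have h2 : Real.log (R * Λ) ≤ lg 0 z := by
        rw [le_lg_iff hz0 (by positivity), sub_zero]
        exact (pow_le_pow_left₀ (by positivity) hRK 2).trans (h1 z hz).le
      rw [Real.log_mul hR0.ne' hΛ0.ne'] at h2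
      linarith
    push Not at h1
    have hex : ∃ k : ℕ, ∃ z ∈ C, H709R2.sq z ≤ ((2:ℝ) ^ k) ^ 2 := ⟨K, h1⟩
    classical
    set k := Nat.find hex with hk
    obtain ⟨z₀, hz₀, hz₀s⟩ := Nat.find_spec hex
    have hkK : k ≤ K := Nat.find_min' hex h1
    have hkr : k ∈ Finset.range (K + 1) := Finset.mem_range.2 (by omega)
    rw [← hk] at hz₀s
    have hk0 : (0:ℝ) < 2 ^ k := by positivity
    by_cases h2 : ∃ y ∈ C, ((2:ℝ) ^ k / 5) ^ 2 ≤ H709R2.sq (y - z₀)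
    · left; right
      obtain ⟨y, hy, hy2⟩ := h2
      simp only [mem_iUnion]
      refine ⟨k, hkr, ?_, z₀, hz₀, y, hy, hz₀s, hy2⟩
      show ClosedOrbit (rf (field P Q) α) C
      rw [hPQ]
      exact hC
    push Not at h2
    have hpair : ∀ x ∈ C, ∀ y ∈ C, H709R2.sq (x - y) ≤ ((2:ℝ) ^ k) ^ 2 := by
      intro x hx y hy
      have e : x - y = (x - z₀) + (z₀ - y) := by abel
      have h3 := sq_add_le (x - z₀) (z₀ - y)
      rw [← e, sq_comm z₀ y] at h3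
      have h4 := h2 x hx
      have h5 := h2 y hy
      nlinarith
    have hnorm : ∀ z ∈ C, ‖z‖ ≤ 2 ^ (k + 1) := by
      intro z hz
      have h3 : ‖z - z₀‖ ≤ 2 ^ k := by
        have h4 := norm_sq_le_sq (z - z₀)
        have h5 := h4.trans (hpair z hz z₀ hz₀)
        exact abs_le_of_sq_le_sq' h5 hk0.le |>.2
      have h4 : ‖z₀‖ ≤ 2 ^ k := by
        have h5 := (norm_sq_le_sq z₀).trans hz₀s
        exact abs_le_of_sq_le_sq' h5 hk0.le |>.2
      have h5 := norm_add_le (z - z₀) z₀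
      rw [sub_add_cancel] at h5
      rw [pow_succ]
      linarith
    have hq : ∀ z ∈ C, (2:ℝ) ^ k ≤ 2 * √(q z) := by
      intro z hz
      rcases Nat.eq_zero_or_pos k with h0 | h0
      · rw [h0, pow_zero]
        have h3 : 1 ≤ √(q z) := Real.one_le_sqrt.2 (one_le_q z)
        linarith
      · have h3 : ¬ ∃ z ∈ C, H709R2.sq z ≤ ((2:ℝ) ^ (k - 1)) ^ 2 :=
          Nat.find_min hex (by rw [← hk]; omega)
        push Not at h3
        have h4 := h3 z hz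
        have h5 : (2:ℝ) ^ (k - 1) ≤ √(q z) := by
          apply Real.le_sqrt_of_sq_le
          unfold q
          linarith
        have h6 : (2:ℝ) ^ k = 2 * 2 ^ (k - 1) := by
          rw [← pow_succ']; congr 1; omega
        rw [h6]
        linarith
    by_cases h3 : ∃ x ∈ C, ∃ y ∈ C, ((2:ℝ) ^ k / 2 ^ (J + 1)) ^ 2 ≤ H709R2.sq (x - y)
    · right
      have hex2 : ∃ j : ℕ, ∃ x ∈ C, ∃ y ∈ C, ((2:ℝ) ^ k / 2 ^ (j + 1)) ^ 2 ≤ H709R2.sq (x - y) :=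
        ⟨J, h3⟩
      set j := Nat.find hex2 with hj
      obtain ⟨x, hx, y, hy, hxy⟩ := Nat.find_spec hex2
      have hjJ : j ≤ J := Nat.find_min' hex2 h3
      rw [← hj] at hxy
      have hpair2 : ∀ x ∈ C, ∀ y ∈ C, H709R2.sq (x - y) ≤ ((2:ℝ) ^ k / 2 ^ j) ^ 2 := by
        rcases Nat.eq_zero_or_pos j with h0 | h0
        · rw [h0, pow_zero, div_one]
          exact hpair
        · intro x hx y hy
          by_contra hcon
          push Not at hcon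
          have h4 := Nat.find_min hex2 (m := j - 1) (by rw [← hj]; omega)
          apply h4
          refine ⟨x, hx, y, hy, ?_⟩
          rw [show j - 1 + 1 = j by omega]
          exact hcon.le
      simp only [mem_iUnion]
      refine ⟨k, hkr, j, Finset.mem_range.2 (by omega), hC, ?_, x, hx, y, hy, hxy⟩
      intro z hz
      exact hOm k hkK j hjJ p hpZ z (hnorm z hz) (hq z hz)
        (sq_le_of_box hbox hz (by positivity) hpair2)
    · left; left; right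
      push Not at h3
      simp only [mem_iUnion]
      refine ⟨p, hpZ, hC, hpC, fun z hz => ?_⟩
      have hzp : z ≠ p := fun h => hpC (h ▸ hz)
      have h4 := sq_le_of_box hbox hz (d := (2:ℝ) ^ k / 2 ^ (J + 1)) (by positivity)
        (fun x hx y hy => (h3 x hx y hy).le)
      have h5 : lg p z ≤ Real.log (r / Λz) := by
        rw [lg_le_iff hzp (by positivity)]
        refine h4.trans ?_
        have h6 : (2:ℝ) ^ k / 2 ^ J ≤ r / Λz := by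
          rw [div_le_div_iff₀ (by positivity) hΛz0]
          refine le_trans ?_ hrJ
          refine mul_le_mul_of_nonneg_right ?_ hΛz0.le
          exact pow_le_pow_right₀ (by norm_num) hkK
        have h7 : 2 * ((2:ℝ) ^ k / 2 ^ (J + 1)) ^ 2 ≤ ((2:ℝ) ^ k / 2 ^ J) ^ 2 := by
          have e : (2:ℝ) ^ k / 2 ^ (J + 1) = (2 ^ k / 2 ^ J) / 2 := by
            rw [pow_succ]; field_simp
          rw [e]
          nlinarith [sq_nonneg ((2:ℝ) ^ k / 2 ^ J)]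
        exact h7.trans (pow_le_pow_left₀ (by positivity) h6 2)
      rw [Real.log_div hr.ne' hΛz0.ne'] at h5
      linarith
  refine (encard_mono' hcov).trans ?_
  refine (encard_union_le'' _ _).trans (add_le_add ?_ ?_)
  · refine (encard_union_le'' _ _).trans (add_le_add ?_ (encard_biUnion _ _))
    exact (encard_union_le'' _ _).trans (add_le_add le_rfl (encard_biUnion _ _))
  · refine (encard_biUnion _ _).trans (Finset.sum_le_sum fun k _ => encard_biUnion _ _)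

end

end Pool.Agent.Helper63K9.KS
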