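import Pool.Agent.W960.HR.Rotm

/-! The Kostlan ensemble of planar polynomial vector fields: definitions. -/

open Real Set MeasureTheory
open scoped ENNReal

namespace Pool.Agent.Helper63K9.KS

noncomputable section

open Pool.Agent.H709R2 (fld rot rotc NP)
open Pool.Agent.W960.HR

/-- the multinomial coefficient `n! / (i! j! (n - i - j)!)` -/
def mc (n : ℕ) (m : ℕ × ℕ) : ℝ := (n.choose (m.1 + m.2) : ℝ) * ((m.1 + m.2).choose m.1 : ℝ)

/-- its square root -/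
def ka (n : ℕ) (m : T n) : ℝ := √(mc n m.1)

/-- `1 + |z|²` -/
def q (z : ℝ × ℝ) : ℝ := 1 + H709R2.sq z

/-- weights of a monomial with coefficient `a` and exponents `e` -/
def wt {n : ℕ} (a : T n → ℝ) (e : T n → ℕ × ℕ) (z : ℝ × ℝ) (m : T n) : ℝ :=
  a m * (z.1 ^ (e m).1 * z.2 ^ (e m).2)

/-- the weights of the value of the field -/
def w0 (n : ℕ) (z : ℝ × ℝ) : T n → ℝ := wt (ka n) e0 z

/-- the weights of the first partial derivative -/
def wx (n : ℕ) (z : ℝ × ℝ) : T n → ℝ :=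
  wt (fun m => ka n m * (e0 m).1) (fun m => ((e0 m).1 - 1, (e0 m).2)) z

/-- the weights of the second partial derivative -/
def wy (n : ℕ) (z : ℝ × ℝ) : T n → ℝ :=
  wt (fun m => ka n m * (e0 m).2) (fun m => ((e0 m).1, (e0 m).2 - 1)) z

/-- the field `∑ √(n! / (i! j! (n-i-j)!)) x^i y^j c_{ij}` -/
def F (n : ℕ) (c : T n → ℝ × ℝ) (z : ℝ × ℝ) : ℝ × ℝ := Gs (ka n) e0 c z

/-- the coefficients of this field -/
def kc (n : ℕ) (c : T n → ℝ × ℝ) : T n → ℝ × ℝ := fun m => ka n m • c m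

lemma lin_w0 (n : ℕ) (z : ℝ × ℝ) (c : T n → ℝ × ℝ) : lin (w0 n z) c = F n c z := rfl

lemma lin_wx (n : ℕ) (z : ℝ × ℝ) (c : T n → ℝ × ℝ) : lin (wx n z) c = Gx (ka n) e0 c z := rfl

lemma lin_wy (n : ℕ) (z : ℝ × ℝ) (c : T n → ℝ × ℝ) : lin (wy n z) c = Gy (ka n) e0 c z := rfl

lemma fld_kc (n : ℕ) (c : T n → ℝ × ℝ) : fld (kc n c) = F n c := by
  funext z
  unfold fld F Gs kc e0
  refine Finset.sum_congr rfl fun m _ => ?_
  rw [smul_smul, mul_comm]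

lemma rotc_kc (n : ℕ) (α : ℝ) (c : T n → ℝ × ℝ) : rotc α (kc n c) = kc n (rotc α c) := by
  funext m
  unfold rotc kc
  exact H709R2.rot_smul _ _ _

lemma hasFDerivAt_F (n : ℕ) (c : T n → ℝ × ℝ) (z : ℝ × ℝ) :
    HasFDerivAt (F n c) ((ContinuousLinearMap.fst ℝ ℝ ℝ).smulRight (lin (wx n z) c) +
      (ContinuousLinearMap.snd ℝ ℝ ℝ).smulRight (lin (wy n z) c)) z :=
  hasFDerivAt_Gs (ka n) e0 c z

lemma fderiv_F (n : ℕ) (c : T n → ℝ × ℝ) (z v : ℝ × ℝ) :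
    fderiv ℝ (F n c) z v = v.1 • lin (wx n z) c + v.2 • lin (wy n z) c := by
  rw [(hasFDerivAt_F n c z).fderiv]
  simp

lemma contDiff_F (n : ℕ) (c : T n → ℝ × ℝ) : ContDiff ℝ 2 (F n c) := by
  unfold F Gs
  refine ContDiff.sum fun m _ => ?_
  fun_prop

lemma q_pos (z : ℝ × ℝ) : 0 < q z := by
  unfold q H709R2.sq
  positivity

lemma one_le_q (z : ℝ × ℝ) : 1 ≤ q z := by
  unfold q H709R2.sq
  nlinarith [sq_nonneg z.1, sq_nonneg z.2]

/-- the random field is nondegenerate at its zeros in the box of radius `B` -/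
def ND (n : ℕ) (B t : ℝ) (c : T n → ℝ × ℝ) : Prop :=
  ∀ p : ℝ × ℝ, ‖p‖ ≤ B → F n c p = 0 → ∀ v, t * √(q p ^ n) * ‖v‖ ≤ ‖fderiv ℝ (F n c) p v‖

/-- control of the oscillation of the normalised field -/
def Osc (n : ℕ) (B M η : ℝ) (c : T n → ℝ × ℝ) : Prop :=
  ∀ z p : ℝ × ℝ, ‖z‖ ≤ B → ‖p‖ ≤ B → F n c p = 0 →
    ‖F n c z‖ ≤ (M * √n * √(H709R2.sq (z - p)) / √(q z) + η) * √(q z ^ n)

/-- the weights of the leading homogeneous part -/
def wl (n : ℕ) (u : ℝ × ℝ) (m : T n) : ℝ := if m.1.1 + m.1.2 = n then w0 n u m else 0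

/-- lower bound for the leading part -/
def Lead (n : ℕ) (τ : ℝ) (c : T n → ℝ × ℝ) : Prop :=
  ∀ u : ℝ × ℝ, H709R2.sq u = 1 → τ ≤ ‖lin (wl n u) c‖

end

end Pool.Agent.Helper63K9.KS
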