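import Pool.Agent.Helper63K9.KS.Cls

/-! The closed orbits of the rotations of a field with good coefficients. -/

open Real Set MeasureTheory
open scoped ENNReal

namespace Pool.Agent.Helper63K9.KS

noncomputable section

open Pool.Agent.H709R2 (fld rot rotc NP wedge field ClosedOrbit exists_poly rot_fld)
open Pool.Agent.W960.HR
open Pool.Agent.H709U
open Pool.Agent.H709Q (Maj)

/-- where the closed orbits of class `(k, j)` are -/
def Om (n : ℕ) (M : ℝ) (c : T n → ℝ × ℝ) (k j : ℕ) : Set (ℝ × ℝ) :=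
  {z | ‖z‖ ≤ 2 ^ (k + 1) ∧ 2 ^ k ≤ 2 * √(q z)} ∩
    {z | H709R2.sq (F n c z) ≤ (6 * (M * √n) / 2 ^ j) ^ 2 * q z ^ n}

/-- the neighbourhoods of the zeros -/
def Vn (n : ℕ) (M s : ℝ) (K : ℕ) (c : T n → ℝ × ℝ) : Set (ℝ × ℝ) :=
  {z | ‖z‖ ≤ 2 ^ (K + 1)} ∩ {z | ‖F n c z‖ ≤ (2 * (M * √n) * s / √(q z)) * √(q z ^ n)}

lemma continuous_q : Continuous q := by
  unfold q H709R2.sq
  fun_prop

lemma continuous_sq' : Continuous H709R2.sq := by
  unfold H709R2.sq
  fun_prop

lemma compact_Om (n : ℕ) (M : ℝ) (c : T n → ℝ × ℝ) (k j : ℕ) : IsCompact (Om n M c k j) := by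
  have hF : Continuous (F n c) := (contDiff_F n c).continuous
  have h1 : IsCompact {z : ℝ × ℝ | ‖z‖ ≤ 2 ^ (k + 1)} := by
    have : {z : ℝ × ℝ | ‖z‖ ≤ 2 ^ (k + 1)} = Metric.closedBall 0 (2 ^ (k + 1)) := by
      ext z; simp
    rw [this]
    exact isCompact_closedBall _ _
  have h2 : Om n M c k j = {z : ℝ × ℝ | ‖z‖ ≤ 2 ^ (k + 1)} ∩ ({z | 2 ^ k ≤ 2 * √(q z)} ∩
      {z | H709R2.sq (F n c z) ≤ (6 * (M * √n) / 2 ^ j) ^ 2 * q z ^ n}) := by
    ext z
    simp only [Om, mem_inter_iff, mem_ofPred_eq, and_assoc]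
  rw [h2]
  refine h1.inter_right (IsClosed.inter ?_ ?_)
  · exact isClosed_le continuous_const (continuous_const.mul continuous_q.sqrt)
  · exact isClosed_le (continuous_sq'.comp hF) (continuous_const.mul (continuous_q.pow n))

/-- good coefficients -/
structure Gd (n : ℕ) (A τ B t M η : ℝ) (c : T n → ℝ × ℝ) : Prop where
  hs : sn c ≤ A ^ 2
  hl : Lead n τ c
  hn : ND n B t c
  ho : Osc n B M η c

lemma sq_le_two {v : ℝ × ℝ} {x : ℝ} (_hx : 0 ≤ x) (h : ‖v‖ ≤ x) : H709R2.sq v ≤ 2 * x ^ 2 := by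
  have h1 := sq_le_norm_sq v
  have h2 := pow_le_pow_left₀ (norm_nonneg v) h 2
  linarith

/-- the integral over the rotations for good coefficients -/
theorem phi_good (hD2 : S_D2) (hE : S_E) (hF : S_F) (hF2 : S_F2) {n : ℕ} (hn : 1 ≤ n)
    {A τ B t M η s : ℝ} {K J : ℕ} (hA : 1 ≤ A) (hτ : 0 < τ) (hτ1 : τ ≤ 1) (ht : 0 < t) (ht1 : t ≤ 1)
    (hM : 0 ≤ M) (hη : 0 ≤ η) (hK : (20 * (A * n) / τ) * (20 * (A * n) / τ) ≤ 2 ^ K)
    (hB : 2 ^ (K + 1) ≤ B) (hJ : 2 ^ K * (8 * (A * n) / t) ≤ t / (100 * (A * n ^ 2)) * 2 ^ J)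
    (hη1 : η ≤ M * √n / 2 ^ J) (hs : 0 < s) (hs1 : s ≤ t / (400 * (A * n ^ 2)))
    (hη2 : η * 2 ^ (K + 3) ≤ M * √n * s) {c : T n → ℝ × ℝ} (hg : Gd n A τ B t M η c) :
    Phi (kc n c) ≤ (((ENNReal.ofReal 4000 + ENNReal.ofReal (1000 / s ^ 2) * volume (Vn n M s K c)) +
        ((K + 1 : ℕ) : ℝ≥0∞) * ENNReal.ofReal (8000 * (n + 1))) +
        ∑ k ∈ Finset.range (K + 1), ∑ j ∈ Finset.range (J + 1),
          ENNReal.ofReal (1 / (2 * (2 ^ k / 2 ^ (j + 1)))) * ∫⁻ z in Om n M c k j, hk (F n c) z) := by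
  have hn1 : (1:ℝ) ≤ n := by exact_mod_cast hn
  have hn0 : (0:ℝ) < n := by linarith
  have hA0 : 0 < A := by linarith
  obtain ⟨P, Q, hP, hQ, hPQ⟩ := exists_poly (kc n c)
  have hdeg : (T n).sup (fun m => m.1 + m.2) ≤ n := Finset.sup_le fun m hm => mem_T.1 hm
  have hP' := hP.trans hdeg
  have hQ' := hQ.trans hdeg
  have hFe : field P Q = F n c := by rw [hPQ, fld_kc]
  set R : ℝ := 20 * (A * n) / τ with hR
  have hAn : 1 ≤ A * n := one_le_mul_of_one_le_of_one_le hA hn1
  have hR1 : 20 ≤ R := by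
    rw [hR, le_div_iff₀ hτ]
    nlinarith
  have hinf : ZC (F n c) 0 (-1) (Real.log R) R := hD2 n hn A τ hA hτ hτ1 c hg.hs hg.hl
  have h2K : (1:ℝ) ≤ 2 ^ K := one_le_pow₀ (by norm_num)
  have hRK : R ≤ 2 ^ K := by nlinarith
  -- zeros are in the disc of radius `2 ^ K`
  have hfar : ∀ p, F n c p = 0 → H709R2.sq p ≤ (2 ^ K) ^ 2 := by
    intro p hp
    by_contra hcon
    push Not at hcon
    have hp0 : p ≠ 0 := by
      intro h
      rw [h] at hcon
      have : (0:ℝ) < (2 ^ K) ^ 2 := by positivity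
      unfold H709R2.sq at hcon
      simp at hcon
      linarith
    have h2 : Real.log R ≤ lg 0 p := by
      rw [le_lg_iff hp0 (by linarith), sub_zero]
      exact (pow_le_pow_left₀ (by linarith) hRK 2).trans hcon.le
    exact (hinf p hp0 (by linarith)).1 hp
  have hpn : ∀ p, F n c p = 0 → ‖p‖ ≤ 2 ^ K := by
    intro p hp
    have h5 := (norm_sq_le_sq p).trans (hfar p hp)
    exact abs_le_of_sq_le_sq' h5 (by positivity) |>.2
  have hKB : (2:ℝ) ^ K ≤ B := by
    refine le_trans ?_ hB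
    rw [pow_succ]; linarith
  have hpB : ∀ p, F n c p = 0 → ‖p‖ ≤ B := fun p hp => (hpn p hp).trans hKB
  have hX2 : ContDiff ℝ 2 (F n c) := contDiff_F n c
  have hnd : ∀ p, F n c p = 0 → ∀ v, v ≠ 0 → fderiv ℝ (F n c) p v ≠ 0 := by
    intro p hp v hv h0
    have h1 := hg.hn p (hpB p hp) hp v
    rw [h0, norm_zero] at h1
    have h2 : 0 < ‖v‖ := norm_pos_iff.2 hv
    have h3 : 0 < √(q p ^ n) := Real.sqrt_pos.2 (pow_pos (q_pos p) n)
    have : 0 < t * √(q p ^ n) * ‖v‖ := by positivity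
    linarith
  have hne : P ≠ 0 ∨ Q ≠ 0 := by
    by_contra hcon
    push Not at hcon
    have h0 : ∀ z, F n c z = 0 := by
      intro z
      rw [← hFe, hcon.1, hcon.2]
      unfold field
      simp
    have h1 := hfar (2 ^ (K + 1), 0) (h0 _)
    unfold H709R2.sq at h1
    simp only at h1
    have h2 : ((2:ℝ) ^ (K + 1)) ^ 2 = 4 * (2 ^ K) ^ 2 := by rw [pow_succ]; ring
    nlinarith [sq_nonneg ((2:ℝ) ^ K)]
  obtain ⟨Z, hZc, hZ⟩ := zeros_finite hP' hQ' hne (by rw [hFe]; exact hnd)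
  rw [hFe] at hZ
  set Λz : ℝ := 8 * (A * n) / t with hΛz
  set r : ℝ := t / (100 * (A * n ^ 2)) with hr
  have hr0 : 0 < r := by positivity
  have hΛz1 : 1 ≤ Λz := by
    rw [hΛz, le_div_iff₀ ht]
    nlinarith
  have hzero : ∀ p ∈ Z, ZC (F n c) p 1 (Real.log r) Λz := fun p hp =>
    hE n hn A B t hA ht ht1 c hg.hs hg.hn p (hpB p ((hZ p).2 hp)) ((hZ p).2 hp)
  have hMn : 0 ≤ M * √n := by positivity
  -- the classification
  have hcl := classify hF hF2 hX2 hP' hQ' hFe hZ (by linarith) (by linarith : (1:ℝ) ≤ R) hinf hK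
    hr0 hΛz1 hzero hJ (Om := Om n M c) (compact_Om n M c) (by
      intro k hk j hj p hp z hz hqz hzp
      refine ⟨⟨hz, hqz⟩, ?_⟩
      have hzB : ‖z‖ ≤ B := hz.trans ((pow_le_pow_right₀ (by norm_num) (by omega)).trans hB)
      have h1 := hg.ho z p hzB (hpB p ((hZ p).2 hp)) ((hZ p).2 hp)
      have hq0 : 0 < √(q z) := Real.sqrt_pos.2 (q_pos z)
      have h2k : (0:ℝ) < 2 ^ k := by positivity
      have h2j : (0:ℝ) < 2 ^ j := by positivity
      have h2 : √(H709R2.sq (z - p)) ≤ 3 / 2 * (2 ^ k / 2 ^ j) := by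
        apply Real.sqrt_le_iff.2
        refine ⟨by positivity, hzp.trans ?_⟩
        nlinarith [sq_nonneg ((2:ℝ) ^ k / 2 ^ j)]
      have h3 : M * √n * √(H709R2.sq (z - p)) / √(q z) ≤ 3 * (M * √n) / 2 ^ j := by
        rw [div_le_div_iff₀ hq0 h2j]
        have h4 : √(H709R2.sq (z - p)) * 2 ^ j ≤ 3 * √(q z) := by
          calc √(H709R2.sq (z - p)) * 2 ^ j ≤ 3 / 2 * (2 ^ k / 2 ^ j) * 2 ^ j :=
                mul_le_mul_of_nonneg_right h2 h2j.le
            _ = 3 / 2 * 2 ^ k := by field_simp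
            _ ≤ 3 * √(q z) := by linarith
        calc M * √n * √(H709R2.sq (z - p)) * 2 ^ j = (M * √n) * (√(H709R2.sq (z - p)) * 2 ^ j) := by
              ring
          _ ≤ (M * √n) * (3 * √(q z)) := mul_le_mul_of_nonneg_left h4 hMn
          _ = _ := by ring
      have h4 : η ≤ 1 * (M * √n) / 2 ^ j := by
        refine hη1.trans ?_
        rw [one_mul]
        exact div_le_div_of_nonneg_left hMn h2j (pow_le_pow_right₀ (by norm_num) hj)
      have hQ0 : 0 ≤ √(q z ^ n) := Real.sqrt_nonneg _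
      have h5 : ‖F n c z‖ ≤ (4 * (M * √n) / 2 ^ j) * √(q z ^ n) := by
        refine h1.trans (mul_le_mul_of_nonneg_right ?_ hQ0)
        refine (add_le_add h3 h4).trans (le_of_eq ?_)
        ring
      have h6 := sq_le_two (by positivity) h5
      rw [mem_ofPred_eq]
      refine h6.trans ?_
      have h7 : √(q z ^ n) ^ 2 = q z ^ n := Real.sq_sqrt (pow_nonneg (q_pos z).le n)
      rw [mul_pow, h7]
      have h8 : 2 * ((4 * (M * √n) / 2 ^ j) ^ 2 * q z ^ n) =
          (32 / 36) * ((6 * (M * √n) / 2 ^ j) ^ 2 * q z ^ n) := by ring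
      rw [h8]
      have h9 : 0 ≤ (6 * (M * √n) / 2 ^ j) ^ 2 * q z ^ n :=
        mul_nonneg (sq_nonneg _) (pow_nonneg (q_pos z).le n)
      linarith)
  -- the number of zeros
  have hcard : (Z.card : ℝ≥0∞) * ENNReal.ofReal 4000 ≤
      ENNReal.ofReal (1000 / s ^ 2) * volume (Vn n M s K c) := by
    have hsr : 4 * s ≤ r := by
      have : t / (400 * (A * n ^ 2)) = r / 4 := by rw [hr]; field_simp; norm_num
      linarith
    have hball : ∀ p ∈ Z, Metric.closedBall p s ⊆ Vn n M s K c := by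
      intro p hp z hz
      have hp0 := (hZ p).2 hp
      rw [mem_closedBall_iff_norm] at hz
      have hs1' : s ≤ 1 := by
        refine hs1.trans ?_
        rw [div_le_one (by positivity)]
        have : 1 ≤ A * (n:ℝ) ^ 2 := one_le_mul_of_one_le_of_one_le hA (one_le_pow₀ hn1)
        linarith
      have hzK : ‖z‖ ≤ 2 ^ (K + 1) := by
        have h1 := norm_add_le (z - p) p
        rw [sub_add_cancel] at h1
        have h2 := hpn p hp0
        rw [pow_succ]
        linarith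
      refine ⟨hzK, ?_⟩
      have h1 := hg.ho z p (hzK.trans hB) (hpB p hp0) hp0
      have hQ0 : 0 ≤ √(q z ^ n) := Real.sqrt_nonneg _
      refine h1.trans (mul_le_mul_of_nonneg_right ?_ hQ0)
      have hq0 : 0 < √(q z) := Real.sqrt_pos.2 (q_pos z)
      have h2 : √(H709R2.sq (z - p)) ≤ 3 / 2 * s := by
        apply Real.sqrt_le_iff.2
        refine ⟨by positivity, (sq_le_two hs.le hz).trans ?_⟩
        nlinarith [sq_nonneg s]
      have h3 : √(q z) ≤ 2 ^ (K + 2) := by
        apply Real.sqrt_le_iff.2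
        refine ⟨by positivity, ?_⟩
        have h4 := sq_le_two (by positivity) hzK
        unfold q
        have e1 : ((2:ℝ) ^ (K + 2)) ^ 2 = 4 * ((2:ℝ) ^ (K + 1)) ^ 2 := by
          rw [pow_succ _ (K + 1)]; ring
        have e2 : 1 ≤ ((2:ℝ) ^ (K + 1)) ^ 2 := one_le_pow₀ (one_le_pow₀ (by norm_num))
        rw [e1]
        linarith
      have h4 : η * √(q z) ≤ 1 / 2 * (M * √n * s) := by
        have h5 : η * √(q z) ≤ η * 2 ^ (K + 2) := mul_le_mul_of_nonneg_left h3 hη
        have h6 : η * 2 ^ (K + 3) = 2 * (η * 2 ^ (K + 2)) := by rw [pow_succ _ (K + 2)]; ring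
        linarith
      rw [div_add' _ _ _ hq0.ne', div_le_div_iff_of_pos_right hq0]
      have h5 : M * √n * √(H709R2.sq (z - p)) ≤ M * √n * (3 / 2 * s) :=
        mul_le_mul_of_nonneg_left h2 hMn
      linarith
    have hdis : ∀ p ∈ Z, ∀ p' ∈ Z, p ≠ p' → Disjoint (Metric.closedBall p s)
        (Metric.closedBall p' s) := by
      intro p hp p' hp' hne
      rw [Set.disjoint_left]
      intro z hz hz'
      rw [mem_closedBall_iff_norm] at hz hz'
      have h1 : ‖p' - p‖ ≤ 2 * s := by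
        have h2 := norm_sub_le (z - p) (z - p')
        have h3 : z - p - (z - p') = p' - p := by abel
        rw [h3] at h2
        linarith
      have h2 : lg p p' ≤ Real.log r := by
        rw [lg_le_iff hne.symm hr0]
        refine (sq_le_two (by positivity) h1).trans ?_
        nlinarith
      exact (hzero p hp p' hne.symm (by linarith)).1 ((hZ p').2 hp')
    have hvol : (Z.card : ℝ≥0∞) * ENNReal.ofReal (4 * s ^ 2) ≤ volume (Vn n M s K c) := by
      calc (Z.card : ℝ≥0∞) * ENNReal.ofReal (4 * s ^ 2) = ∑ p ∈ Z, volume (Metric.closedBall p s) := by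
            have h1 : ∀ p ∈ Z, volume (Metric.closedBall p s) = ENNReal.ofReal (4 * s ^ 2) := by
              intro p _
              have e : Metric.closedBall p s = Metric.closedBall p.1 s ×ˢ Metric.closedBall p.2 s :=
                (closedBall_prod_same p.1 p.2 s).symm
              rw [e, Measure.volume_eq_prod, Measure.prod_prod, Real.volume_closedBall,
                Real.volume_closedBall, ← ENNReal.ofReal_mul (by positivity)]
              congr 1
              ring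
            rw [Finset.sum_congr rfl h1, Finset.sum_const, nsmul_eq_mul]
        _ = volume (⋃ p ∈ Z, Metric.closedBall p s) := by
            rw [measure_biUnion_finset (fun p hp p' hp' hne => hdis p hp p' hp' hne)
              fun p _ => Metric.isClosed_closedBall.measurableSet]
        _ ≤ _ := measure_mono (iUnion₂_subset hball)
    calc (Z.card : ℝ≥0∞) * ENNReal.ofReal 4000
        = ENNReal.ofReal (1000 / s ^ 2) * ((Z.card : ℝ≥0∞) * ENNReal.ofReal (4 * s ^ 2)) := by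
          rw [mul_left_comm, ← ENNReal.ofReal_mul (by positivity)]
          congr 2
          field_simp
          norm_num
      _ ≤ _ := mul_le_mul_right hvol _
  obtain ⟨g, hg1, hg2, hg3⟩ := hcl
  have hPhi : Phi (kc n c) ≤ ∫⁻ α in Ioo 0 π, g α := by
    unfold Phi
    refine setLIntegral_mono' measurableSet_Ioo fun α hα => le_trans (le_of_eq ?_) (hg2 α hα)
    unfold NP
    have : rf (F n c) α = fld (rotc α (kc n c)) := by
      funext z
      unfold rf
      rw [← fld_kc, rot_fld]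
    simp only [this]
  refine hPhi.trans (hg3.trans ?_)
  gcongr

end

end Pool.Agent.Helper63K9.KS
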