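import Pool.Agent.Helper63K9.KS.Defs

/-! The Kostlan ensemble of planar polynomial vector fields: covariances. -/

open Real Set MeasureTheory
open scoped ENNReal

namespace Pool.Agent.Helper63K9.KS

noncomputable section

open Pool.Agent.H709R2 (fld rot rotc NP)
open Pool.Agent.W960.HR

lemma mc_nonneg (n : ℕ) (m : ℕ × ℕ) : 0 ≤ mc n m := by
  unfold mc
  positivity

lemma ka_sq (n : ℕ) (m : T n) : ka n m ^ 2 = mc n m.1 := Real.sq_sqrt (mc_nonneg _ _)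

lemma mc_swap (n i j : ℕ) : mc n (i, j) = mc n (j, i) := by
  unfold mc
  simp only
  rw [add_comm j i]
  congr 2
  exact Nat.choose_symm_add

/-- the multinomial theorem -/
lemma I0 (n : ℕ) (a b : ℝ) : ∑ m ∈ T n, mc n m * (a ^ m.1 * b ^ m.2) = (1 + a + b) ^ n := by
  have h1 : (1 + a + b) ^ n = ∑ l ∈ Finset.range (n + 1), ∑ i ∈ Finset.range (l + 1),
      (n.choose l : ℝ) * (a ^ i * b ^ (l - i) * (l.choose i : ℝ)) := by
    have e : (1 + a + b) = (a + b) + 1 := by ring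
    rw [e, add_pow]
    refine Finset.sum_congr rfl fun l _ => ?_
    rw [one_pow, mul_one, add_pow, Finset.sum_mul]
    exact Finset.sum_congr rfl fun i _ => by ring
  rw [h1, Finset.sum_sigma']
  refine Finset.sum_nbij' (fun m => ⟨m.1 + m.2, m.1⟩) (fun p => (p.2, p.1 - p.2)) ?_ ?_ ?_ ?_ ?_
  · intro m hm
    rw [mem_T] at hm
    simp only [Finset.mem_sigma, Finset.mem_range]
    omega
  · intro p hp
    simp only [Finset.mem_sigma, Finset.mem_range] at hp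
    rw [mem_T]
    simp only
    omega
  · intro m _
    simp
  · rintro ⟨l, i⟩ hp
    simp only [Finset.mem_sigma, Finset.mem_range] at hp
    have : i + (l - i) = l := by omega
    simp only [this]
  · intro m _
    unfold mc
    simp only [Nat.add_sub_cancel_left]
    ring

lemma I1 (n : ℕ) (a b : ℝ) :
    ∑ m ∈ T n, mc n m * ((m.1 * a ^ (m.1 - 1)) * b ^ m.2) = n * (1 + a + b) ^ (n - 1) := by
  have h1 : HasDerivAt (fun a : ℝ => ∑ m ∈ T n, mc n m * (a ^ m.1 * b ^ m.2))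
      (∑ m ∈ T n, mc n m * ((m.1 * a ^ (m.1 - 1)) * b ^ m.2)) a :=
    HasDerivAt.fun_sum fun m _ => ((hasDerivAt_pow m.1 a).mul_const _).const_mul _
  have h2 : HasDerivAt (fun a : ℝ => (1 + a + b) ^ n) (n * (1 + a + b) ^ (n - 1)) a := by
    have h3 : HasDerivAt (fun a : ℝ => 1 + a + b) 1 a := ((hasDerivAt_id a).const_add 1).add_const b
    simpa using h3.fun_pow n
  simp only [I0] at h1
  exact h1.unique h2

lemma I2 (n : ℕ) (a b : ℝ) :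
    ∑ m ∈ T n, mc n m * ((m.1 * (((m.1 - 1 : ℕ) : ℝ) * a ^ (m.1 - 1 - 1))) * b ^ m.2) =
      n * (((n - 1 : ℕ) : ℝ) * (1 + a + b) ^ (n - 1 - 1)) := by
  have h1 : HasDerivAt (fun a : ℝ => ∑ m ∈ T n, mc n m * ((m.1 * a ^ (m.1 - 1)) * b ^ m.2))
      (∑ m ∈ T n, mc n m * ((m.1 * (((m.1 - 1 : ℕ) : ℝ) * a ^ (m.1 - 1 - 1))) * b ^ m.2)) a :=
    HasDerivAt.fun_sum fun m _ =>
      (((hasDerivAt_pow (m.1 - 1) a).const_mul (m.1 : ℝ)).mul_const _).const_mul _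
  have h2 : HasDerivAt (fun a : ℝ => (n : ℝ) * (1 + a + b) ^ (n - 1))
      (n * (((n - 1 : ℕ) : ℝ) * (1 + a + b) ^ (n - 1 - 1))) a := by
    have h3 : HasDerivAt (fun a : ℝ => 1 + a + b) 1 a := ((hasDerivAt_id a).const_add 1).add_const b
    simpa using (h3.fun_pow (n - 1)).const_mul (n : ℝ)
  simp only [I1] at h1
  exact h1.unique h2

lemma I11 (n : ℕ) (a b : ℝ) :
    ∑ m ∈ T n, mc n m * ((m.1 * a ^ (m.1 - 1)) * (m.2 * b ^ (m.2 - 1))) =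
      n * (((n - 1 : ℕ) : ℝ) * (1 + a + b) ^ (n - 1 - 1)) := by
  have h1 : HasDerivAt (fun b : ℝ => ∑ m ∈ T n, mc n m * ((m.1 * a ^ (m.1 - 1)) * b ^ m.2))
      (∑ m ∈ T n, mc n m * ((m.1 * a ^ (m.1 - 1)) * (m.2 * b ^ (m.2 - 1)))) b :=
    HasDerivAt.fun_sum fun m _ => ((hasDerivAt_pow m.2 b).const_mul _).const_mul _
  have h2 : HasDerivAt (fun b : ℝ => (n : ℝ) * (1 + a + b) ^ (n - 1))
      (n * (((n - 1 : ℕ) : ℝ) * (1 + a + b) ^ (n - 1 - 1))) b := by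
    have h3 : HasDerivAt (fun b : ℝ => 1 + a + b) 1 b := (hasDerivAt_id b).const_add (1 + a)
    simpa using (h3.fun_pow (n - 1)).const_mul (n : ℝ)
  simp only [I1] at h1
  exact h1.unique h2

lemma sum_swap (n : ℕ) (f : ℕ → ℕ → ℝ) :
    ∑ m ∈ T n, mc n m * f m.1 m.2 = ∑ m ∈ T n, mc n m * f m.2 m.1 := by
  rw [sum_T_swap n fun i j => mc n (i, j) * f i j]
  exact Finset.sum_congr rfl fun m _ => by rw [mc_swap]

lemma I1' (n : ℕ) (a b : ℝ) :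
    ∑ m ∈ T n, mc n m * ((m.2 * b ^ (m.2 - 1)) * a ^ m.1) = n * (1 + a + b) ^ (n - 1) := by
  rw [sum_swap n fun i j => (j * b ^ (j - 1)) * a ^ i, I1]
  ring

lemma I2' (n : ℕ) (a b : ℝ) :
    ∑ m ∈ T n, mc n m * ((m.2 * (((m.2 - 1 : ℕ) : ℝ) * b ^ (m.2 - 1 - 1))) * a ^ m.1) =
      n * (((n - 1 : ℕ) : ℝ) * (1 + a + b) ^ (n - 1 - 1)) := by
  rw [sum_swap n fun i j => (j * (((j - 1 : ℕ) : ℝ) * b ^ (j - 1 - 1))) * a ^ i, I2]
  congr 3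
  ring

lemma q_eq (z : ℝ × ℝ) : 1 + z.1 ^ 2 + z.2 ^ 2 = q z := by
  unfold q H709R2.sq
  ring

lemma sum_sub (n : ℕ) (f : ℕ × ℕ → ℝ) {g : T n → ℝ} (h : ∀ m : T n, g m = f m.1) :
    ∑ m, g m = ∑ m ∈ T n, f m := by
  rw [← Finset.sum_coe_sort (T n) f]
  exact Finset.sum_congr rfl fun m _ => h m

/-- the covariance -/
lemma cov (n : ℕ) (z z' : ℝ × ℝ) :
    ∑ m, w0 n z m * w0 n z' m = (1 + z.1 * z'.1 + z.2 * z'.2) ^ n := by
  rw [← I0]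
  refine sum_sub n _ fun m => ?_
  unfold w0 wt e0
  rw [← ka_sq, mul_pow, mul_pow]
  ring

lemma sum_w0 (n : ℕ) (z : ℝ × ℝ) : ∑ m, w0 n z m ^ 2 = q z ^ n := by
  have h := cov n z z
  simp only [← pow_two] at h
  rw [h, q_eq]

lemma sum_w0_wx (n : ℕ) (z : ℝ × ℝ) :
    ∑ m, w0 n z m * wx n z m = z.1 * (n * q z ^ (n - 1)) := by
  rw [← q_eq, ← I1, Finset.mul_sum]
  refine sum_sub n _ fun m => ?_
  unfold w0 wx wt e0
  rw [← ka_sq]
  rcases Nat.eq_zero_or_pos m.1.1 with h | h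
  · simp [h]
  · obtain ⟨k, hk⟩ := Nat.exists_eq_add_of_le' h
    simp only [hk, Nat.add_sub_cancel]
    ring

lemma sum_w0_wy (n : ℕ) (z : ℝ × ℝ) :
    ∑ m, w0 n z m * wy n z m = z.2 * (n * q z ^ (n - 1)) := by
  rw [← q_eq, ← I1', Finset.mul_sum]
  refine sum_sub n _ fun m => ?_
  unfold w0 wy wt e0
  rw [← ka_sq]
  rcases Nat.eq_zero_or_pos m.1.2 with h | h
  · simp [h]
  · obtain ⟨k, hk⟩ := Nat.exists_eq_add_of_le' h
    simp only [hk, Nat.add_sub_cancel]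
    ring

lemma sq_nat (i : ℕ) (X : ℝ) : (i : ℝ) ^ 2 * X ^ (i - 1) =
    (i * X ^ (i - 1)) + X * (i * (((i - 1 : ℕ) : ℝ) * X ^ (i - 1 - 1))) := by
  rcases i with _ | _ | k
  · simp
  · simp
  · simp only [Nat.add_sub_cancel]
    push_cast
    ring

lemma sum_wx_sq (n : ℕ) (z : ℝ × ℝ) :
    ∑ m, wx n z m ^ 2 = n * q z ^ (n - 1) + z.1 ^ 2 * (n * (((n - 1 : ℕ) : ℝ) * q z ^ (n - 1 - 1))) := by
  rw [← q_eq, ← I1, ← I2, Finset.mul_sum, ← Finset.sum_add_distrib]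
  refine sum_sub n _ fun m => ?_
  have h := sq_nat m.1.1 (z.1 ^ 2)
  unfold wx wt e0
  rw [mul_pow, mul_pow, mul_pow, ← pow_mul, ← pow_mul, ka_sq, mul_comm (m.1.1 - 1) 2,
    mul_comm m.1.2 2, pow_mul, pow_mul]
  linear_combination (mc n m.1 * (z.2 ^ 2) ^ m.1.2) * h

lemma sum_wy_sq (n : ℕ) (z : ℝ × ℝ) :
    ∑ m, wy n z m ^ 2 = n * q z ^ (n - 1) + z.2 ^ 2 * (n * (((n - 1 : ℕ) : ℝ) * q z ^ (n - 1 - 1))) := by
  rw [← q_eq, ← I1', ← I2', Finset.mul_sum, ← Finset.sum_add_distrib]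
  refine sum_sub n _ fun m => ?_
  have h := sq_nat m.1.2 (z.2 ^ 2)
  unfold wy wt e0
  rw [mul_pow, mul_pow, mul_pow, ← pow_mul, ← pow_mul, ka_sq, mul_comm (m.1.2 - 1) 2,
    mul_comm m.1.1 2, pow_mul, pow_mul]
  linear_combination (mc n m.1 * (z.1 ^ 2) ^ m.1.1) * h

lemma sum_wx_wy (n : ℕ) (z : ℝ × ℝ) :
    ∑ m, wx n z m * wy n z m = z.1 * z.2 * (n * (((n - 1 : ℕ) : ℝ) * q z ^ (n - 1 - 1))) := by
  rw [← q_eq, ← I11, Finset.mul_sum]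
  refine sum_sub n _ fun m => ?_
  unfold wx wy wt e0
  rw [← ka_sq]
  rcases Nat.eq_zero_or_pos m.1.1 with h | h
  · simp [h]
  rcases Nat.eq_zero_or_pos m.1.2 with h' | h'
  · simp [h']
  obtain ⟨k, hk⟩ := Nat.exists_eq_add_of_le' h
  obtain ⟨k', hk'⟩ := Nat.exists_eq_add_of_le' h'
  simp only [hk, hk', Nat.add_sub_cancel]
  ring

lemma q_mul1 {n : ℕ} (hn : 1 ≤ n) (z : ℝ × ℝ) : q z * q z ^ (n - 1) = q z ^ n := by
  rw [← pow_succ', Nat.sub_add_cancel hn]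

lemma q_mul2 {n : ℕ} (hn : 1 ≤ n) (z : ℝ × ℝ) :
    q z ^ 2 * (((n - 1 : ℕ) : ℝ) * q z ^ (n - 1 - 1)) = ((n : ℝ) - 1) * q z ^ n := by
  rcases Nat.lt_or_ge 1 n with h | h
  · obtain ⟨k, rfl⟩ := Nat.exists_eq_add_of_le' h
    simp only [Nat.add_sub_cancel, show k + 1 + 1 - 1 = k + 1 by omega]
    push_cast
    ring
  · have : n = 1 := by omega
    subst this
    simp

lemma qa {n : ℕ} (hn : 1 ≤ n) (z : ℝ × ℝ) :
    q z * ∑ m, w0 n z m * wx n z m = n * z.1 * q z ^ n := by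
  rw [sum_w0_wx, ← q_mul1 hn]; ring

lemma qa' {n : ℕ} (hn : 1 ≤ n) (z : ℝ × ℝ) :
    q z * ∑ m, w0 n z m * wy n z m = n * z.2 * q z ^ n := by
  rw [sum_w0_wy, ← q_mul1 hn]; ring

lemma qb {n : ℕ} (hn : 1 ≤ n) (z : ℝ × ℝ) :
    q z ^ 2 * ∑ m, wx n z m ^ 2 = n * q z * q z ^ n + n * (n - 1) * z.1 ^ 2 * q z ^ n := by
  have h := q_mul2 hn z
  have h1 := q_mul1 hn z
  rw [sum_wx_sq]
  linear_combination (n * z.1 ^ 2) * h + (n * q z) * h1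

lemma qb' {n : ℕ} (hn : 1 ≤ n) (z : ℝ × ℝ) :
    q z ^ 2 * ∑ m, wy n z m ^ 2 = n * q z * q z ^ n + n * (n - 1) * z.2 ^ 2 * q z ^ n := by
  have h := q_mul2 hn z
  have h1 := q_mul1 hn z
  rw [sum_wy_sq]
  linear_combination (n * z.2 ^ 2) * h + (n * q z) * h1

lemma qc {n : ℕ} (hn : 1 ≤ n) (z : ℝ × ℝ) :
    q z ^ 2 * ∑ m, wx n z m * wy n z m = n * (n - 1) * (z.1 * z.2) * q z ^ n := by
  have h := q_mul2 hn z
  rw [sum_wx_wy]
  linear_combination (n * (z.1 * z.2)) * h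

/-- Cauchy-Schwarz for linear forms -/
lemma norm_lin_le {S : Finset (ℕ × ℕ)} (w : S → ℝ) (c : S → ℝ × ℝ) :
    ‖lin w c‖ ≤ √(∑ m, w m ^ 2) * √(sn c) := by
  have h : ∀ f : S → ℝ, (∀ m, f m ^ 2 ≤ H709R2.sq (c m)) → |∑ m, w m * f m| ≤
      √(∑ m, w m ^ 2) * √(sn c) := by
    intro f hf
    rw [← Real.sqrt_mul (Finset.sum_nonneg fun _ _ => sq_nonneg _)]
    apply Real.abs_le_sqrt
    refine (Finset.sum_mul_sq_le_sq_mul_sq _ _ _).trans ?_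
    refine mul_le_mul_of_nonneg_left ?_ (Finset.sum_nonneg fun _ _ => sq_nonneg _)
    exact Finset.sum_le_sum fun m _ => hf m
  rw [Prod.norm_def, Real.norm_eq_abs, Real.norm_eq_abs]
  refine max_le ?_ ?_
  · have e : (lin w c).1 = ∑ m, w m * (c m).1 := by
      unfold lin
      rw [Prod.fst_sum]
      rfl
    rw [e]
    exact h _ fun m => by unfold H709R2.sq; nlinarith [sq_nonneg (c m).2]
  · have e : (lin w c).2 = ∑ m, w m * (c m).2 := by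
      unfold lin
      rw [Prod.snd_sum]
      rfl
    rw [e]
    exact h _ fun m => by unfold H709R2.sq; nlinarith [sq_nonneg (c m).1]

lemma norm_lin_le' {S : Finset (ℕ × ℕ)} {w : S → ℝ} {c : S → ℝ × ℝ} {s A : ℝ} (hs : 0 ≤ s)
    (hw : ∑ m, w m ^ 2 ≤ s ^ 2) (hA : 0 ≤ A) (hc : sn c ≤ A ^ 2) : ‖lin w c‖ ≤ s * A := by
  refine (norm_lin_le w c).trans ?_
  exact mul_le_mul (Real.sqrt_le_iff.2 ⟨hs, hw⟩) (Real.sqrt_le_iff.2 ⟨hA, hc⟩) (Real.sqrt_nonneg _) hs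

end

end Pool.Agent.Helper63K9.KS
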