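import Pool.Agent.Helper63K9.KS.Leaves

/-! Leaf A: the mean of the kernel where the normalised field is small. -/

open Real Set MeasureTheory Topology Filter ProbabilityTheory
open scoped ENNReal NNReal

namespace Pool.Agent.Helper63K9.KS

noncomputable section

open Pool.Agent.H709R2 (wedge)
open Pool.Agent.W960.HR

/-- the truncated kernel `1 / |x|` -/
def ker (R : ℝ) (p : ℝ × ℝ) : ℝ≥0∞ :=
  if p.1 ^ 2 + p.2 ^ 2 ≤ R ^ 2 then ENNReal.ofReal (1 / √(p.1 ^ 2 + p.2 ^ 2)) else 0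

lemma measurable_ker (R : ℝ) : Measurable (ker R) := by
  unfold ker
  refine Measurable.ite (measurableSet_le (by fun_prop) (by fun_prop)) (by fun_prop) (by fun_prop)

lemma lintegral_ker {R : ℝ} (hR : 0 ≤ R) : ∫⁻ p, ker R p ≤ ENNReal.ofReal (2 * π * R) := by
  rw [← lintegral_comp_polarCoord_symm]
  have h : ∀ p ∈ polarCoord.target, ENNReal.ofReal p.1 • ker R (polarCoord.symm p) ≤
      (Ioc (0:ℝ) R ×ˢ Ioo (-π) π).indicator (fun _ => (1 : ℝ≥0∞)) p := by
    rintro ⟨r, θ⟩ hp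
    rw [polarCoord_target, mem_prod] at hp
    obtain ⟨hr, hθ⟩ := hp
    simp only [mem_Ioi] at hr hθ
    have e : (r * cos θ) ^ 2 + (r * sin θ) ^ 2 = r ^ 2 := by
      linear_combination r ^ 2 * sin_sq_add_cos_sq θ
    rw [polarCoord_symm_apply]
    unfold ker
    simp only [e, smul_eq_mul]
    rw [Real.sqrt_sq hr.le]
    split_ifs with h1
    · have h2 : r ≤ R := abs_le_of_sq_le_sq' h1 hR |>.2
      rw [indicator_of_mem (by exact ⟨⟨hr, h2⟩, hθ⟩), ← ENNReal.ofReal_mul hr.le,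
        mul_one_div_cancel hr.ne', ENNReal.ofReal_one]
    · simp
  refine (setLIntegral_mono' polarCoord.open_target.measurableSet h).trans ?_
  refine (setLIntegral_le_lintegral _ _).trans ?_
  rw [lintegral_indicator_const (measurableSet_Ioc.prod measurableSet_Ioo), one_mul,
    Measure.volume_eq_prod, Measure.prod_prod, Real.volume_Ioc, Real.volume_Ioo,
    ← ENNReal.ofReal_mul (by linarith)]
  exact ENNReal.ofReal_le_ofReal (le_of_eq (by ring))

lemma gaussian_le {s : ℝ} (hs : 0 < s) {v : ℝ≥0} (hv : (v : ℝ) = s ^ 2) :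
    gaussianReal 0 v ≤ ENNReal.ofReal ((√(2 * π) * s)⁻¹) • (volume : Measure ℝ) := by
  have hv0 : v ≠ 0 := by
    intro h
    rw [h] at hv
    have : 0 < s ^ 2 := by positivity
    simp at hv
    linarith [hv.symm ▸ this]
  rw [Measure.le_iff]
  intro A hA
  rw [gaussianReal_apply 0 hv0, Measure.smul_apply, smul_eq_mul, ← setLIntegral_const]
  refine setLIntegral_mono measurable_const fun u _ => ?_
  unfold gaussianPDF
  apply ENNReal.ofReal_le_ofReal
  rw [gaussianPDFReal_def]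
  simp only
  rw [hv]
  have h2 : √(2 * π * s ^ 2) = √(2 * π) * s := by
    rw [Real.sqrt_mul (by positivity), Real.sqrt_sq hs.le]
  rw [h2]
  have h4 : rexp (-(u - 0) ^ 2 / (2 * s ^ 2)) ≤ 1 := by
    apply Real.exp_le_one_iff.2
    apply div_nonpos_of_nonpos_of_nonneg
    · simp; positivity
    · positivity
  calc (√(2 * π) * s)⁻¹ * rexp (-(u - 0) ^ 2 / (2 * s ^ 2)) ≤ (√(2 * π) * s)⁻¹ * 1 := by gcongr
    _ = (√(2 * π) * s)⁻¹ := mul_one _

lemma gaussian_ker {s : ℝ} (hs : 0 < s) {v : ℝ≥0} (hv : (v : ℝ) = s ^ 2) {R : ℝ} (hR : 0 ≤ R) :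
    ∫⁻ p, ker R p ∂((gaussianReal 0 v).prod (gaussianReal 0 v)) ≤ ENNReal.ofReal (R / s ^ 2) := by
  have h1 : (gaussianReal 0 v).prod (gaussianReal 0 v) ≤
      (ENNReal.ofReal ((√(2 * π) * s)⁻¹) * ENNReal.ofReal ((√(2 * π) * s)⁻¹)) •
        (volume : Measure (ℝ × ℝ)) := by
    rw [Measure.volume_eq_prod]
    have := Measure.prod_mono (gaussian_le hs hv) (gaussian_le hs hv)
    rw [Measure.prod_smul_left, Measure.prod_smul_right, smul_smul] at this
    exact this
  refine (lintegral_mono' h1 le_rfl).trans ?_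
  rw [lintegral_smul_measure, smul_eq_mul]
  refine (mul_le_mul_right (lintegral_ker hR) _).trans ?_
  rw [← ENNReal.ofReal_mul (by positivity), ← ENNReal.ofReal_mul (by positivity)]
  apply ENNReal.ofReal_le_ofReal
  refine le_of_eq ?_
  have h2 : √(2 * π) ^ 2 = 2 * π := Real.sq_sqrt (by positivity)
  rw [← pow_two, inv_pow, mul_pow, h2]
  field_simp

variable {ι : Type*} [Fintype ι]

lemma mean_mixed {w v : ι → ℝ} {s σ R : ℝ} (hs : 0 < s) (hσ : 0 < σ) (hw : ∑ m, w m ^ 2 = s ^ 2)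
    (hv : ∑ m, v m ^ 2 ≤ σ ^ 2) (hort : ∑ m, w m * v m = 0) (hR : 0 ≤ R) :
    ∫⁻ p : (ι → ℝ) × (ι → ℝ), ENNReal.ofReal |sl v p.1| * ker R (sl w p.1, sl w p.2)
      ∂((GQ ι).prod (GQ ι)) ≤ ENNReal.ofReal (σ * R / s ^ 2) := by
  have hmw : Measurable (sl w) := (continuous_sl w).measurable
  have hmv : Measurable (sl v) := (continuous_sl v).measurable
  have hk := measurable_ker R
  have hm : Measurable fun p : (ι → ℝ) × (ι → ℝ) =>
      ENNReal.ofReal |sl v p.1| * ker R (sl w p.1, sl w p.2) := by fun_prop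
  rw [lintegral_prod_symm _ hm.aemeasurable]
  have h1 : ∀ y : ℝ, ∫⁻ a, ENNReal.ofReal |sl v a| * ker R (sl w a, y) ∂GQ ι =
      (∫⁻ a, ENNReal.ofReal |sl v a| ∂GQ ι) * ∫⁻ a, ker R (sl w a, y) ∂GQ ι := by
    intro y
    have hort' : ∑ m, v m * w m = 0 := by
      rw [← hort]; exact Finset.sum_congr rfl fun m _ => mul_comm _ _
    have hi : IndepFun (fun a => ENNReal.ofReal |sl v a|) (fun a => ker R (sl w a, y)) (GQ ι) :=
      (indep_sl hort').comp (φ := fun x => ENNReal.ofReal |x|) (ψ := fun x => ker R (x, y))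
        (by fun_prop) (by fun_prop)
    exact lintegral_mul_eq_lintegral_mul_lintegral_of_indepFun (by fun_prop) (by fun_prop) hi
  simp only [h1]
  rw [lintegral_const_mul _ (by fun_prop)]
  have h2 : ∫⁻ b, ∫⁻ a, ker R (sl w a, sl w b) ∂GQ ι ∂GQ ι =
      ∫⁻ p, ker R p ∂(((GQ ι).map (sl w)).prod ((GQ ι).map (sl w))) := by
    rw [lintegral_prod_symm _ hk.aemeasurable, lintegral_map (by fun_prop) hmw]
    congr 1
    funext b
    rw [lintegral_map (by fun_prop) hmw]
  rw [h2, map_sl]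
  refine (mul_le_mul' (mean_abs_sl hσ hv) (gaussian_ker hs ?_ hR)).trans ?_
  · rw [Real.coe_toNNReal _ (Finset.sum_nonneg fun _ _ => sq_nonneg _), hw]
  · rw [← ENNReal.ofReal_mul hσ.le]
    exact ENNReal.ofReal_le_ofReal (le_of_eq (by ring))

lemma ker_swap (R x y : ℝ) : ker R (x, y) = ker R (y, x) := by
  unfold ker
  simp only [add_comm]

lemma mean_mixed' {w v : ι → ℝ} {s σ R : ℝ} (hs : 0 < s) (hσ : 0 < σ) (hw : ∑ m, w m ^ 2 = s ^ 2)
    (hv : ∑ m, v m ^ 2 ≤ σ ^ 2) (hort : ∑ m, w m * v m = 0) (hR : 0 ≤ R) :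
    ∫⁻ p : (ι → ℝ) × (ι → ℝ), ENNReal.ofReal |sl v p.2| * ker R (sl w p.1, sl w p.2)
      ∂((GQ ι).prod (GQ ι)) ≤ ENNReal.ofReal (σ * R / s ^ 2) := by
  have hmw : Measurable (sl w) := (continuous_sl w).measurable
  have hmv : Measurable (sl v) := (continuous_sl v).measurable
  have hk := measurable_ker R
  refine le_trans (le_of_eq ?_) (mean_mixed hs hσ hw hv hort hR)
  have h := (Measure.measurePreserving_swap (μ := GQ ι) (ν := GQ ι)).lintegral_comp
    (f := fun p : (ι → ℝ) × (ι → ℝ) => ENNReal.ofReal |sl v p.2| * ker R (sl w p.1, sl w p.2))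
    (by fun_prop)
  rw [← h]
  congr 1
  funext p
  simp only [Prod.fst_swap, Prod.snd_swap]
  rw [ker_swap]

variable {S : Finset (ℕ × ℕ)}

lemma lintegral_GP {f : (S → ℝ) × (S → ℝ) → ℝ≥0∞} (hf : Measurable f) :
    ∫⁻ c : S → ℝ × ℝ, f (fun m => (c m).1, fun m => (c m).2) ∂GP S =
      ∫⁻ p, f p ∂((GQ S).prod (GQ S)) := by
  have h := measurePreserving_arrowProdEquivProdArrow ℝ ℝ S (fun _ => gaussianReal 0 1)
    (fun _ => gaussianReal 0 1)
  exact h.lintegral_comp hf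

lemma half {w w' : S → ℝ} {s σ R : ℝ} (hs : 0 < s) (hσ : 0 < σ) (hw : ∑ m, w m ^ 2 = s ^ 2)
    (hres : s ^ 2 * ∑ m, w' m ^ 2 - (∑ m, w m * w' m) ^ 2 ≤ σ ^ 2 * s ^ 2) (hR : 0 ≤ R) :
    ∃ G : (S → ℝ × ℝ) → ℝ≥0∞, Measurable G ∧ (∀ c, H709R2.sq (lin w c) ≤ R ^ 2 →
      ENNReal.ofReal (|wedge (lin w c) (lin w' c)| / H709R2.sq (lin w c)) ≤ G c) ∧
      ∫⁻ c, G c ∂GP S ≤ ENNReal.ofReal (2 * σ * R / s ^ 2) := by
  have hs2 : 0 < s ^ 2 := by positivity
  set ρ : ℝ := (∑ m, w m * w' m) / s ^ 2 with hρ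
  have hsum : ∑ m, w m * w' m = ρ * s ^ 2 := by rw [hρ]; field_simp
  set v : S → ℝ := fun m => w' m - ρ * w m with hv
  have hort : ∑ m, w m * v m = 0 := by
    have h1 : ∑ m, w m * v m = ∑ m, w m * w' m - ρ * ∑ m, w m ^ 2 := by
      rw [Finset.mul_sum, ← Finset.sum_sub_distrib]
      exact Finset.sum_congr rfl fun m _ => by simp only [hv]; ring
    rw [h1, hw, hsum]
    ring
  have hvn : ∑ m, v m ^ 2 ≤ σ ^ 2 := by
    have h2 : ∑ m, v m ^ 2 = ∑ m, w' m ^ 2 - 2 * ρ * (∑ m, w m * w' m) + ρ ^ 2 * ∑ m, w m ^ 2 := by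
      rw [Finset.mul_sum, Finset.mul_sum, ← Finset.sum_sub_distrib, ← Finset.sum_add_distrib]
      exact Finset.sum_congr rfl fun m _ => by simp only [hv]; ring
    rw [hsum] at hres
    rw [h2, hw, hsum]
    refine le_of_mul_le_mul_left ?_ hs2
    nlinarith
  have hmw : Measurable (sl w) := (continuous_sl w).measurable
  have hmv : Measurable (sl v) := (continuous_sl v).measurable
  have hk := measurable_ker R
  set g1 : (S → ℝ) × (S → ℝ) → ℝ≥0∞ := fun p =>
    ENNReal.ofReal |sl v p.1| * ker R (sl w p.1, sl w p.2) with hg1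
  set g2 : (S → ℝ) × (S → ℝ) → ℝ≥0∞ := fun p =>
    ENNReal.ofReal |sl v p.2| * ker R (sl w p.1, sl w p.2) with hg2
  have m1 : Measurable g1 := by fun_prop
  have m2 : Measurable g2 := by fun_prop
  refine ⟨fun c => (g1 + g2) (fun m => (c m).1, fun m => (c m).2), ?_, ?_, ?_⟩
  · exact (m1.add m2).comp (by fun_prop)
  · intro c hc
    set a : S → ℝ := fun m => (c m).1 with ha
    set b : S → ℝ := fun m => (c m).2 with hb
    have hX1 : (lin w c).1 = sl w a := lin_fst w c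
    have hX2 : (lin w c).2 = sl w b := lin_snd w c
    have hsl : ∀ a : S → ℝ, sl w' a = sl v a + ρ * sl w a := by
      intro a
      unfold sl
      rw [Finset.mul_sum, ← Finset.sum_add_distrib]
      exact Finset.sum_congr rfl fun m _ => by simp only [hv]; ring
    have hY1 : (lin w' c).1 = sl v a + ρ * sl w a := by rw [← hsl]; exact lin_fst w' c
    have hY2 : (lin w' c).2 = sl v b + ρ * sl w b := by rw [← hsl]; exact lin_snd w' c
    have hwd : wedge (lin w c) (lin w' c) = sl w a * sl v b - sl w b * sl v a := by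
      unfold wedge
      rw [hX1, hX2, hY1, hY2]
      ring
    have hsq : H709R2.sq (lin w c) = sl w a ^ 2 + sl w b ^ 2 := by
      unfold H709R2.sq
      rw [hX1, hX2]
    rw [hwd, hsq]
    rw [hsq] at hc
    simp only [Pi.add_apply, hg1, hg2, ← add_mul]
    unfold ker
    simp only
    rw [if_pos hc, ← ENNReal.ofReal_add (abs_nonneg _) (abs_nonneg _),
      ← ENNReal.ofReal_mul (by positivity)]
    apply ENNReal.ofReal_le_ofReal
    rcases (by positivity : 0 ≤ sl w a ^ 2 + sl w b ^ 2).eq_or_lt with h0 | h0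
    · rw [← h0]; simp
    · set N : ℝ := √(sl w a ^ 2 + sl w b ^ 2) with hN
      have hN0 : 0 < N := Real.sqrt_pos.2 h0
      have hN2 : sl w a ^ 2 + sl w b ^ 2 = N ^ 2 := (Real.sq_sqrt h0.le).symm
      have ha1 : |sl w a| ≤ N := Real.abs_le_sqrt (by nlinarith [sq_nonneg (sl w b)])
      have hb1 : |sl w b| ≤ N := Real.abs_le_sqrt (by nlinarith [sq_nonneg (sl w a)])
      rw [hN2, mul_one_div, pow_two, ← div_div]
      refine div_le_div_of_nonneg_right ?_ hN0.le
      rw [div_le_iff₀ hN0]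
      calc |sl w a * sl v b - sl w b * sl v a| ≤ |sl w a * sl v b| + |sl w b * sl v a| := abs_sub _ _
        _ = |sl w a| * |sl v b| + |sl w b| * |sl v a| := by rw [abs_mul, abs_mul]
        _ ≤ N * |sl v b| + N * |sl v a| := by gcongr
        _ = (|sl v a| + |sl v b|) * N := by ring
  · rw [lintegral_GP (m1.add m2)]
    simp only [Pi.add_apply]
    rw [lintegral_add_left m1]
    refine (add_le_add (mean_mixed hs hσ hw hvn hort hR) (mean_mixed' hs hσ hw hvn hort hR)).trans ?_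
    rw [← ENNReal.ofReal_add (by positivity) (by positivity)]
    exact ENNReal.ofReal_le_ofReal (le_of_eq (by ring))

theorem a1 : S_A1 := by
  intro n hn z δ hδ
  have hq := q_pos z
  have hn0 : (0:ℝ) < n := by exact_mod_cast hn
  set s : ℝ := √(q z ^ n) with hs
  have hs0 : 0 < s := Real.sqrt_pos.2 (by positivity)
  have hs2 : s ^ 2 = q z ^ n := Real.sq_sqrt (by positivity)
  set σ : ℝ := √(n * q z ^ (n - 1)) with hσ
  have hσ0 : 0 < σ := Real.sqrt_pos.2 (by positivity)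
  have hσ2 : σ ^ 2 = n * q z ^ (n - 1) := Real.sq_sqrt (by positivity)
  have h0 := sum_w0 n z
  rw [← hs2] at h0
  have hm := q_mul1 hn z
  have hq2 : 0 < q z ^ 2 := by positivity
  have hx : z.1 ^ 2 ≤ q z := by unfold q H709R2.sq; nlinarith [sq_nonneg z.2]
  have hy : z.2 ^ 2 ≤ q z := by unfold q H709R2.sq; nlinarith [sq_nonneg z.1]
  have hres : s ^ 2 * ∑ m, wx n z m ^ 2 - (∑ m, w0 n z m * wx n z m) ^ 2 ≤ σ ^ 2 * s ^ 2 := by
    refine le_of_mul_le_mul_left ?_ hq2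
    have e1 : q z ^ 2 * (s ^ 2 * ∑ m, wx n z m ^ 2 - (∑ m, w0 n z m * wx n z m) ^ 2) =
        (q z ^ n) ^ 2 * (n * (q z - z.1 ^ 2)) := by
      rw [hs2]
      linear_combination (q z ^ n) * qb hn z -
        (q z * ∑ m, w0 n z m * wx n z m + n * z.1 * q z ^ n) * qa hn z
    have e2 : q z ^ 2 * (σ ^ 2 * s ^ 2) = (q z ^ n) ^ 2 * (n * q z) := by
      rw [hs2, hσ2]
      linear_combination (n * q z * q z ^ n) * hm
    rw [e1, e2]
    gcongr
    linarith [sq_nonneg z.1]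
  have hres' : s ^ 2 * ∑ m, wy n z m ^ 2 - (∑ m, w0 n z m * wy n z m) ^ 2 ≤ σ ^ 2 * s ^ 2 := by
    refine le_of_mul_le_mul_left ?_ hq2
    have e1 : q z ^ 2 * (s ^ 2 * ∑ m, wy n z m ^ 2 - (∑ m, w0 n z m * wy n z m) ^ 2) =
        (q z ^ n) ^ 2 * (n * (q z - z.2 ^ 2)) := by
      rw [hs2]
      linear_combination (q z ^ n) * qb' hn z -
        (q z * ∑ m, w0 n z m * wy n z m + n * z.2 * q z ^ n) * qa' hn z
    have e2 : q z ^ 2 * (σ ^ 2 * s ^ 2) = (q z ^ n) ^ 2 * (n * q z) := by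
      rw [hs2, hσ2]
      linear_combination (n * q z * q z ^ n) * hm
    rw [e1, e2]
    gcongr
    linarith [sq_nonneg z.2]
  obtain ⟨G1, mG1, hG1, iG1⟩ := half hs0 hσ0 h0 hres (R := δ * s) (by positivity)
  obtain ⟨G2, mG2, hG2, iG2⟩ := half hs0 hσ0 h0 hres' (R := δ * s) (by positivity)
  have hpt : ∀ c : T n → ℝ × ℝ, {c : T n → ℝ × ℝ | H709R2.sq (F n c z) ≤ δ ^ 2 * q z ^ n}.indicator
      (fun c => hk (F n c) z) c ≤ G1 c + G2 c := by
    intro c
    by_cases hc : H709R2.sq (F n c z) ≤ δ ^ 2 * q z ^ n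
    · rw [indicator_of_mem (by exact hc)]
      have hc' : H709R2.sq (lin (w0 n z) c) ≤ (δ * s) ^ 2 := by
        rw [lin_w0, mul_pow, hs2]; exact hc
      unfold hk
      refine add_le_add ?_ ?_
      · have := hG1 c hc'
        rw [fderiv_F]
        simpa [lin_w0] using this
      · have := hG2 c hc'
        rw [fderiv_F]
        simpa [lin_w0] using this
    · rw [indicator_of_notMem (by exact hc)]
      exact zero_le
  refine (lintegral_mono hpt).trans ?_
  rw [lintegral_add_left mG1]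
  refine (add_le_add iG1 iG2).trans ?_
  rw [← ENNReal.ofReal_add (by positivity) (by positivity)]
  apply ENNReal.ofReal_le_ofReal
  have h1 : σ * √(q z) = √n * s := by
    rw [hσ, hs, ← Real.sqrt_mul (by positivity), ← Real.sqrt_mul (by positivity)]
    congr 1
    rw [← hm]; ring
  have hsq : 0 < √(q z) := Real.sqrt_pos.2 hq
  refine le_of_eq ?_
  rw [eq_div_iff hsq.ne']
  field_simp
  linear_combination 4 * δ * h1

theorem a2 : S_A2 := by
  intro n z δ hδ
  have hq := q_pos z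
  set s : ℝ := √(q z ^ n) with hs
  have hs0 : 0 < s := Real.sqrt_pos.2 (by positivity)
  have hs2 : s ^ 2 = q z ^ n := Real.sq_sqrt (by positivity)
  have h0 := sum_w0 n z
  rw [← hs2] at h0
  set A : Set (T n → ℝ) := {a | |sl (w0 n z) a| ≤ δ * s} with hA
  have hset : {c : T n → ℝ × ℝ | ‖F n c z‖ ≤ δ * s} =
      {c | (fun m => (c m).1) ∈ A ∧ (fun m => (c m).2) ∈ A} := by
    ext c
    rw [mem_ofPred_eq, mem_ofPred_eq, ← lin_w0, Prod.norm_def, Real.norm_eq_abs, Real.norm_eq_abs,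
      max_le_iff, lin_fst, lin_snd]
    rfl
  have hmeas : MeasurableSet {u : ℝ | |u| ≤ δ * s} := measurableSet_le (by fun_prop) (by fun_prop)
  have hAle : GQ (T n) A ≤ ENNReal.ofReal δ := by
    have h1 : GQ (T n) A = ((GQ (T n)).map (sl (w0 n z))) {u | |u| ≤ δ * s} := by
      rw [Measure.map_apply (continuous_sl _).measurable hmeas]
      rfl
    rw [h1, map_sl]
    refine (gaussian_small hs0 ?_ (by positivity)).trans ?_
    · rw [Real.coe_toNNReal _ (Finset.sum_nonneg fun _ _ => sq_nonneg _), h0]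
    · rw [mul_div_cancel_right₀ _ hs0.ne']
  rw [hset, split]
  refine (mul_le_mul' hAle hAle).trans ?_
  rw [← ENNReal.ofReal_mul hδ, pow_two]

end

end Pool.Agent.Helper63K9.KS
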