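import Pool.Agent.Helper63K9.KS.Leaves

/-! Leaf B: oscillation of the normalised Kostlan field. -/

open Real Set MeasureTheory Topology Filter ProbabilityTheory
open scoped ENNReal NNReal

namespace Pool.Agent.Helper63K9.KS

noncomputable section

open Pool.Agent.W960.HR

/-- Gaussian tail -/
lemma gaussian_ge {v : ℝ≥0} {s M : ℝ} (hs : 0 < s) (hv : (v : ℝ) = s ^ 2) (hM : 0 ≤ M) :
    (gaussianReal 0 v).real {x | M * s ≤ x} ≤ exp (-M ^ 2 / 2) := by
  have h := measure_ge_le_exp_mul_mgf (μ := gaussianReal 0 v) (X := id) (t := M / s) (M * s)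
    (by positivity) (integrable_exp_mul_gaussianReal _)
  rw [mgf_id_gaussianReal, ← exp_add] at h
  refine h.trans (exp_le_exp.2 (le_of_eq ?_))
  simp only [hv]
  field_simp
  ring

lemma gaussian_tail {v : ℝ≥0} {s M : ℝ} (hs : 0 ≤ s) (hv : (v : ℝ) = s ^ 2) (hM : 0 ≤ M) :
    gaussianReal 0 v {x | M * s < |x|} ≤ ENNReal.ofReal (2 * exp (-M ^ 2 / 2)) := by
  rcases hs.eq_or_lt with hs0 | hs
  · have hv0 : v = 0 := by
      have : (v : ℝ) = 0 := by rw [hv, ← hs0]; norm_num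
      exact_mod_cast this
    rw [hv0, gaussianReal_zero_var, ← hs0, mul_zero, Measure.dirac_apply' _
      (measurableSet_lt measurable_const (by fun_prop))]
    simp
  · have h1 : (gaussianReal 0 v).real {x | M * s < |x|} ≤ 2 * exp (-M ^ 2 / 2) := by
      have hsub : {x : ℝ | M * s < |x|} ⊆ {x | M * s ≤ x} ∪ {x | x ≤ -(M * s)} := by
        intro x hx
        rcases lt_abs.1 (show M * s < |x| from hx) with h | h
        · left; exact h.le
        · right; show x ≤ -(M * s); linarith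
      have hneg : (gaussianReal 0 v).real {x | x ≤ -(M * s)} =
          (gaussianReal 0 v).real {x | M * s ≤ x} := by
        have h2 : (gaussianReal 0 v).map (fun x => -x) = gaussianReal 0 v := by
          rw [gaussianReal_map_neg, neg_zero]
        have h3 : (gaussianReal 0 v).real {x | M * s ≤ x} =
            ((gaussianReal 0 v).map (fun x => -x)).real {x | M * s ≤ x} := by rw [h2]
        have hm : MeasurableSet {x : ℝ | M * s ≤ x} := measurableSet_Ici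
        rw [h3, map_measureReal_apply (by fun_prop) hm]
        congr 1
        ext x
        simp only [mem_ofPred_eq, mem_preimage]
        constructor <;> intro h <;> linarith
      have h4 := gaussian_ge hs hv hM
      calc (gaussianReal 0 v).real {x | M * s < |x|}
          ≤ (gaussianReal 0 v).real ({x | M * s ≤ x} ∪ {x | x ≤ -(M * s)}) :=
            measureReal_mono hsub
        _ ≤ _ := measureReal_union_le _ _
        _ ≤ _ := by rw [hneg]; linarith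
    rw [← ofReal_measureReal]
    exact ENNReal.ofReal_le_ofReal h1

variable {S : Finset (ℕ × ℕ)}

lemma GQ_tail (w : S → ℝ) {M : ℝ} (hM : 0 ≤ M) :
    GQ S {a | M * √(∑ m, w m ^ 2) < |sl w a|} ≤ ENNReal.ofReal (2 * exp (-M ^ 2 / 2)) := by
  have hs : MeasurableSet {x : ℝ | M * √(∑ m, w m ^ 2) < |x|} :=
    measurableSet_lt measurable_const (by fun_prop)
  have h0 : 0 ≤ ∑ m, w m ^ 2 := Finset.sum_nonneg fun _ _ => sq_nonneg _
  have h := gaussian_tail (v := (∑ m, w m ^ 2).toNNReal) (s := √(∑ m, w m ^ 2)) (M := M)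
    (sqrt_nonneg _) (by rw [Real.coe_toNNReal _ h0, Real.sq_sqrt h0]) hM
  rw [← map_sl w, Measure.map_apply (continuous_sl w).measurable hs] at h
  exact h

lemma GP_fst (A : Set (S → ℝ)) : GP S {c | (fun m => (c m).1) ∈ A} = GQ S A := by
  have h := measurePreserving_arrowProdEquivProdArrow ℝ ℝ S (fun _ => gaussianReal 0 1)
    (fun _ => gaussianReal 0 1)
  have h1 := h.measure_preimage_equiv (A ×ˢ univ)
  rw [Measure.prod_prod, measure_univ, mul_one] at h1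
  have h2 : {c : S → ℝ × ℝ | (fun m => (c m).1) ∈ A} =
      (MeasurableEquiv.arrowProdEquivProdArrow ℝ ℝ S) ⁻¹' (A ×ˢ univ) := by
    ext c
    constructor
    · intro h; exact ⟨h, trivial⟩
    · intro h; exact h.1
  rw [h2]
  exact h1

lemma GP_snd (A : Set (S → ℝ)) : GP S {c | (fun m => (c m).2) ∈ A} = GQ S A := by
  have h := measurePreserving_arrowProdEquivProdArrow ℝ ℝ S (fun _ => gaussianReal 0 1)
    (fun _ => gaussianReal 0 1)
  have h1 := h.measure_preimage_equiv (univ ×ˢ A)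
  rw [Measure.prod_prod, measure_univ, one_mul] at h1
  have h2 : {c : S → ℝ × ℝ | (fun m => (c m).2) ∈ A} =
      (MeasurableEquiv.arrowProdEquivProdArrow ℝ ℝ S) ⁻¹' (univ ×ˢ A) := by
    ext c
    constructor
    · intro h; exact ⟨trivial, h⟩
    · intro h; exact h.2
  rw [h2]
  exact h1

/-- tail of a vector valued linear form -/
lemma GP_tail (w : S → ℝ) {M : ℝ} (hM : 0 ≤ M) :
    GP S {c | M * √(∑ m, w m ^ 2) < ‖lin w c‖} ≤ ENNReal.ofReal (4 * exp (-M ^ 2 / 2)) := by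
  have hsub : {c | M * √(∑ m, w m ^ 2) < ‖lin w c‖} ⊆
      {c | (fun m => (c m).1) ∈ {a | M * √(∑ m, w m ^ 2) < |sl w a|}} ∪
      {c | (fun m => (c m).2) ∈ {a | M * √(∑ m, w m ^ 2) < |sl w a|}} := by
    intro c hc
    have hc' : M * √(∑ m, w m ^ 2) < ‖lin w c‖ := hc
    rw [Prod.norm_def, lt_max_iff, lin_fst, lin_snd] at hc'
    exact hc'
  refine (measure_mono hsub).trans ((measure_union_le _ _).trans ?_)
  rw [GP_fst, GP_snd]
  refine (add_le_add (GQ_tail w hM) (GQ_tail w hM)).trans (le_of_eq ?_)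
  rw [← ENNReal.ofReal_add (by positivity) (by positivity)]
  congr 1
  ring

lemma lin_sub_fun (a b : S → ℝ) (c : S → ℝ × ℝ) :
    lin (fun m => a m - b m) c = lin a c - lin b c := by
  unfold lin
  rw [← Finset.sum_sub_distrib]
  exact Finset.sum_congr rfl fun m _ => sub_smul _ _ _

/-- normalised weights -/
def ph (n : ℕ) (z : ℝ × ℝ) (m : T n) : ℝ := w0 n z m / √(q z ^ n)

lemma sqrt_q_pow_pos (n : ℕ) (z : ℝ × ℝ) : 0 < √(q z ^ n) := Real.sqrt_pos.2 (pow_pos (q_pos z) n)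

lemma lin_ph (n : ℕ) (z : ℝ × ℝ) (c : T n → ℝ × ℝ) :
    F n c z = √(q z ^ n) • lin (ph n z) c := by
  rw [← lin_w0]
  unfold lin ph
  rw [Finset.smul_sum]
  refine Finset.sum_congr rfl fun m _ => ?_
  rw [smul_smul, mul_div_cancel₀ _ (sqrt_q_pow_pos n z).ne']

/-- distance of the normalised weights -/
def dd (n : ℕ) (z p : ℝ × ℝ) : ℝ := √(∑ m, (ph n z m - ph n p m) ^ 2)

lemma dd_eq (n : ℕ) (z p : ℝ × ℝ) :
    dd n z p = dist (WithLp.toLp 2 (ph n z) : EuclideanSpace ℝ (T n)) (WithLp.toLp 2 (ph n p)) := by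
  rw [EuclideanSpace.dist_eq]
  unfold dd
  congr 1
  refine Finset.sum_congr rfl fun m _ => ?_
  rw [Real.dist_eq, sq_abs]

lemma dd_comm (n : ℕ) (z p : ℝ × ℝ) : dd n z p = dd n p z := by
  rw [dd_eq, dd_eq, dist_comm]

lemma dd_triangle4 (n : ℕ) (a b c d : ℝ × ℝ) : dd n a d ≤ dd n a b + dd n b c + dd n c d := by
  simp only [dd_eq]
  exact dist_triangle4 _ _ _ _

lemma sqrt_q_pow (n : ℕ) (z : ℝ × ℝ) : √(q z ^ n) = √(q z) ^ n := by
  rw [Real.sqrt_eq_iff_eq_sq (pow_pos (q_pos z) n).le (by positivity), ← pow_mul, mul_comm,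
    pow_mul, Real.sq_sqrt (q_pos z).le]

lemma sum_ph_sq (n : ℕ) (z : ℝ × ℝ) : ∑ m, ph n z m ^ 2 = 1 := by
  unfold ph
  simp only [div_pow]
  rw [← Finset.sum_div, sum_w0, Real.sq_sqrt (pow_pos (q_pos z) n).le,
    div_self (pow_pos (q_pos z) n).ne']

lemma sum_ph_mul (n : ℕ) (z p : ℝ × ℝ) :
    ∑ m, ph n z m * ph n p m = ((1 + z.1 * p.1 + z.2 * p.2) / (√(q z) * √(q p))) ^ n := by
  unfold ph
  rw [div_pow, ← cov, mul_pow, ← sqrt_q_pow, ← sqrt_q_pow, Finset.sum_div]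
  exact Finset.sum_congr rfl fun m _ => by rw [div_mul_div_comm]

lemma dd_sq (n : ℕ) (z p : ℝ × ℝ) :
    dd n z p ^ 2 = 2 - 2 * ((1 + z.1 * p.1 + z.2 * p.2) / (√(q z) * √(q p))) ^ n := by
  unfold dd
  rw [Real.sq_sqrt (Finset.sum_nonneg fun _ _ => sq_nonneg _)]
  have h : ∀ m : T n, (ph n z m - ph n p m) ^ 2 =
      ph n z m ^ 2 + ph n p m ^ 2 - 2 * (ph n z m * ph n p m) := fun m => by ring
  simp only [h]
  rw [Finset.sum_sub_distrib, Finset.sum_add_distrib, sum_ph_sq, sum_ph_sq, ← Finset.mul_sum,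
    sum_ph_mul]
  norm_num

lemma one_sub_pow_le {x : ℝ} (h0 : 0 ≤ x) (h1 : x ≤ 1) (n : ℕ) : 1 - x ^ n ≤ n * (1 - x ^ 2) := by
  have h := one_add_mul_le_pow (a := x - 1) (by linarith) n
  have e : 1 + (x - 1) = x := by ring
  rw [e] at h
  have hn : (0:ℝ) ≤ n := Nat.cast_nonneg n
  nlinarith [mul_nonneg hn (mul_nonneg h0 (sub_nonneg.2 h1))]

lemma dd_le {n : ℕ} (hn : 1 ≤ n) (z p : ℝ × ℝ) :
    dd n z p ≤ 2 * √n * √(H709R2.sq (z - p)) / √(q z) := by
  have hn1 : (1:ℝ) ≤ n := by exact_mod_cast hn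
  have hz := q_pos z
  have hp := q_pos p
  have hs0 : 0 ≤ H709R2.sq (z - p) := by unfold H709R2.sq; positivity
  have hrhs : 0 ≤ 2 * √n * √(H709R2.sq (z - p)) / √(q z) := by positivity
  refine abs_le_of_sq_le_sq' ?_ hrhs |>.2
  have hR : (2 * √n * √(H709R2.sq (z - p)) / √(q z)) ^ 2 =
      2 ^ 2 * (n:ℝ) * H709R2.sq (z - p) / q z := by
    rw [div_pow, mul_pow, mul_pow, Real.sq_sqrt (by positivity), Real.sq_sqrt hs0,
      Real.sq_sqrt hz.le]
  rw [dd_sq, hR]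
  set u : ℝ := 1 + z.1 * p.1 + z.2 * p.2 with hu
  set x : ℝ := u / (√(q z) * √(q p)) with hx
  have hx2 : x ^ 2 = u ^ 2 / (q z * q p) := by
    rw [hx, div_pow, mul_pow, Real.sq_sqrt hz.le, Real.sq_sqrt hp.le]
  have hid : q z * q p - u ^ 2 ≤ H709R2.sq (z - p) * q p := by
    have : H709R2.sq (z - p) * q p - (q z * q p - u ^ 2) =
        ((z.1 - p.1) * p.1 + (z.2 - p.2) * p.2) ^ 2 := by
      rw [hu]
      unfold q H709R2.sq
      simp only [Prod.fst_sub, Prod.snd_sub]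
      ring
    nlinarith [sq_nonneg ((z.1 - p.1) * p.1 + (z.2 - p.2) * p.2)]
  have hx1 : 1 - x ^ 2 ≤ H709R2.sq (z - p) / q z := by
    rw [hx2, le_div_iff₀ hz, one_sub_div (by positivity), div_mul_eq_mul_div,
      div_le_iff₀ (by positivity)]
    nlinarith
  have hx3 : x ^ 2 ≤ 1 := by
    rw [hx2, div_le_one (by positivity)]
    have : q z * q p - u ^ 2 = (z.1 - p.1) ^ 2 + (z.2 - p.2) ^ 2 + (z.1 * p.2 - z.2 * p.1) ^ 2 := by
      rw [hu]
      unfold q H709R2.sq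
      ring
    nlinarith [sq_nonneg (z.1 - p.1), sq_nonneg (z.2 - p.2), sq_nonneg (z.1 * p.2 - z.2 * p.1)]
  have hxabs : |x| ≤ 1 := (sq_le_one_iff_abs_le_one x).1 hx3
  rcases le_or_gt 0 u with hu0 | hu0
  · have h0 : 0 ≤ x := by rw [hx]; positivity
    have h1 : x ≤ 1 := (le_abs_self x).trans hxabs
    have h2 := one_sub_pow_le h0 h1 n
    have h3 : (n:ℝ) * (1 - x ^ 2) ≤ n * (H709R2.sq (z - p) / q z) :=
      mul_le_mul_of_nonneg_left hx1 (by positivity)
    have h4 : 2 ^ 2 * (n:ℝ) * H709R2.sq (z - p) / q z = 4 * (n * (H709R2.sq (z - p) / q z)) := by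
      ring
    rw [h4]
    have h5 : 0 ≤ (n:ℝ) * (H709R2.sq (z - p) / q z) := by positivity
    linarith
  · have h1 : -1 ≤ x ^ n := by
      have h6 : |x ^ n| ≤ 1 := by rw [abs_pow]; exact pow_le_one₀ (abs_nonneg x) hxabs
      exact (abs_le.1 h6).1
    have h2 : 1 ≤ H709R2.sq (z - p) / q z := by
      rw [le_div_iff₀ hz, one_mul]
      unfold q H709R2.sq
      simp only [Prod.fst_sub, Prod.snd_sub]
      rw [hu] at hu0
      nlinarith [sq_nonneg p.1, sq_nonneg p.2]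
    have h4 : 2 ^ 2 * (n:ℝ) * H709R2.sq (z - p) / q z = 4 * (n * (H709R2.sq (z - p) / q z)) := by
      ring
    rw [h4]
    have h5 : 1 ≤ (n:ℝ) * (H709R2.sq (z - p) / q z) := by
      calc (1:ℝ) = 1 * 1 := by ring
        _ ≤ _ := mul_le_mul hn1 h2 zero_le_one (by positivity)
    linarith

/-- close points -/
lemma dd_le_of_close {n : ℕ} (hn : 1 ≤ n) {z p : ℝ × ℝ} {ε : ℝ} (hε : 0 ≤ ε)
    (h1 : |z.1 - p.1| ≤ ε) (h2 : |z.2 - p.2| ≤ ε) : dd n z p ≤ 3 * √n * ε := by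
  refine (dd_le hn z p).trans ?_
  have hs : √(H709R2.sq (z - p)) ≤ 3 / 2 * ε := by
    refine Real.sqrt_le_iff.2 ⟨by positivity, ?_⟩
    unfold H709R2.sq
    simp only [Prod.fst_sub, Prod.snd_sub]
    have h3 : (z.1 - p.1) ^ 2 ≤ ε ^ 2 := sq_le_sq' (by linarith [(abs_le.1 h1).1]) (abs_le.1 h1).2
    have h4 : (z.2 - p.2) ^ 2 ≤ ε ^ 2 := sq_le_sq' (by linarith [(abs_le.1 h2).1]) (abs_le.1 h2).2
    nlinarith
  have hq : 1 ≤ √(q z) := by rw [Real.one_le_sqrt]; exact one_le_q z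
  calc 2 * √n * √(H709R2.sq (z - p)) / √(q z) ≤ 2 * √n * √(H709R2.sq (z - p)) :=
        div_le_self (by positivity) hq
    _ ≤ 2 * √n * (3 / 2 * ε) := mul_le_mul_of_nonneg_left hs (by positivity)
    _ = 3 * √n * ε := by ring

/-- the weights of the difference -/
def dw (n : ℕ) (z p : ℝ × ℝ) (m : T n) : ℝ := ph n z m - ph n p m

lemma norm_dw_le {n : ℕ} {A : ℝ} (hA : 0 ≤ A) {c : T n → ℝ × ℝ} (hc : sn c ≤ A ^ 2)
    (z p : ℝ × ℝ) : ‖lin (ph n z) c - lin (ph n p) c‖ ≤ dd n z p * A := by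
  rw [← lin_sub_fun]
  refine norm_lin_le' (Real.sqrt_nonneg _) ?_ hA hc
  rw [dd, Real.sq_sqrt (Finset.sum_nonneg fun _ _ => sq_nonneg _)]

/-- deterministic part -/
lemma osc_of_net {n : ℕ} (hn : 1 ≤ n) {A B M η ε : ℝ} (hA : 1 ≤ A) (hM : 0 ≤ M)
    (hε : 0 ≤ ε) (hη : 6 * √n * (A + M) * ε ≤ η) {c : T n → ℝ × ℝ} (hc : sn c ≤ A ^ 2)
    {N : Set (ℝ × ℝ)} (hN : ∀ z : ℝ × ℝ, ‖z‖ ≤ B → ∃ z' ∈ N, |z.1 - z'.1| ≤ ε ∧ |z.2 - z'.2| ≤ ε)
    (hg : ∀ z ∈ N, ∀ p ∈ N, ‖lin (dw n z p) c‖ ≤ M * √(∑ m, dw n z p m ^ 2)) :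
    Osc n B (2 * M) η c := by
  intro z p hz hp hFp
  obtain ⟨z', hz', hz1, hz2⟩ := hN z hz
  obtain ⟨p', hp', hp1, hp2⟩ := hN p hp
  have h1 := dd_le_of_close hn hε hz1 hz2
  have h2 := dd_le_of_close hn hε hp1 hp2
  have h3 := dd_le hn z p
  have h4 := norm_dw_le (by linarith) hc z z'
  have h5 := norm_dw_le (by linarith) hc p p'
  have h6 : ‖lin (ph n z') c - lin (ph n p') c‖ ≤ M * dd n z' p' := by
    rw [← lin_sub_fun]
    exact hg z' hz' p' hp'
  have h7 := dd_triangle4 n z' z p p'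
  rw [dd_comm n z' z] at h7
  have hp0 : lin (ph n p) c = 0 := by
    have h := lin_ph n p c
    rw [hFp] at h
    exact (smul_eq_zero.1 h.symm).resolve_left (sqrt_q_pow_pos n p).ne'
  rw [lin_ph, norm_smul, Real.norm_of_nonneg (Real.sqrt_nonneg _), mul_comm]
  refine mul_le_mul_of_nonneg_right ?_ (Real.sqrt_nonneg _)
  have h8 : ‖lin (ph n z) c‖ ≤ ‖lin (ph n z) c - lin (ph n z') c‖ +
      ‖lin (ph n z') c - lin (ph n p') c‖ + ‖lin (ph n p) c - lin (ph n p') c‖ := by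
    have e : lin (ph n z) c = (lin (ph n z) c - lin (ph n z') c) +
        (lin (ph n z') c - lin (ph n p') c) - (lin (ph n p) c - lin (ph n p') c) := by
      rw [hp0]; abel
    calc ‖lin (ph n z) c‖ = ‖(lin (ph n z) c - lin (ph n z') c) +
        (lin (ph n z') c - lin (ph n p') c) - (lin (ph n p) c - lin (ph n p') c)‖ := by rw [← e]
      _ ≤ _ := (norm_sub_le _ _).trans (add_le_add (norm_add_le _ _) le_rfl)
  have hsn : 0 ≤ √(n:ℝ) := Real.sqrt_nonneg _
  have h9 : M * dd n z' p' ≤ M * (3 * √n * ε + 2 * √n * √(H709R2.sq (z - p)) / √(q z) +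
      3 * √n * ε) := mul_le_mul_of_nonneg_left (by linarith) hM
  have h10 : dd n z z' * A ≤ 3 * √n * ε * A := mul_le_mul_of_nonneg_right h1 (by linarith)
  have h11 : dd n p p' * A ≤ 3 * √n * ε * A := mul_le_mul_of_nonneg_right h2 (by linarith)
  have h12 : M * (3 * √n * ε + 2 * √n * √(H709R2.sq (z - p)) / √(q z) + 3 * √n * ε) =
      2 * M * √n * √(H709R2.sq (z - p)) / √(q z) + 6 * √n * M * ε := by ring
  have h13 : 3 * √n * ε * A + 3 * √n * ε * A + 6 * √n * M * ε = 6 * √n * (A + M) * ε := by ring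
  linarith

/-- Leaf B -/
theorem b : S_B := by
  intro n hn A B M η hA hB hM hη hη1
  have hn1 : (1:ℝ) ≤ n := by exact_mod_cast hn
  set X : ℝ := n * (A + M) * B / η with hX
  have hX1 : 1 ≤ X := by
    rw [hX, le_div_iff₀ hη, one_mul]
    have h1 : (1:ℝ) ≤ n * (A + M) := by nlinarith
    nlinarith
  set K : ℕ := ⌈6 * X⌉₊ with hK
  have hK1 : 6 * X ≤ K := Nat.le_ceil _
  have hK2 : (K:ℝ) < 6 * X + 1 := Nat.ceil_lt_add_one (by positivity)
  have hK0 : 0 < K := by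
    have : (0:ℝ) < K := by linarith
    exact_mod_cast this
  have hKr : (0:ℝ) < K := by exact_mod_cast hK0
  set ε : ℝ := B / K with hε
  have hε0 : 0 ≤ ε := by positivity
  let pt : ℤ × ℤ → ℝ × ℝ := fun i => (B * (i.1 / K), B * (i.2 / K))
  let G : Finset (ℤ × ℤ) := Finset.Icc (-(K:ℤ)) K ×ˢ Finset.Icc (-(K:ℤ)) K
  have hsub : {c | sn c ≤ A ^ 2 ∧ ¬ Osc n B (2 * M) η c} ⊆
      ⋃ i ∈ G ×ˢ G, {c | M * √(∑ m, dw n (pt i.1) (pt i.2) m ^ 2) <
        ‖lin (dw n (pt i.1) (pt i.2)) c‖} := by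
    rintro c ⟨hc1, hc2⟩
    by_contra hcon
    refine hc2 (osc_of_net hn hA hM hε0 ?_ hc1 (N := pt '' (G : Set (ℤ × ℤ))) ?_ ?_)
    · have h1 : √(n:ℝ) ≤ n := by
        rw [Real.sqrt_le_left (by positivity)]
        nlinarith
      have h2 : 6 * √n * (A + M) * ε ≤ 6 * n * (A + M) * ε := by
        have : 0 ≤ (A + M) * ε := by positivity
        nlinarith
      refine h2.trans ?_
      rw [hε]
      have h3 : 6 * n * (A + M) * (B / K) = 6 * (n * (A + M) * B) / K := by ring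
      rw [h3, div_le_iff₀ hKr]
      have h4 : n * (A + M) * B = X * η := by rw [hX]; field_simp
      rw [h4]
      nlinarith
    · intro z hz
      have hB0 : (0:ℝ) < B := by linarith
      have hz1 : |z.1 / B| ≤ 1 := by
        rw [abs_div, abs_of_pos hB0, div_le_one hB0]
        exact (norm_fst_le z).trans hz
      have hz2 : |z.2 / B| ≤ 1 := by
        rw [abs_div, abs_of_pos hB0, div_le_one hB0]
        exact (norm_snd_le z).trans hz
      obtain ⟨i, hi, hi1, -⟩ := grid hK0 hz1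
      obtain ⟨j, hj, hj1, -⟩ := grid hK0 hz2
      refine ⟨pt (i, j), ⟨(i, j), ?_, rfl⟩, ?_, ?_⟩
      · exact Finset.mem_coe.2 (Finset.mem_product.2 ⟨hi, hj⟩)
      · have e : z.1 - (pt (i, j)).1 = -(B * ((i:ℝ) / K - z.1 / B)) := by
          simp only [pt]
          field_simp
          ring
        rw [e, abs_neg, abs_mul, abs_of_pos hB0, hε]
        calc B * |(i:ℝ) / K - z.1 / B| ≤ B * (1 / K) := mul_le_mul_of_nonneg_left hi1 hB0.le
          _ = B / K := by ring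
      · have e : z.2 - (pt (i, j)).2 = -(B * ((j:ℝ) / K - z.2 / B)) := by
          simp only [pt]
          field_simp
          ring
        rw [e, abs_neg, abs_mul, abs_of_pos hB0, hε]
        calc B * |(j:ℝ) / K - z.2 / B| ≤ B * (1 / K) := mul_le_mul_of_nonneg_left hj1 hB0.le
          _ = B / K := by ring
    · rintro _ ⟨i, hi, rfl⟩ _ ⟨j, hj, rfl⟩
      by_contra hlt
      push Not at hlt
      refine hcon (mem_iUnion₂.2 ⟨(i, j), ?_, hlt⟩)
      exact Finset.mem_product.2 ⟨Finset.mem_coe.1 hi, Finset.mem_coe.1 hj⟩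
  refine (measure_mono hsub).trans ((measure_biUnion_finset_le _ _).trans ?_)
  have hcard : ((G ×ˢ G).card : ℝ) = (2 * K + 1) ^ 4 := by
    simp only [G, Finset.card_product]
    push_cast
    rw [card_grid]
    ring
  calc ∑ i ∈ G ×ˢ G, GP (T n) {c | M * √(∑ m, dw n (pt i.1) (pt i.2) m ^ 2) <
        ‖lin (dw n (pt i.1) (pt i.2)) c‖}
      ≤ ∑ i ∈ G ×ˢ G, ENNReal.ofReal (4 * exp (-M ^ 2 / 2)) :=
        Finset.sum_le_sum fun i _ => GP_tail _ hM
    _ = ENNReal.ofReal ((2 * K + 1) ^ 4 * (4 * exp (-M ^ 2 / 2))) := by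
        rw [Finset.sum_const, nsmul_eq_mul, ← hcard, ENNReal.ofReal_mul (Nat.cast_nonneg _),
          ENNReal.ofReal_natCast]
    _ ≤ _ := by
        refine ENNReal.ofReal_le_ofReal ?_
        have h1 : (2 * (K:ℝ) + 1) ^ 4 ≤ (30 * X) ^ 4 :=
          pow_le_pow_left₀ (by positivity) (by linarith) 4
        have h2 : 0 ≤ 4 * exp (-M ^ 2 / 2) := by positivity
        calc (2 * (K:ℝ) + 1) ^ 4 * (4 * exp (-M ^ 2 / 2))
            ≤ (30 * X) ^ 4 * (4 * exp (-M ^ 2 / 2)) := mul_le_mul_of_nonneg_right h1 h2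
          _ = _ := by rw [hX]; ring

end

end Pool.Agent.Helper63K9.KS
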