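import Pool.Agent.Helper63K9.KS.Leaves

/-! Leaf C: the Kostlan field is nondegenerate at its zeros. -/

open Real Set MeasureTheory Topology Filter ProbabilityTheory
open scoped ENNReal

namespace Pool.Agent.Helper63K9.KS

noncomputable section

open Pool.Agent.W960.HR

namespace LC

variable {n : ℕ}

/-- size of the field -/
def Q (n : ℕ) (z : ℝ × ℝ) : ℝ := √(q z ^ n)

lemma Q_pos (n : ℕ) (z : ℝ × ℝ) : 0 < Q n z := Real.sqrt_pos.2 (pow_pos (q_pos z) n)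

lemma Q_sq (n : ℕ) (z : ℝ × ℝ) : Q n z ^ 2 = q z ^ n := Real.sq_sqrt (pow_pos (q_pos z) n).le

lemma q_le {z z' : ℝ × ℝ} {s : ℝ} (h : ‖z - z'‖ ≤ s) (hs : s ≤ 1 / 4) :
    q z ≤ q z' * (1 + 2 * s) := by
  have hs0 : 0 ≤ s := (norm_nonneg _).trans h
  have h1 : |z.1 - z'.1| ≤ s := (abs_fst_le (z - z')).trans h
  have h2 : |z.2 - z'.2| ≤ s := (abs_snd_le (z - z')).trans h
  obtain ⟨a, ha⟩ : ∃ a, a = z.1 - z'.1 := ⟨_, rfl⟩
  obtain ⟨b, hb⟩ : ∃ b, b = z.2 - z'.2 := ⟨_, rfl⟩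
  rw [← ha] at h1
  rw [← hb] at h2
  have e1 : z.1 = z'.1 + a := by rw [ha]; ring
  have e2 : z.2 = z'.2 + b := by rw [hb]; ring
  unfold q H709R2.sq
  rw [e1, e2]
  have key : ∀ x y : ℝ, |y| ≤ s → 2 * x * y ≤ s * (3 / 2 * x ^ 2 + 2 / 3) := by
    intro x y hy
    have i1 : 2 * x * y ≤ 2 * |x| * |y| := by
      have := le_abs_self (2 * x * y)
      rw [abs_mul, abs_mul, abs_two] at this
      exact this
    have i2 : 2 * |x| * |y| ≤ 2 * |x| * s := mul_le_mul_of_nonneg_left hy (by positivity)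
    have i3 : 2 * |x| ≤ 3 / 2 * x ^ 2 + 2 / 3 := by
      rw [← sq_abs x]
      nlinarith [sq_nonneg (3 * |x| - 2)]
    have i4 : 2 * |x| * s ≤ (3 / 2 * x ^ 2 + 2 / 3) * s := mul_le_mul_of_nonneg_right i3 hs0
    linarith
  have k1 := key z'.1 a h1
  have k2 := key z'.2 b h2
  have k3 : a ^ 2 ≤ s ^ 2 := sq_le_sq' (by linarith [neg_abs_le a]) ((le_abs_self a).trans h1)
  have k4 : b ^ 2 ≤ s ^ 2 := sq_le_sq' (by linarith [neg_abs_le b]) ((le_abs_self b).trans h2)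
  have k5 : s ^ 2 ≤ s * (1 / 4) := by nlinarith
  nlinarith [mul_nonneg hs0 (sq_nonneg z'.1), mul_nonneg hs0 (sq_nonneg z'.2)]

lemma Q_le (hn : 1 ≤ n) {z z' : ℝ × ℝ} (h : ‖z - z'‖ ≤ 1 / (4 * n)) :
    Q n z ≤ 3 / 2 * Q n z' := by
  have hn1 : (1:ℝ) ≤ n := by exact_mod_cast hn
  have hn0 : (0:ℝ) < n := by linarith
  set s : ℝ := 1 / (4 * n) with hs
  have hs4 : s ≤ 1 / 4 := by
    rw [hs]
    apply one_div_le_one_div_of_le (by norm_num)
    linarith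
  have hs0 : 0 ≤ s := by positivity
  have h1 := q_le h hs4
  have h2 : q z ^ n ≤ q z' ^ n * (9 / 4) := by
    calc q z ^ n ≤ (q z' * (1 + 2 * s)) ^ n := pow_le_pow_left₀ (q_pos z).le h1 n
      _ = q z' ^ n * (1 + 2 * s) ^ n := mul_pow _ _ _
      _ ≤ q z' ^ n * (9 / 4) := by
        refine mul_le_mul_of_nonneg_left ?_ (pow_pos (q_pos z') n).le
        have h3 : 1 + 2 * s ≤ rexp (2 * s) := by linarith [Real.add_one_le_exp (2 * s)]
        have h4 : (1 + 2 * s) ^ n ≤ rexp (2 * s) ^ n := pow_le_pow_left₀ (by linarith) h3 n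
        have h5 : rexp (2 * s) ^ n = rexp (1 / 2) := by
          rw [← Real.exp_nat_mul]
          congr 1
          rw [hs]
          field_simp
          norm_num
        have h6 : rexp (1 / 2) ≤ 9 / 4 := by
          have h7 : rexp (1 / 2) ^ 2 = rexp 1 := by
            rw [← Real.exp_nat_mul]; norm_num
          have h8 := Real.exp_one_lt_d9
          nlinarith [Real.exp_pos (1 / 2)]
        rw [h5] at h4
        exact h4.trans h6
  apply Real.sqrt_le_iff.2 |> fun h => h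
  refine ⟨by have := Q_pos n z'; positivity, ?_⟩
  rw [mul_pow, Q_sq]
  linarith

lemma swx (hn : 1 ≤ n) (z : ℝ × ℝ) : ∑ m, wx n z m ^ 2 ≤ (n * Q n z) ^ 2 := by
  have hn1 : (1:ℝ) ≤ n := by exact_mod_cast hn
  have h1 := qb hn z
  have h2 := one_le_q z
  have h3 : z.1 ^ 2 ≤ q z := by unfold q H709R2.sq; nlinarith [sq_nonneg z.2]
  have h4 : 0 < q z ^ n := pow_pos (q_pos z) n
  rw [mul_pow, Q_sq]
  have h5 : q z ^ 2 * ∑ m, wx n z m ^ 2 ≤ q z ^ 2 * (n ^ 2 * q z ^ n) := by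
    rw [h1]
    have h6 : (n:ℝ) * (n - 1) * z.1 ^ 2 * q z ^ n ≤ n * (n - 1) * q z * q z ^ n := by
      have : 0 ≤ (n:ℝ) * (n - 1) := by nlinarith
      gcongr
    have h7 : (n:ℝ) ^ 2 * (q z * q z ^ n) ≤ (n:ℝ) ^ 2 * (q z ^ 2 * q z ^ n) := by
      have : q z ≤ q z ^ 2 := by nlinarith
      gcongr
    nlinarith
  exact le_of_mul_le_mul_left h5 (by positivity)

lemma swy (hn : 1 ≤ n) (z : ℝ × ℝ) : ∑ m, wy n z m ^ 2 ≤ (n * Q n z) ^ 2 := by
  have hn1 : (1:ℝ) ≤ n := by exact_mod_cast hn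
  have h1 := qb' hn z
  have h2 := one_le_q z
  have h3 : z.2 ^ 2 ≤ q z := by unfold q H709R2.sq; nlinarith [sq_nonneg z.1]
  have h4 : 0 < q z ^ n := pow_pos (q_pos z) n
  rw [mul_pow, Q_sq]
  have h5 : q z ^ 2 * ∑ m, wy n z m ^ 2 ≤ q z ^ 2 * (n ^ 2 * q z ^ n) := by
    rw [h1]
    have h6 : (n:ℝ) * (n - 1) * z.2 ^ 2 * q z ^ n ≤ n * (n - 1) * q z * q z ^ n := by
      have : 0 ≤ (n:ℝ) * (n - 1) := by nlinarith
      gcongr
    have h7 : (n:ℝ) ^ 2 * (q z * q z ^ n) ≤ (n:ℝ) ^ 2 * (q z ^ 2 * q z ^ n) := by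
      have : q z ≤ q z ^ 2 := by nlinarith
      gcongr
    nlinarith
  exact le_of_mul_le_mul_left h5 (by positivity)

/-- sums of squares of the weights of second derivatives -/
lemma s2 (hn : 1 ≤ n) (z : ℝ × ℝ) (g : T n → ℝ) (f : ℕ → ℕ → ℝ)
    (h1 : ∀ m : T n, g m ^ 2 ≤ n ^ 2 * (mc n m.1 * f m.1.1 m.1.2))
    (h2 : ∑ m ∈ T n, mc n m * f m.1 m.2 = n * (((n - 1 : ℕ) : ℝ) * q z ^ (n - 1 - 1))) :
    ∑ m, g m ^ 2 ≤ (n ^ 2 * Q n z) ^ 2 := by
  have hn1 : (1:ℝ) ≤ n := by exact_mod_cast hn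
  have e : ∑ m : T n, mc n m.1 * f m.1.1 m.1.2 = ∑ m ∈ T n, mc n m * f m.1 m.2 :=
    Finset.sum_coe_sort (T n) fun m => mc n m * f m.1 m.2
  have h3 : ∑ m, g m ^ 2 ≤ n ^ 2 * ∑ m : T n, mc n m.1 * f m.1.1 m.1.2 := by
    rw [Finset.mul_sum]
    exact Finset.sum_le_sum fun m _ => h1 m
  rw [e, h2] at h3
  refine h3.trans ?_
  rw [mul_pow, Q_sq]
  have h4 : ((n - 1 : ℕ) : ℝ) ≤ n := by exact_mod_cast Nat.sub_le n 1
  have h5 : q z ^ (n - 1 - 1) ≤ q z ^ n := pow_le_pow_right₀ (one_le_q z) (by omega)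
  have h6 : 0 < q z ^ n := pow_pos (q_pos z) n
  calc (n:ℝ) ^ 2 * (n * (((n - 1 : ℕ) : ℝ) * q z ^ (n - 1 - 1)))
      ≤ (n:ℝ) ^ 2 * (n * (n * q z ^ n)) := by
        gcongr
        exact pow_nonneg (q_pos z).le _
    _ = ((n:ℝ) ^ 2) ^ 2 * q z ^ n := by ring

lemma ka_mul_sq (m : T n) (k x y : ℝ) (hk : 0 ≤ k) (hkn : k ≤ n ^ 2) (hx : 0 ≤ x) {g : ℝ}
    (hg : g ^ 2 = mc n m.1 * (k ^ 2 * x)) (hy : y = k * x) : g ^ 2 ≤ n ^ 2 * (mc n m.1 * y) := by
  rw [hg, hy]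
  have h1 := mc_nonneg n m.1
  have h2 : k ^ 2 * x ≤ n ^ 2 * (k * x) := by
    have : k * (k * x) ≤ n ^ 2 * (k * x) := mul_le_mul_of_nonneg_right hkn (by positivity)
    calc k ^ 2 * x = k * (k * x) := by ring
      _ ≤ _ := this
  calc mc n m.1 * (k ^ 2 * x) ≤ mc n m.1 * (n ^ 2 * (k * x)) := mul_le_mul_of_nonneg_left h2 h1
    _ = _ := by ring

lemma nat_le (m : T n) : ((m.1.1 : ℕ) : ℝ) ≤ n ∧ ((m.1.2 : ℕ) : ℝ) ≤ n := by
  have h := mem_T.1 m.2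
  constructor
  · exact_mod_cast (by omega : m.1.1 ≤ n)
  · exact_mod_cast (by omega : m.1.2 ≤ n)

/-- exponents and weights of the first derivatives -/
abbrev ax (n : ℕ) : T n → ℝ := fun m => ka n m * (e0 m).1
abbrev ex (n : ℕ) : T n → ℕ × ℕ := fun m => ((e0 m).1 - 1, (e0 m).2)
abbrev ay (n : ℕ) : T n → ℝ := fun m => ka n m * (e0 m).2
abbrev ey (n : ℕ) : T n → ℕ × ℕ := fun m => ((e0 m).1, (e0 m).2 - 1)

variable {A : ℝ}

lemma bxx (hn : 1 ≤ n) (hA : 0 ≤ A) {c : T n → ℝ × ℝ} (hc : sn c ≤ A ^ 2) (z : ℝ × ℝ) :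
    ‖Gx (ax n) (ex n) c z‖ ≤ n ^ 2 * Q n z * A := by
  have hQ := (Q_pos n z).le
  refine norm_lin_le' (w := wt (fun m => ax n m * (ex n m).1)
    (fun m => ((ex n m).1 - 1, (ex n m).2)) z) (by positivity) ?_ hA hc
  refine s2 hn z _ (fun i j => (i * (((i - 1 : ℕ) : ℝ) * (z.1 ^ 2) ^ (i - 1 - 1))) * (z.2 ^ 2) ^ j) ?_ ?_
  · intro m
    obtain ⟨h1, h2⟩ := nat_le m
    have h3 : ((m.1.1 - 1 : ℕ) : ℝ) ≤ n := le_trans (by exact_mod_cast Nat.sub_le _ _) h1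
    refine ka_mul_sq m (m.1.1 * ((m.1.1 - 1 : ℕ) : ℝ))
      ((z.1 ^ 2) ^ (m.1.1 - 1 - 1) * (z.2 ^ 2) ^ m.1.2) _ (by positivity) ?_ (by positivity) ?_
      (by ring)
    · rw [pow_two]
      gcongr
    · unfold wt ax ex e0
      simp only
      rw [mul_pow, mul_pow, mul_pow, mul_pow, ka_sq, ← pow_mul, ← pow_mul, ← pow_mul, ← pow_mul]
      ring
  · rw [← q_eq]
    exact I2 n (z.1 ^ 2) (z.2 ^ 2)

lemma bxy (hn : 1 ≤ n) (hA : 0 ≤ A) {c : T n → ℝ × ℝ} (hc : sn c ≤ A ^ 2) (z : ℝ × ℝ) :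
    ‖Gy (ax n) (ex n) c z‖ ≤ n ^ 2 * Q n z * A := by
  have hQ := (Q_pos n z).le
  refine norm_lin_le' (w := wt (fun m => ax n m * (ex n m).2)
    (fun m => ((ex n m).1, (ex n m).2 - 1)) z) (by positivity) ?_ hA hc
  refine s2 hn z _ (fun i j => (i * (z.1 ^ 2) ^ (i - 1)) * (j * (z.2 ^ 2) ^ (j - 1))) ?_ ?_
  · intro m
    obtain ⟨h1, h2⟩ := nat_le m
    refine ka_mul_sq m (m.1.1 * m.1.2)
      ((z.1 ^ 2) ^ (m.1.1 - 1) * (z.2 ^ 2) ^ (m.1.2 - 1)) _ (by positivity) ?_ (by positivity) ?_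
      (by ring)
    · rw [pow_two]
      gcongr
    · unfold wt ax ex e0
      simp only
      rw [mul_pow, mul_pow, mul_pow, mul_pow, ka_sq, ← pow_mul, ← pow_mul, ← pow_mul, ← pow_mul]
      ring
  · rw [← q_eq]
    exact I11 n (z.1 ^ 2) (z.2 ^ 2)

lemma byx (hn : 1 ≤ n) (hA : 0 ≤ A) {c : T n → ℝ × ℝ} (hc : sn c ≤ A ^ 2) (z : ℝ × ℝ) :
    ‖Gx (ay n) (ey n) c z‖ ≤ n ^ 2 * Q n z * A := by
  have hQ := (Q_pos n z).le
  refine norm_lin_le' (w := wt (fun m => ay n m * (ey n m).1)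
    (fun m => ((ey n m).1 - 1, (ey n m).2)) z) (by positivity) ?_ hA hc
  refine s2 hn z _ (fun i j => (i * (z.1 ^ 2) ^ (i - 1)) * (j * (z.2 ^ 2) ^ (j - 1))) ?_ ?_
  · intro m
    obtain ⟨h1, h2⟩ := nat_le m
    refine ka_mul_sq m (m.1.1 * m.1.2)
      ((z.1 ^ 2) ^ (m.1.1 - 1) * (z.2 ^ 2) ^ (m.1.2 - 1)) _ (by positivity) ?_ (by positivity) ?_
      (by ring)
    · rw [pow_two]
      gcongr
    · unfold wt ay ey e0
      simp only
      rw [mul_pow, mul_pow, mul_pow, mul_pow, ka_sq, ← pow_mul, ← pow_mul, ← pow_mul, ← pow_mul]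
      ring
  · rw [← q_eq]
    exact I11 n (z.1 ^ 2) (z.2 ^ 2)

lemma byy (hn : 1 ≤ n) (hA : 0 ≤ A) {c : T n → ℝ × ℝ} (hc : sn c ≤ A ^ 2) (z : ℝ × ℝ) :
    ‖Gy (ay n) (ey n) c z‖ ≤ n ^ 2 * Q n z * A := by
  have hQ := (Q_pos n z).le
  refine norm_lin_le' (w := wt (fun m => ay n m * (ey n m).2)
    (fun m => ((ey n m).1, (ey n m).2 - 1)) z) (by positivity) ?_ hA hc
  refine s2 hn z _ (fun i j => (j * (((j - 1 : ℕ) : ℝ) * (z.2 ^ 2) ^ (j - 1 - 1))) * (z.1 ^ 2) ^ i) ?_ ?_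
  · intro m
    obtain ⟨h1, h2⟩ := nat_le m
    have h3 : ((m.1.2 - 1 : ℕ) : ℝ) ≤ n := le_trans (by exact_mod_cast Nat.sub_le _ _) h2
    refine ka_mul_sq m (m.1.2 * ((m.1.2 - 1 : ℕ) : ℝ))
      ((z.2 ^ 2) ^ (m.1.2 - 1 - 1) * (z.1 ^ 2) ^ m.1.1) _ (by positivity) ?_ (by positivity) ?_
      (by ring)
    · rw [pow_two]
      gcongr
    · unfold wt ay ey e0
      simp only
      rw [mul_pow, mul_pow, mul_pow, mul_pow, ka_sq, ← pow_mul, ← pow_mul, ← pow_mul, ← pow_mul]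
      ring
  · rw [← q_eq]
    exact I2' n (z.1 ^ 2) (z.2 ^ 2)

/-- Lipschitz estimate near a point -/
lemma lip_of {f : ℝ × ℝ → ℝ × ℝ} {fx fy : ℝ × ℝ → ℝ × ℝ} (hn : 1 ≤ n)
    (hf : ∀ z, HasFDerivAt f ((ContinuousLinearMap.fst ℝ ℝ ℝ).smulRight (fx z) +
      (ContinuousLinearMap.snd ℝ ℝ ℝ).smulRight (fy z)) z) {K : ℝ} (hK : 0 ≤ K)
    (hx : ∀ z, ‖fx z‖ ≤ K * Q n z) (hy : ∀ z, ‖fy z‖ ≤ K * Q n z) {p z : ℝ × ℝ}
    (h : ‖p - z‖ ≤ 1 / (4 * n)) : ‖f z - f p‖ ≤ 3 * K * Q n z * ‖z - p‖ := by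
  have hQ := Q_pos n z
  have hb : ∀ x ∈ segment ℝ p z, ‖(ContinuousLinearMap.fst ℝ ℝ ℝ).smulRight (fx x) +
      (ContinuousLinearMap.snd ℝ ℝ ℝ).smulRight (fy x)‖ ≤ 3 * K * Q n z := by
    intro x hx1
    have hxz : ‖x - z‖ ≤ 1 / (4 * n) := by
      obtain ⟨a, b, ha, hb, hab, rfl⟩ := hx1
      have : a • p + b • z - z = a • (p - z) := by
        have hb' : b = 1 - a := by linarith
        rw [hb', sub_smul, one_smul, smul_sub]; abel
      rw [this, norm_smul, Real.norm_eq_abs, abs_of_nonneg ha]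
      have ha1 : a ≤ 1 := by linarith
      exact (mul_le_of_le_one_left (norm_nonneg _) ha1).trans h
    have hQx := Q_le hn hxz
    refine ContinuousLinearMap.opNorm_le_bound _ (by positivity) fun v => ?_
    have e1 : ((ContinuousLinearMap.fst ℝ ℝ ℝ).smulRight (fx x) +
      (ContinuousLinearMap.snd ℝ ℝ ℝ).smulRight (fy x)) v = v.1 • fx x + v.2 • fy x := by
      simp
    rw [e1]
    have g1 : ‖fx x‖ ≤ K * (3 / 2 * Q n z) := (hx x).trans (mul_le_mul_of_nonneg_left hQx hK)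
    have g2 : ‖fy x‖ ≤ K * (3 / 2 * Q n z) := (hy x).trans (mul_le_mul_of_nonneg_left hQx hK)
    refine (norm_comb_le v _ _ g1 g2).trans (le_of_eq (by ring))
  exact (convex_segment p z).norm_image_sub_le_of_norm_hasFDerivWithin_le
    (fun x _ => (hf x).hasFDerivWithinAt) hb (left_mem_segment ℝ p z) (right_mem_segment ℝ p z)

lemma lipF (hn : 1 ≤ n) (hA : 0 ≤ A) {c : T n → ℝ × ℝ} (hc : sn c ≤ A ^ 2) {p z : ℝ × ℝ}
    (h : ‖p - z‖ ≤ 1 / (4 * n)) : ‖F n c z - F n c p‖ ≤ 3 * (n * A) * Q n z * ‖z - p‖ := by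
  refine lip_of hn (fun z => hasFDerivAt_F n c z) (by positivity) (fun z => ?_) (fun z => ?_) h
  · refine (norm_lin_le' (by have := (Q_pos n z).le; positivity) (swx hn z) hA hc).trans
      (le_of_eq (by ring))
  · refine (norm_lin_le' (by have := (Q_pos n z).le; positivity) (swy hn z) hA hc).trans
      (le_of_eq (by ring))

lemma lipx (hn : 1 ≤ n) (hA : 0 ≤ A) {c : T n → ℝ × ℝ} (hc : sn c ≤ A ^ 2) {p z : ℝ × ℝ}
    (h : ‖p - z‖ ≤ 1 / (4 * n)) :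
    ‖lin (wx n z) c - lin (wx n p) c‖ ≤ 3 * (n ^ 2 * A) * Q n z * ‖z - p‖ := by
  refine lip_of (f := fun z => lin (wx n z) c) hn
    (fun z => hasFDerivAt_Gs (ax n) (ex n) c z) (by positivity) (fun z => ?_) (fun z => ?_) h
  · exact (bxx hn hA hc z).trans (le_of_eq (by ring))
  · exact (bxy hn hA hc z).trans (le_of_eq (by ring))

lemma lipy (hn : 1 ≤ n) (hA : 0 ≤ A) {c : T n → ℝ × ℝ} (hc : sn c ≤ A ^ 2) {p z : ℝ × ℝ}
    (h : ‖p - z‖ ≤ 1 / (4 * n)) :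
    ‖lin (wy n z) c - lin (wy n p) c‖ ≤ 3 * (n ^ 2 * A) * Q n z * ‖z - p‖ := by
  refine lip_of (f := fun z => lin (wy n z) c) hn
    (fun z => hasFDerivAt_Gs (ay n) (ey n) c z) (by positivity) (fun z => ?_) (fun z => ?_) h
  · exact (byx hn hA hc z).trans (le_of_eq (by ring))
  · exact (byy hn hA hc z).trans (le_of_eq (by ring))

/-- small values of a linear form -/
lemma small_sl {ι : Type*} [Fintype ι] {w : ι → ℝ} {s y : ℝ} (hs : 0 < s)
    (hw : s ^ 2 ≤ ∑ m, w m ^ 2) (hy : 0 ≤ y) :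
    GQ ι {a | |sl w a| ≤ y} ≤ ENNReal.ofReal (y / s) := by
  have hnn : 0 ≤ ∑ m, w m ^ 2 := Finset.sum_nonneg fun _ _ => sq_nonneg _
  set s0 := √(∑ m, w m ^ 2) with hs0
  have h1 : s ≤ s0 := Real.le_sqrt_of_sq_le hw
  have h2 : GQ ι {a | |sl w a| ≤ y} = (GQ ι).map (sl w) {u | |u| ≤ y} := by
    rw [Measure.map_apply (continuous_sl w).measurable]
    · rfl
    · exact (isClosed_le continuous_abs continuous_const).measurableSet
  rw [h2, map_sl]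
  refine (gaussian_small (s := s0) (hs.trans_le h1) ?_ hy).trans ?_
  · rw [Real.coe_toNNReal _ hnn, hs0, Real.sq_sqrt hnn]
  · apply ENNReal.ofReal_le_ofReal
    exact div_le_div_of_nonneg_left hy hs h1

lemma abs_le_q (z : ℝ × ℝ) : |z.1| + |z.2| ≤ q z := by
  unfold q H709R2.sq
  rw [← sq_abs z.1, ← sq_abs z.2]
  nlinarith [sq_nonneg (2 * |z.1| - 1), sq_nonneg (2 * |z.2| - 1)]

lemma prob_pt (hn : 1 ≤ n) (z : ℝ × ℝ) {α β ε₁ ε₂ : ℝ} (hα : |α| ≤ 1) (hβ : |β| ≤ 1)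
    (hαβ : 1 ≤ α ^ 2 + β ^ 2) (h1 : 0 ≤ ε₁) (h2 : 0 ≤ ε₂) :
    GP (T n) {c | ‖F n c z‖ ≤ ε₁ * Q n z ∧
      ‖α • lin (wx n z) c + β • lin (wy n z) c‖ ≤ ε₂ * Q n z} ≤
      ENNReal.ofReal ((ε₁ * ((ε₂ + n * ε₁) * q z / √n)) ^ 2) := by
  have hn1 : (1:ℝ) ≤ n := by exact_mod_cast hn
  have hn0 : (0:ℝ) < n := by linarith
  have hq := q_pos z
  have hQ := Q_pos n z
  have hQ2 := Q_sq n z
  have hsn : 0 < √(n:ℝ) := Real.sqrt_pos.2 hn0
  have hsn2 : √(n:ℝ) ^ 2 = n := Real.sq_sqrt hn0.le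
  set w' : T n → ℝ := fun m => α * wx n z m + β * wy n z m with hw'
  set ρ : ℝ := n * (α * z.1 + β * z.2) / q z with hρ
  have hρq : ρ * q z = n * (α * z.1 + β * z.2) := by rw [hρ]; field_simp
  set v : T n → ℝ := fun m => w' m - ρ * w0 n z m with hv
  have hww : ∑ m, w0 n z m * w' m = ρ * q z ^ n := by
    have e1 : ∑ m, w0 n z m * w' m = α * ∑ m, w0 n z m * wx n z m + β * ∑ m, w0 n z m * wy n z m := by
      rw [Finset.mul_sum, Finset.mul_sum, ← Finset.sum_add_distrib]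
      exact Finset.sum_congr rfl fun m _ => by simp only [hw']; ring
    have e2 := q_mul1 hn z
    rw [e1, sum_w0_wx, sum_w0_wy, ← e2]
    linear_combination (-(q z ^ (n - 1))) * hρq
  have hort : ∑ m, w0 n z m * v m = 0 := by
    have e1 : ∑ m, w0 n z m * v m = ∑ m, w0 n z m * w' m - ρ * ∑ m, w0 n z m ^ 2 := by
      rw [Finset.mul_sum, ← Finset.sum_sub_distrib]
      exact Finset.sum_congr rfl fun m _ => by simp only [hv]; ring
    rw [e1, hww, sum_w0]; ring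
  have hvv : q z ^ 2 * ∑ m, v m ^ 2 = n * q z ^ n * (α ^ 2 + β ^ 2 + (α * z.2 - β * z.1) ^ 2) := by
    have e1 : ∑ m, v m ^ 2 = α ^ 2 * ∑ m, wx n z m ^ 2 + 2 * α * β * ∑ m, wx n z m * wy n z m +
        β ^ 2 * ∑ m, wy n z m ^ 2 - 2 * ρ * ∑ m, w0 n z m * w' m + ρ ^ 2 * ∑ m, w0 n z m ^ 2 := by
      simp only [Finset.mul_sum, ← Finset.sum_sub_distrib, ← Finset.sum_add_distrib]
      exact Finset.sum_congr rfl fun m _ => by simp only [hv, hw']; ring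
    have e2 := qb hn z
    have e3 := qb' hn z
    have e4 := qc hn z
    have e5 : q z = 1 + z.1 ^ 2 + z.2 ^ 2 := (q_eq z).symm
    rw [e1, hww, sum_w0]
    have e6 : q z ^ 2 * (α ^ 2 * ∑ m, wx n z m ^ 2 + 2 * α * β * ∑ m, wx n z m * wy n z m +
        β ^ 2 * ∑ m, wy n z m ^ 2 - 2 * ρ * (ρ * q z ^ n) + ρ ^ 2 * q z ^ n) =
        α ^ 2 * (q z ^ 2 * ∑ m, wx n z m ^ 2) + 2 * α * β * (q z ^ 2 * ∑ m, wx n z m * wy n z m) +
        β ^ 2 * (q z ^ 2 * ∑ m, wy n z m ^ 2) - (ρ * q z) ^ 2 * q z ^ n := by ring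
    rw [e6, e2, e3, e4, hρq]
    have e7 : ∀ X : ℝ, α ^ 2 * (n * q z * X + n * (n - 1) * z.1 ^ 2 * X) +
        2 * α * β * (n * (n - 1) * (z.1 * z.2) * X) +
        β ^ 2 * (n * q z * X + n * (n - 1) * z.2 ^ 2 * X) - (n * (α * z.1 + β * z.2)) ^ 2 * X =
        n * X * (α ^ 2 + β ^ 2 + (α * z.2 - β * z.1) ^ 2) := by
      intro X
      rw [e5]; ring
    exact e7 _
  set s : ℝ := √n * Q n z / q z with hs
  have hs0 : 0 < s := by positivity
  have hs2 : s ^ 2 ≤ ∑ m, v m ^ 2 := by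
    have e1 : s ^ 2 = n * q z ^ n / q z ^ 2 := by
      rw [hs, div_pow, mul_pow, hsn2, hQ2]
    rw [e1, div_le_iff₀ (by positivity), mul_comm _ (q z ^ 2), hvv]
    have e2 : 0 ≤ (n:ℝ) * q z ^ n := by positivity
    nlinarith [sq_nonneg (α * z.2 - β * z.1)]
  have hρn : |ρ| ≤ n := by
    rw [hρ, abs_div, abs_of_pos hq, div_le_iff₀ hq, abs_mul, abs_of_pos hn0]
    refine mul_le_mul_of_nonneg_left ?_ hn0.le
    refine (abs_add_le _ _).trans ((add_le_add ?_ ?_).trans (abs_le_q z))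
    · rw [abs_mul]; exact mul_le_of_le_one_left (abs_nonneg _) hα
    · rw [abs_mul]; exact mul_le_of_le_one_left (abs_nonneg _) hβ
  set S1 : Set (T n → ℝ) := {a | |sl (w0 n z) a| ≤ ε₁ * Q n z} with hS1
  set S2 : Set (T n → ℝ) := {a | |sl v a| ≤ (ε₂ + n * ε₁) * Q n z} with hS2
  have hind : GQ (T n) (S1 ∩ S2) = GQ (T n) S1 * GQ (T n) S2 := by
    have h3 := (indep_sl hort).measure_inter_preimage_eq_mul
      {u : ℝ | |u| ≤ ε₁ * Q n z} {u : ℝ | |u| ≤ (ε₂ + n * ε₁) * Q n z}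
      (isClosed_le continuous_abs continuous_const).measurableSet
      (isClosed_le continuous_abs continuous_const).measurableSet
    exact h3
  have hP : GQ (T n) (S1 ∩ S2) ≤ ENNReal.ofReal (ε₁ * ((ε₂ + n * ε₁) * q z / √n)) := by
    rw [hind]
    have p1 : GQ (T n) S1 ≤ ENNReal.ofReal (ε₁ * Q n z / Q n z) :=
      small_sl hQ (by rw [sum_w0, hQ2]) (by positivity)
    have p2 : GQ (T n) S2 ≤ ENNReal.ofReal ((ε₂ + n * ε₁) * Q n z / s) :=
      small_sl hs0 hs2 (by positivity)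
    have e1 : ε₁ * Q n z / Q n z = ε₁ := by field_simp
    have e2 : (ε₂ + n * ε₁) * Q n z / s = (ε₂ + n * ε₁) * q z / √n := by
      rw [hs]; field_simp
    rw [e1] at p1
    rw [e2] at p2
    rw [ENNReal.ofReal_mul h1]
    exact mul_le_mul' p1 p2
  have hsub : {c : T n → ℝ × ℝ | ‖F n c z‖ ≤ ε₁ * Q n z ∧
      ‖α • lin (wx n z) c + β • lin (wy n z) c‖ ≤ ε₂ * Q n z} ⊆
      {c | (fun m => (c m).1) ∈ S1 ∩ S2 ∧ (fun m => (c m).2) ∈ S1 ∩ S2} := by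
    rintro c ⟨g1, g2⟩
    have key : ∀ a : T n → ℝ, |sl (w0 n z) a| ≤ ε₁ * Q n z →
        |α * sl (wx n z) a + β * sl (wy n z) a| ≤ ε₂ * Q n z → a ∈ S1 ∩ S2 := by
      intro a k1 k2
      refine ⟨k1, ?_⟩
      show |sl v a| ≤ _
      have e1 : sl v a = (α * sl (wx n z) a + β * sl (wy n z) a) - ρ * sl (w0 n z) a := by
        unfold sl
        rw [Finset.mul_sum, Finset.mul_sum, Finset.mul_sum, ← Finset.sum_add_distrib,
          ← Finset.sum_sub_distrib]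
        exact Finset.sum_congr rfl fun m _ => by simp only [hv, hw']; ring
      rw [e1]
      refine (abs_sub _ _).trans ?_
      rw [abs_mul]
      have k3 : |ρ| * |sl (w0 n z) a| ≤ n * (ε₁ * Q n z) :=
        mul_le_mul hρn k1 (abs_nonneg _) hn0.le
      linarith
    rw [← lin_w0] at g1
    constructor
    · apply key
      · rw [← lin_fst]; exact (abs_fst_le _).trans g1
      · rw [← lin_fst, ← lin_fst]
        exact (abs_fst_le (α • lin (wx n z) c + β • lin (wy n z) c)).trans g2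
    · apply key
      · rw [← lin_snd]; exact (abs_snd_le _).trans g1
      · rw [← lin_snd, ← lin_snd]
        exact (abs_snd_le (α • lin (wx n z) c + β • lin (wy n z) c)).trans g2
  refine (measure_mono hsub).trans ?_
  rw [split, pow_two, ENNReal.ofReal_mul (by positivity)]
  exact mul_le_mul' hP hP

lemma prob_dir (hn : 1 ≤ n) {A B t : ℝ} (hA : 1 ≤ A) (hB : 1 ≤ B) (ht : 0 < t) (ht1 : t ≤ 1)
    {dir : ℝ → ℝ × ℝ} (hd1 : ∀ σ, |σ| ≤ 1 → ‖dir σ‖ ≤ 1)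
    (hd2 : ∀ σ σ', ‖dir σ - dir σ'‖ ≤ |σ - σ'|)
    (hd3 : ∀ σ, 1 ≤ (dir σ).1 ^ 2 + (dir σ).2 ^ 2) :
    GP (T n) {c | sn c ≤ A ^ 2 ∧ ∃ (p : ℝ × ℝ) (σ : ℝ), ‖p‖ ≤ B ∧ |σ| ≤ 1 ∧ F n c p = 0 ∧
      ‖(dir σ).1 • lin (wx n p) c + (dir σ).2 • lin (wy n p) c‖ < t * Q n p} ≤
      ENNReal.ofReal (118098 * (A ^ 3 * n ^ 3 * B ^ 6 * t)) := by
  have hn1 : (1:ℝ) ≤ n := by exact_mod_cast hn
  have hn0 : (0:ℝ) < n := by linarith
  have hA0 : 0 < A := by linarith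
  have hB0 : 0 < B := by linarith
  set X : ℝ := A * B * n ^ 2 / t with hX
  set Y : ℝ := A * n ^ 2 / t with hY
  have hn2 : (1:ℝ) ≤ n ^ 2 := one_le_pow₀ hn1
  have hY1 : 1 ≤ Y := by
    rw [hY, le_div_iff₀ ht]
    have : 1 ≤ A * (n:ℝ) ^ 2 := one_le_mul_of_one_le_of_one_le hA hn2
    linarith
  have hXY : X = B * Y := by rw [hX, hY]; ring
  have hX1 : 1 ≤ X := by rw [hXY]; exact one_le_mul_of_one_le_of_one_le hB hY1
  set K : ℕ := ⌈12 * X⌉₊ with hK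
  set L : ℕ := ⌈12 * Y⌉₊ with hL
  have hK1 : 12 * X ≤ K := Nat.le_ceil _
  have hK2 : (K:ℝ) ≤ 12 * X + 1 := (Nat.ceil_lt_add_one (by positivity)).le
  have hL1 : 12 * Y ≤ L := Nat.le_ceil _
  have hL2 : (L:ℝ) ≤ 12 * Y + 1 := (Nat.ceil_lt_add_one (by positivity)).le
  have hKr : (0:ℝ) < K := by linarith
  have hLr : (0:ℝ) < L := by linarith
  have hK0 : 0 < K := by exact_mod_cast hKr
  have hL0 : 0 < L := by exact_mod_cast hLr
  set r : ℝ := t / (12 * (A * n ^ 2)) with hr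
  have hr0 : 0 < r := by positivity
  have hBK : B * (1 / K) ≤ r := by
    rw [mul_one_div, div_le_iff₀ hKr, hr, div_mul_eq_mul_div, le_div_iff₀ (by positivity)]
    rw [hX] at hK1
    have h1 : 12 * (A * B * n ^ 2 / t) * t ≤ K * t := mul_le_mul_of_nonneg_right hK1 ht.le
    have h2 : 12 * (A * B * (n:ℝ) ^ 2 / t) * t = B * (12 * (A * n ^ 2)) := by field_simp
    linarith
  have hLL : 1 / (L:ℝ) ≤ r := by
    rw [div_le_iff₀ hLr, hr, div_mul_eq_mul_div, le_div_iff₀ (by positivity)]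
    rw [hY] at hL1
    have h1 : 12 * (A * n ^ 2 / t) * t ≤ L * t := mul_le_mul_of_nonneg_right hL1 ht.le
    have h2 : 12 * (A * (n:ℝ) ^ 2 / t) * t = 12 * (A * n ^ 2) := by field_simp
    linarith
  have hr4 : r ≤ 1 / (4 * n) := by
    rw [hr, div_le_div_iff₀ (by positivity) (by positivity)]
    nlinarith [mul_pos hA0 hn0, mul_le_mul_of_nonneg_left hn1 hA0.le,
      mul_le_mul_of_nonneg_left hn1 (mul_pos hA0 hn0).le]
  set GK := Finset.Icc (-(K:ℤ)) K with hGK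
  set GM := Finset.Icc (-(L:ℤ)) L with hGM
  set E : ℤ × ℤ × ℤ → Set (T n → ℝ × ℝ) := fun g =>
    {c | ‖F n c (B * ((g.1:ℝ) / K), B * ((g.2.1:ℝ) / K))‖ ≤
        t / (4 * n) * Q n (B * ((g.1:ℝ) / K), B * ((g.2.1:ℝ) / K)) ∧
      ‖(dir ((g.2.2:ℝ) / L)).1 • lin (wx n (B * ((g.1:ℝ) / K), B * ((g.2.1:ℝ) / K))) c +
        (dir ((g.2.2:ℝ) / L)).2 • lin (wy n (B * ((g.1:ℝ) / K), B * ((g.2.1:ℝ) / K))) c‖ ≤
        3 * t * Q n (B * ((g.1:ℝ) / K), B * ((g.2.1:ℝ) / K))} with hE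
  set G := (GK ×ˢ GK ×ˢ GM).filter fun g => |(g.1:ℝ) / K| ≤ 1 ∧ |(g.2.1:ℝ) / K| ≤ 1 ∧
    |(g.2.2:ℝ) / L| ≤ 1 with hG
  have hsub : {c : T n → ℝ × ℝ | sn c ≤ A ^ 2 ∧ ∃ (p : ℝ × ℝ) (σ : ℝ), ‖p‖ ≤ B ∧ |σ| ≤ 1 ∧
      F n c p = 0 ∧ ‖(dir σ).1 • lin (wx n p) c + (dir σ).2 • lin (wy n p) c‖ < t * Q n p} ⊆
      ⋃ g ∈ G, E g := by
    rintro c ⟨hc, p, σ, hp, hσ, h0, hlt⟩
    have hp1 : |p.1 / B| ≤ 1 := by
      rw [abs_div, abs_of_pos hB0, div_le_one hB0]; exact (abs_fst_le p).trans hp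
    have hp2 : |p.2 / B| ≤ 1 := by
      rw [abs_div, abs_of_pos hB0, div_le_one hB0]; exact (abs_snd_le p).trans hp
    obtain ⟨i, hi, hi1, hi2⟩ := grid hK0 hp1
    obtain ⟨j, hj, hj1, hj2⟩ := grid hK0 hp2
    obtain ⟨k, hk, hk1, hk2⟩ := grid hL0 hσ
    simp only [mem_iUnion]
    refine ⟨(i, j, k), Finset.mem_filter.2 ⟨Finset.mk_mem_product hi
      (Finset.mk_mem_product hj hk), hi2, hj2, hk2⟩, ?_⟩
    set z : ℝ × ℝ := (B * ((i:ℝ) / K), B * ((j:ℝ) / K)) with hz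
    have hzp : ‖z - p‖ ≤ r := by
      refine le_trans ?_ hBK
      rw [Prod.norm_def]
      refine max_le ?_ ?_
      · have e : (z - p).1 = B * ((i:ℝ) / K - p.1 / B) := by
          rw [hz]; simp only [Prod.fst_sub]; field_simp
        rw [e, Real.norm_eq_abs, abs_mul, abs_of_pos hB0]
        exact mul_le_mul_of_nonneg_left hi1 hB0.le
      · have e : (z - p).2 = B * ((j:ℝ) / K - p.2 / B) := by
          rw [hz]; simp only [Prod.snd_sub]; field_simp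
        rw [e, Real.norm_eq_abs, abs_mul, abs_of_pos hB0]
        exact mul_le_mul_of_nonneg_left hj1 hB0.le
    have hpz : ‖p - z‖ ≤ 1 / (4 * n) := by rw [norm_sub_rev]; exact hzp.trans hr4
    have hQz := Q_pos n z
    have hQp := Q_le hn hpz
    have hQp0 := Q_pos n p
    constructor
    · show ‖F n c z‖ ≤ t / (4 * n) * Q n z
      have h1 := lipF hn hA0.le hc hpz
      rw [h0, sub_zero] at h1
      refine h1.trans ?_
      calc 3 * (n * A) * Q n z * ‖z - p‖ ≤ 3 * (n * A) * Q n z * r := by gcongr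
        _ = t / (4 * n) * Q n z := by rw [hr]; field_simp; ring
    · show ‖(dir ((k:ℝ) / L)).1 • lin (wx n z) c + (dir ((k:ℝ) / L)).2 • lin (wy n z) c‖ ≤
        3 * t * Q n z
      set d := dir σ with hd
      set d' := dir ((k:ℝ) / L) with hd'
      have hdd : ‖d' - d‖ ≤ r := ((hd2 _ _).trans hk1).trans hLL
      have hd1' : ‖d'‖ ≤ 1 := hd1 _ hk2
      have g1 : ‖lin (wx n z) c - lin (wx n p) c‖ ≤ 3 * (n ^ 2 * A) * Q n z * r :=
        (lipx hn hA0.le hc hpz).trans (by gcongr)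
      have g2 : ‖lin (wy n z) c - lin (wy n p) c‖ ≤ 3 * (n ^ 2 * A) * Q n z * r :=
        (lipy hn hA0.le hc hpz).trans (by gcongr)
      have g3 : ‖lin (wx n p) c‖ ≤ n * (3 / 2 * Q n z) * A :=
        (norm_lin_le' (by positivity) (swx hn p) hA0.le hc).trans (by gcongr)
      have g4 : ‖lin (wy n p) c‖ ≤ n * (3 / 2 * Q n z) * A :=
        (norm_lin_le' (by positivity) (swy hn p) hA0.le hc).trans (by gcongr)
      have e1 : d'.1 • lin (wx n z) c + d'.2 • lin (wy n z) c =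
          (d.1 • lin (wx n p) c + d.2 • lin (wy n p) c) +
          (d'.1 • (lin (wx n z) c - lin (wx n p) c) + d'.2 • (lin (wy n z) c - lin (wy n p) c)) +
          ((d' - d).1 • lin (wx n p) c + (d' - d).2 • lin (wy n p) c) := by
        rw [Prod.fst_sub, Prod.snd_sub, sub_smul, sub_smul, smul_sub, smul_sub]
        abel
      rw [e1]
      have h2 := norm_comb_le d' _ _ g1 g2
      have h3 := norm_comb_le (d' - d) _ _ g3 g4
      have h4 : 2 * (3 * (n ^ 2 * A) * Q n z * r) * ‖d'‖ ≤ 2 * (3 * (n ^ 2 * A) * Q n z * r) * 1 := by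
        gcongr
      have h5 : 2 * (n * (3 / 2 * Q n z) * A) * ‖d' - d‖ ≤ 2 * (n * (3 / 2 * Q n z) * A) * r := by
        gcongr
      have h6 : 2 * (3 * (n ^ 2 * A) * Q n z * r) * 1 = t / 2 * Q n z := by
        rw [hr]; field_simp; ring
      have h7 : 2 * (n * (3 / 2 * Q n z) * A) * r ≤ t / 4 * Q n z := by
        have e2 : 2 * (n * (3 / 2 * Q n z) * A) * r = t / 4 * Q n z * (1 / n) := by
          rw [hr]; field_simp; ring
        rw [e2]
        exact mul_le_of_le_one_right (by positivity) (by rw [div_le_one hn0]; exact hn1)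
      have h8 : t * Q n p ≤ t * (3 / 2 * Q n z) := mul_le_mul_of_nonneg_left hQp ht.le
      refine (norm_add_le _ _).trans ?_
      refine (add_le_add (norm_add_le _ _) le_rfl).trans ?_
      nlinarith [mul_pos ht hQz]
  refine (measure_mono hsub).trans ((measure_biUnion_finset_le _ _).trans ?_)
  set η : ℝ := 6 * (t ^ 4 * B ^ 4 / n ^ 3) with hη
  have hEq : ∀ g ∈ G, GP (T n) (E g) ≤ ENNReal.ofReal η := by
    intro g hg
    obtain ⟨-, hi2, hj2, hk2⟩ := Finset.mem_filter.1 hg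
    have hdk := hd1 _ hk2
    refine (prob_pt hn _ ((abs_fst_le _).trans hdk) ((abs_snd_le _).trans hdk) (hd3 _)
      (by positivity) (by positivity)).trans ?_
    apply ENNReal.ofReal_le_ofReal
    set z : ℝ × ℝ := (B * ((g.1:ℝ) / K), B * ((g.2.1:ℝ) / K)) with hz
    have hqz : q z ≤ 3 * B ^ 2 := by
      have k1 : ∀ x : ℝ, |x| ≤ 1 → (B * x) ^ 2 ≤ B ^ 2 := by
        intro x hx
        rw [mul_pow]
        have : x ^ 2 ≤ 1 := by rw [← sq_abs]; exact pow_le_one₀ (abs_nonneg _) hx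
        exact mul_le_of_le_one_right (by positivity) this
      have k2 := k1 _ hi2
      have k3 := k1 _ hj2
      have k4 : 1 ≤ B ^ 2 := one_le_pow₀ hB
      unfold q H709R2.sq
      rw [hz]
      simp only
      linarith
    have hq0 := q_pos z
    have hsn : 0 < √(n:ℝ) := Real.sqrt_pos.2 hn0
    have hsn2 : √(n:ℝ) ^ 2 = n := Real.sq_sqrt hn0.le
    have e1 : (3 * t + n * (t / (4 * n))) = 13 / 4 * t := by field_simp; ring
    rw [e1]
    calc (t / (4 * n) * (13 / 4 * t * q z / √n)) ^ 2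
        ≤ (t / (4 * n) * (13 / 4 * t * (3 * B ^ 2) / √n)) ^ 2 := by gcongr
      _ = 1521 / 256 * (t ^ 4 * B ^ 4 / (n ^ 2 * √(n:ℝ) ^ 2)) := by field_simp; ring
      _ = 1521 / 256 * (t ^ 4 * B ^ 4 / n ^ 3) := by rw [hsn2]; ring
      _ ≤ η := by
        rw [hη]
        have : 0 ≤ t ^ 4 * B ^ 4 / (n:ℝ) ^ 3 := by positivity
        linarith
  refine (Finset.sum_le_card_nsmul _ _ _ hEq).trans ?_
  have hcard : (G.card : ℝ) ≤ (2 * K + 1) * ((2 * K + 1) * (2 * L + 1)) := by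
    have h1 : G.card ≤ (GK ×ˢ GK ×ˢ GM).card := Finset.card_filter_le _ _
    rw [Finset.card_product, Finset.card_product] at h1
    have h2 : (G.card : ℝ) ≤ GK.card * (GK.card * GM.card) := by exact_mod_cast h1
    rw [card_grid, card_grid] at h2
    exact h2
  rw [nsmul_eq_mul, ← ENNReal.ofReal_natCast, ← ENNReal.ofReal_mul (by positivity)]
  apply ENNReal.ofReal_le_ofReal
  have h3 : 2 * (K:ℝ) + 1 ≤ 27 * X := by linarith
  have h4 : 2 * (L:ℝ) + 1 ≤ 27 * Y := by linarith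
  have hη0 : 0 ≤ η := by positivity
  calc (G.card : ℝ) * η ≤ ((2 * K + 1) * ((2 * K + 1) * (2 * L + 1))) * η := by gcongr
    _ ≤ (27 * X * (27 * X * (27 * Y))) * η := by gcongr
    _ = 118098 * (A ^ 3 * n ^ 3 * B ^ 6 * t) := by
      rw [hX, hY, hη]; field_simp; ring

end LC

open LC in
/-- **Leaf C.** -/
theorem c : S_C := by
  intro n hn A B t hA hB ht ht1
  have hn1 : (1:ℝ) ≤ n := by exact_mod_cast hn
  have h1 := prob_dir hn hA hB ht ht1 (dir := fun σ => (1, σ))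
    (fun σ hσ => by rw [Prod.norm_def]; exact max_le (by simp) hσ)
    (fun σ σ' => by rw [Prod.norm_def]; simp) (fun σ => by simp only; nlinarith [sq_nonneg σ])
  have h2 := prob_dir hn hA hB ht ht1 (dir := fun σ => (σ, 1))
    (fun σ hσ => by rw [Prod.norm_def]; exact max_le hσ (by simp))
    (fun σ σ' => by rw [Prod.norm_def]; simp) (fun σ => by simp only; nlinarith [sq_nonneg σ])
  refine (measure_mono ?_).trans ((measure_union_le _ _).trans ((add_le_add h1 h2).trans ?_))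
  · rintro c ⟨hc, hnd⟩
    unfold ND at hnd
    push Not at hnd
    obtain ⟨p, hp, h0, v, hv⟩ := hnd
    rw [fderiv_F] at hv
    change ‖v.1 • lin (wx n p) c + v.2 • lin (wy n p) c‖ < t * Q n p * ‖v‖ at hv
    have hQ := Q_pos n p
    have hv0 : 0 < ‖v‖ := by
      rcases (norm_nonneg v).eq_or_lt with h | h
      · rw [← h, mul_zero] at hv
        exact absurd hv (not_lt.2 (norm_nonneg _))
      · exact h
    rcases le_total |v.2| |v.1| with h | h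
    · left
      have hn' : ‖v‖ = |v.1| := by rw [Prod.norm_def]; exact max_eq_left h
      have hv1 : v.1 ≠ 0 := by
        intro h4; rw [hn', h4, abs_zero] at hv0; exact lt_irrefl _ hv0
      have hv1' : 0 < |v.1| := abs_pos.2 hv1
      refine ⟨hc, p, v.2 / v.1, hp, ?_, h0, ?_⟩
      · rw [abs_div, div_le_one hv1']; exact h
      · simp only [one_smul]
        have e : v.1 • lin (wx n p) c + v.2 • lin (wy n p) c =
            v.1 • (lin (wx n p) c + (v.2 / v.1) • lin (wy n p) c) := by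
          rw [smul_add, smul_smul, mul_div_cancel₀ _ hv1]
        rw [e, norm_smul, hn', Real.norm_eq_abs, mul_comm] at hv
        exact lt_of_mul_lt_mul_right hv hv1'.le
    · right
      have hn' : ‖v‖ = |v.2| := by rw [Prod.norm_def]; exact max_eq_right h
      have hv1 : v.2 ≠ 0 := by
        intro h4; rw [hn', h4, abs_zero] at hv0; exact lt_irrefl _ hv0
      have hv1' : 0 < |v.2| := abs_pos.2 hv1
      refine ⟨hc, p, v.1 / v.2, hp, ?_, h0, ?_⟩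
      · rw [abs_div, div_le_one hv1']; exact h
      · simp only [one_smul]
        have e : v.1 • lin (wx n p) c + v.2 • lin (wy n p) c =
            v.2 • ((v.1 / v.2) • lin (wx n p) c + lin (wy n p) c) := by
          rw [smul_add, smul_smul, mul_div_cancel₀ _ hv1]
        rw [e, norm_smul, hn', Real.norm_eq_abs, mul_comm] at hv
        exact lt_of_mul_lt_mul_right hv hv1'.le
  · rw [← ENNReal.ofReal_add (by positivity) (by positivity)]
    apply ENNReal.ofReal_le_ofReal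
    have h3 : A ^ 3 * (n:ℝ) ^ 3 * B ^ 6 * t ≤ A ^ 3 * n ^ 4 * B ^ 6 * t := by
      have : (n:ℝ) ^ 3 ≤ n ^ 4 := pow_le_pow_right₀ hn1 (by norm_num)
      gcongr
    have h4 : 0 ≤ A ^ 3 * (n:ℝ) ^ 4 * B ^ 6 * t := by positivity
    linarith

end

end Pool.Agent.Helper63K9.KS
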