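import Pool.Agent.Helper63K9.KS.LeafC

/-! Leaf D: the leading part of the Kostlan field, and the zone at infinity. -/

open Real Set MeasureTheory Topology Filter ProbabilityTheory
open scoped ENNReal

namespace Pool.Agent.Helper63K9.KS

noncomputable section

open Pool.Agent.W960.HR
open LC

namespace LD

variable {n : ℕ}

/-- the multinomial coefficients of degree `n` -/
def mt (n : ℕ) (m : ℕ × ℕ) : ℝ := if m.1 + m.2 = n then mc n m else 0

lemma mt_nonneg (n : ℕ) (m : ℕ × ℕ) : 0 ≤ mt n m := by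
  unfold mt
  split_ifs
  · exact mc_nonneg n m
  · exact le_rfl

lemma top0 (n : ℕ) (a b : ℝ) : ∑ m ∈ T n, mt n m * (a ^ m.1 * b ^ m.2) = (a + b) ^ n := by
  have e1 : ∑ m ∈ T n, mt n m * (a ^ m.1 * b ^ m.2) =
      ∑ m ∈ (T n).filter (fun m => m.1 + m.2 = n), mc n m * (a ^ m.1 * b ^ m.2) := by
    rw [Finset.sum_filter]
    refine Finset.sum_congr rfl fun m _ => ?_
    unfold mt
    split_ifs <;> simp
  have e2 : (T n).filter (fun m => m.1 + m.2 = n) = Finset.HasAntidiagonal.antidiagonal n := by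
    ext m
    rw [Finset.mem_filter, mem_T, Finset.HasAntidiagonal.mem_antidiagonal]
    constructor
    · exact fun h => h.2
    · exact fun h => ⟨h.le, h⟩
  rw [e1, e2, (Commute.all a b).add_pow']
  refine Finset.sum_congr rfl fun m hm => ?_
  rw [Finset.HasAntidiagonal.mem_antidiagonal] at hm
  unfold mc
  rw [hm, Nat.choose_self, nsmul_eq_mul]
  push_cast
  ring

lemma top1 (n : ℕ) (a b : ℝ) :
    ∑ m ∈ T n, mt n m * ((m.1 * a ^ (m.1 - 1)) * b ^ m.2) = n * (a + b) ^ (n - 1) := by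
  have h1 : HasDerivAt (fun a : ℝ => ∑ m ∈ T n, mt n m * (a ^ m.1 * b ^ m.2))
      (∑ m ∈ T n, mt n m * ((m.1 * a ^ (m.1 - 1)) * b ^ m.2)) a :=
    HasDerivAt.fun_sum fun m _ => ((hasDerivAt_pow m.1 a).mul_const _).const_mul _
  have h2 : HasDerivAt (fun a : ℝ => (a + b) ^ n) (n * (a + b) ^ (n - 1)) a := by
    have h3 : HasDerivAt (fun a : ℝ => a + b) 1 a := (hasDerivAt_id a).add_const b
    simpa using h3.fun_pow n
  simp only [top0] at h1
  exact h1.unique h2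

lemma top1' (n : ℕ) (a b : ℝ) :
    ∑ m ∈ T n, mt n m * (a ^ m.1 * (m.2 * b ^ (m.2 - 1))) = n * (a + b) ^ (n - 1) := by
  have h1 : HasDerivAt (fun b : ℝ => ∑ m ∈ T n, mt n m * (a ^ m.1 * b ^ m.2))
      (∑ m ∈ T n, mt n m * (a ^ m.1 * (m.2 * b ^ (m.2 - 1)))) b :=
    HasDerivAt.fun_sum fun m _ => ((hasDerivAt_pow m.2 b).const_mul _).const_mul _
  have h2 : HasDerivAt (fun b : ℝ => (a + b) ^ n) (n * (a + b) ^ (n - 1)) b := by
    have h3 : HasDerivAt (fun b : ℝ => a + b) 1 b := (hasDerivAt_id b).const_add a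
    simpa using h3.fun_pow n
  simp only [top0] at h1
  exact h1.unique h2

/-- the weights of the leading part -/
def al (n : ℕ) (m : T n) : ℝ := if m.1.1 + m.1.2 = n then ka n m else 0

lemma al_sq (m : T n) : al n m ^ 2 = mt n m.1 := by
  unfold al mt
  split_ifs
  · exact ka_sq n m
  · simp

lemma wl_eq (u : ℝ × ℝ) : wl n u = wt (al n) e0 u := by
  funext m
  unfold wl wt al w0 wt
  split_ifs <;> simp

lemma lin_wl (u : ℝ × ℝ) (c : T n → ℝ × ℝ) : lin (wl n u) c = Gs (al n) e0 c u := by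
  rw [wl_eq]; rfl

lemma sum_wl (u : ℝ × ℝ) : ∑ m, wl n u m ^ 2 = H709R2.sq u ^ n := by
  unfold H709R2.sq
  rw [wl_eq, ← top0]
  refine sum_sub n _ fun m => ?_
  unfold wt e0
  rw [mul_pow, al_sq, mul_pow, ← pow_mul, ← pow_mul, ← pow_mul, ← pow_mul,
    mul_comm m.1.1 2, mul_comm m.1.2 2]

variable {A : ℝ}

lemma norm_gx (hA : 0 ≤ A) {c : T n → ℝ × ℝ} (hc : sn c ≤ A ^ 2) {u : ℝ × ℝ}
    (hu : H709R2.sq u = 1) : ‖Gx (al n) e0 c u‖ ≤ n * A := by
  refine norm_lin_le' (w := wt (fun m => al n m * (e0 m).1) (fun m => ((e0 m).1 - 1, (e0 m).2)) u)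
    (by positivity) ?_ hA hc
  have h1 : ∑ m : T n, mt n m.1 * ((m.1.1 * (u.1 ^ 2) ^ (m.1.1 - 1)) * (u.2 ^ 2) ^ m.1.2) = n := by
    rw [Finset.sum_coe_sort (T n) fun m : ℕ × ℕ =>
      mt n m * ((m.1 * (u.1 ^ 2) ^ (m.1 - 1)) * (u.2 ^ 2) ^ m.2), top1]
    unfold H709R2.sq at hu
    rw [hu, one_pow, mul_one]
  rw [pow_two (n:ℝ)]
  nth_rw 2 [← h1]
  rw [Finset.mul_sum]
  refine Finset.sum_le_sum fun m _ => ?_
  obtain ⟨h2, -⟩ := nat_le m
  have e : wt (fun m => al n m * (e0 m).1) (fun m => ((e0 m).1 - 1, (e0 m).2)) u m ^ 2 =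
      m.1.1 * (mt n m.1 * ((m.1.1 * (u.1 ^ 2) ^ (m.1.1 - 1)) * (u.2 ^ 2) ^ m.1.2)) := by
    unfold wt e0
    simp only
    rw [mul_pow, mul_pow, al_sq, mul_pow, ← pow_mul, ← pow_mul, ← pow_mul, ← pow_mul,
      mul_comm (m.1.1 - 1) 2, mul_comm m.1.2 2]
    ring
  rw [e]
  refine mul_le_mul_of_nonneg_right h2 ?_
  have := mt_nonneg n m.1
  positivity

lemma norm_gy (hA : 0 ≤ A) {c : T n → ℝ × ℝ} (hc : sn c ≤ A ^ 2) {u : ℝ × ℝ}
    (hu : H709R2.sq u = 1) : ‖Gy (al n) e0 c u‖ ≤ n * A := by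
  refine norm_lin_le' (w := wt (fun m => al n m * (e0 m).2) (fun m => ((e0 m).1, (e0 m).2 - 1)) u)
    (by positivity) ?_ hA hc
  have h1 : ∑ m : T n, mt n m.1 * ((u.1 ^ 2) ^ m.1.1 * (m.1.2 * (u.2 ^ 2) ^ (m.1.2 - 1))) = n := by
    rw [Finset.sum_coe_sort (T n) fun m : ℕ × ℕ =>
      mt n m * ((u.1 ^ 2) ^ m.1 * (m.2 * (u.2 ^ 2) ^ (m.2 - 1))), top1']
    unfold H709R2.sq at hu
    rw [hu, one_pow, mul_one]
  rw [pow_two (n:ℝ)]
  nth_rw 2 [← h1]
  rw [Finset.mul_sum]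
  refine Finset.sum_le_sum fun m _ => ?_
  obtain ⟨-, h2⟩ := nat_le m
  have e : wt (fun m => al n m * (e0 m).2) (fun m => ((e0 m).1, (e0 m).2 - 1)) u m ^ 2 =
      m.1.2 * (mt n m.1 * ((u.1 ^ 2) ^ m.1.1 * (m.1.2 * (u.2 ^ 2) ^ (m.1.2 - 1)))) := by
    unfold wt e0
    simp only
    rw [mul_pow, mul_pow, al_sq, mul_pow, ← pow_mul, ← pow_mul, ← pow_mul, ← pow_mul,
      mul_comm (m.1.2 - 1) 2, mul_comm m.1.1 2]
    ring
  rw [e]
  refine mul_le_mul_of_nonneg_right h2 ?_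
  have := mt_nonneg n m.1
  positivity

/-- the point of the circle -/
def cs (θ : ℝ) : ℝ × ℝ := (cos θ, sin θ)

lemma sq_cs (θ : ℝ) : H709R2.sq (cs θ) = 1 := by
  unfold H709R2.sq cs
  simp only
  exact Real.cos_sq_add_sin_sq θ

lemma lip_circle (hA : 0 ≤ A) {c : T n → ℝ × ℝ} (hc : sn c ≤ A ^ 2) (θ θ' : ℝ) :
    ‖lin (wl n (cs θ')) c - lin (wl n (cs θ)) c‖ ≤ 2 * (n * A) * |θ' - θ| := by
  have hd : ∀ t : ℝ, HasDerivAt (fun t => lin (wl n (cs t)) c)
      ((-sin t) • Gx (al n) e0 c (cs t) + cos t • Gy (al n) e0 c (cs t)) t := by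
    intro t
    have h1 : HasDerivAt cs (-sin t, cos t) t := (Real.hasDerivAt_cos t).prodMk (Real.hasDerivAt_sin t)
    have h2 := (hasFDerivAt_Gs (al n) e0 c (cs t)).comp_hasDerivAt t h1
    have h3 : (fun t => lin (wl n (cs t)) c) = Gs (al n) e0 c ∘ cs := by
      funext t
      rw [lin_wl]; rfl
    rw [h3]
    refine h2.congr_deriv ?_
    simp
  have hb : ∀ t ∈ (univ : Set ℝ), ‖(-sin t) • Gx (al n) e0 c (cs t) + cos t • Gy (al n) e0 c (cs t)‖ ≤
      2 * (n * A) := by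
    intro t _
    refine (norm_add_le _ _).trans ?_
    rw [norm_smul, norm_smul, Real.norm_eq_abs, Real.norm_eq_abs, abs_neg]
    have h1 := mul_le_mul (abs_sin_le_one t) (norm_gx hA hc (sq_cs t)) (norm_nonneg _) zero_le_one
    have h2 := mul_le_mul (abs_cos_le_one t) (norm_gy hA hc (sq_cs t)) (norm_nonneg _) zero_le_one
    linarith
  have := convex_univ.norm_image_sub_le_of_norm_hasDerivWithin_le
    (fun t _ => (hd t).hasDerivWithinAt) hb (mem_univ θ) (mem_univ θ')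
  simpa [Real.norm_eq_abs] using this

lemma exists_angle {u : ℝ × ℝ} (hu : H709R2.sq u = 1) : ∃ x : ℝ, |x| ≤ 1 ∧ u = cs (π * x) := by
  set z : ℂ := ⟨u.1, u.2⟩ with hz
  have hn : ‖z‖ = 1 := by
    have h1 : ‖z‖ ^ 2 = 1 := by
      rw [← Complex.normSq_eq_norm_sq, Complex.normSq_apply, hz]
      unfold H709R2.sq at hu
      simp only
      linarith
    have h2 := norm_nonneg z
    nlinarith
  have hz0 : z ≠ 0 := by
    intro h
    rw [h, norm_zero] at hn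
    exact zero_ne_one hn
  refine ⟨Complex.arg z / π, ?_, ?_⟩
  · rw [abs_div, abs_of_pos Real.pi_pos, div_le_one Real.pi_pos]
    exact Complex.abs_arg_le_pi z
  · have e : π * (Complex.arg z / π) = Complex.arg z := by field_simp
    rw [e]
    unfold cs
    rw [Complex.cos_arg hz0, Complex.sin_arg, hn, div_one, div_one]

lemma small_lin {w : T n → ℝ} {s y : ℝ} (hs : 0 < s) (hw : s ^ 2 ≤ ∑ m, w m ^ 2) (hy : 0 ≤ y) :
    GP (T n) {c | ‖lin w c‖ ≤ y} ≤ ENNReal.ofReal ((y / s) ^ 2) := by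
  have h1 := small_sl (ι := T n) hs hw hy
  refine (measure_mono (t := {c : T n → ℝ × ℝ | (fun m => (c m).1) ∈ {a | |sl w a| ≤ y} ∧
    (fun m => (c m).2) ∈ {a | |sl w a| ≤ y}}) ?_).trans ?_
  · intro c hc
    constructor
    · show |sl w _| ≤ y
      rw [← lin_fst]; exact (abs_fst_le _).trans hc
    · show |sl w _| ≤ y
      rw [← lin_snd]; exact (abs_snd_le _).trans hc
  · rw [split, pow_two, ENNReal.ofReal_mul (by positivity)]
    exact mul_le_mul' h1 h1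

end LD

open LD in
/-- **Leaf D1.** -/
theorem d1 : S_D1 := by
  intro n hn A τ hA hτ hτ1
  have hn1 : (1:ℝ) ≤ n := by exact_mod_cast hn
  have hn0 : (0:ℝ) < n := by linarith
  have hA0 : 0 < A := by linarith
  set Y : ℝ := n * A / τ with hY
  have hnA : 1 ≤ (n:ℝ) * A := one_le_mul_of_one_le_of_one_le hn1 hA
  have hY1 : 1 ≤ Y := by rw [hY, le_div_iff₀ hτ]; linarith
  set L : ℕ := ⌈8 * Y⌉₊ with hL
  have hL1 : 8 * Y ≤ L := Nat.le_ceil _
  have hL2 : (L:ℝ) ≤ 8 * Y + 1 := (Nat.ceil_lt_add_one (by positivity)).le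
  have hLr : (0:ℝ) < L := by linarith
  have hL0 : 0 < L := by exact_mod_cast hLr
  have hLτ : 2 * (n * A) * (π * (1 / L)) ≤ τ := by
    have h1 : 8 * (n * A) ≤ L * τ := by
      have := mul_le_mul_of_nonneg_right hL1 hτ.le
      have e : 8 * Y * τ = 8 * (n * A) := by rw [hY]; field_simp
      linarith
    have h2 : 2 * (n * A) * (π * (1 / L)) = 2 * (n * A) * π / L := by ring
    rw [h2, div_le_iff₀ hLr]
    have h3 := Real.pi_lt_four
    have h4 : 0 < (n:ℝ) * A := by positivity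
    nlinarith
  set G := Finset.Icc (-(L:ℤ)) L with hG
  set E : ℤ → Set (T n → ℝ × ℝ) := fun i => {c | ‖lin (wl n (cs (π * ((i:ℝ) / L)))) c‖ ≤ 2 * τ} with hE
  have hsub : {c : T n → ℝ × ℝ | sn c ≤ A ^ 2 ∧ ¬ Lead n τ c} ⊆ ⋃ i ∈ G, E i := by
    rintro c ⟨hc, hnl⟩
    unfold Lead at hnl
    push Not at hnl
    obtain ⟨u, hu, hlt⟩ := hnl
    obtain ⟨x, hx, rfl⟩ := exists_angle hu
    obtain ⟨i, hi, hi1, hi2⟩ := grid hL0 hx
    simp only [mem_iUnion]
    refine ⟨i, hi, ?_⟩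
    show ‖lin (wl n (cs (π * ((i:ℝ) / L)))) c‖ ≤ 2 * τ
    have h1 := lip_circle hA0.le hc (π * x) (π * ((i:ℝ) / L))
    have h2 : |π * ((i:ℝ) / L) - π * x| ≤ π * (1 / L) := by
      rw [← mul_sub, abs_mul, abs_of_pos Real.pi_pos]
      exact mul_le_mul_of_nonneg_left hi1 Real.pi_pos.le
    have h3 : 2 * (n * A) * |π * ((i:ℝ) / L) - π * x| ≤ 2 * (n * A) * (π * (1 / L)) := by gcongr
    have h4 := norm_add_le (lin (wl n (cs (π * ((i:ℝ) / L)))) c - lin (wl n (cs (π * x))) c)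
      (lin (wl n (cs (π * x))) c)
    rw [sub_add_cancel] at h4
    linarith
  refine (measure_mono hsub).trans ((measure_biUnion_finset_le _ _).trans ?_)
  have hEq : ∀ i ∈ G, GP (T n) (E i) ≤ ENNReal.ofReal (4 * τ ^ 2) := by
    intro i _
    refine (small_lin (s := 1) one_pos ?_ (by positivity)).trans ?_
    · rw [sum_wl, sq_cs, one_pow, one_pow]
    · exact ENNReal.ofReal_le_ofReal (le_of_eq (by ring))
  refine (Finset.sum_le_card_nsmul _ _ _ hEq).trans ?_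
  rw [nsmul_eq_mul, ← ENNReal.ofReal_natCast, ← ENNReal.ofReal_mul (by positivity), card_grid]
  apply ENNReal.ofReal_le_ofReal
  calc (2 * (L:ℝ) + 1) * (4 * τ ^ 2) ≤ (19 * Y) * (4 * τ ^ 2) := by
        gcongr
        linarith
    _ = 76 * (A * n * τ) := by rw [hY]; field_simp; ring
    _ ≤ 1000 * (A * n * τ) := by
        have : 0 ≤ A * n * τ := by positivity
        linarith

namespace LD

variable {n : ℕ}

/-- the identity for the defect of the degree -/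
lemma defect (hn : 1 ≤ n) (z : ℝ × ℝ) :
    ∑ m : T n, ((n:ℝ) - ((m.1.1:ℝ) + m.1.2)) * w0 n z m ^ 2 = n * q z ^ (n - 1) := by
  have h1 : ∑ m : T n, (m.1.1:ℝ) * w0 n z m ^ 2 = z.1 ^ 2 * (n * q z ^ (n - 1)) := by
    rw [← q_eq, ← I1, Finset.mul_sum]
    refine sum_sub n _ fun m => ?_
    unfold w0 wt e0
    rw [mul_pow, ka_sq, mul_pow, ← pow_mul, ← pow_mul, mul_comm m.1.1 2, mul_comm m.1.2 2,
      pow_mul, pow_mul]
    rcases Nat.eq_zero_or_pos m.1.1 with h | h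
    · simp [h]
    · obtain ⟨k, hk⟩ := Nat.exists_eq_add_of_le' h
      simp only [hk, Nat.add_sub_cancel]
      ring
  have h2 : ∑ m : T n, (m.1.2:ℝ) * w0 n z m ^ 2 = z.2 ^ 2 * (n * q z ^ (n - 1)) := by
    rw [← q_eq, ← I1', Finset.mul_sum]
    refine sum_sub n _ fun m => ?_
    unfold w0 wt e0
    rw [mul_pow, ka_sq, mul_pow, ← pow_mul, ← pow_mul, mul_comm m.1.1 2, mul_comm m.1.2 2,
      pow_mul, pow_mul]
    rcases Nat.eq_zero_or_pos m.1.2 with h | h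
    · simp [h]
    · obtain ⟨k, hk⟩ := Nat.exists_eq_add_of_le' h
      simp only [hk, Nat.add_sub_cancel]
      ring
  have h3 := sum_w0 n z
  have h4 := q_mul1 hn z
  have h5 : ∑ m : T n, ((n:ℝ) - ((m.1.1:ℝ) + m.1.2)) * w0 n z m ^ 2 = n * ∑ m, w0 n z m ^ 2 -
      (∑ m : T n, (m.1.1:ℝ) * w0 n z m ^ 2 + ∑ m : T n, (m.1.2:ℝ) * w0 n z m ^ 2) := by
    rw [Finset.mul_sum, ← Finset.sum_add_distrib, ← Finset.sum_sub_distrib]
    exact Finset.sum_congr rfl fun m _ => by ring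
  rw [h5, h1, h2, h3, ← h4]
  have h6 : q z = 1 + z.1 ^ 2 + z.2 ^ 2 := (q_eq z).symm
  generalize q z ^ (n - 1) = X
  rw [h6]
  ring

lemma deg_le (m : T n) : (0:ℝ) ≤ n - ((m.1.1:ℝ) + m.1.2) ∧ (n:ℝ) - ((m.1.1:ℝ) + m.1.2) ≤ n := by
  have h := mem_T.1 m.2
  have h' : (m.1.1:ℝ) + m.1.2 ≤ n := by exact_mod_cast h
  have h0 : (0:ℝ) ≤ m.1.1 := Nat.cast_nonneg _
  have h1 : (0:ℝ) ≤ m.1.2 := Nat.cast_nonneg _
  constructor <;> linarith

/-- the lower part -/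
lemma low (hn : 1 ≤ n) {A : ℝ} (hA : 0 ≤ A) {c : T n → ℝ × ℝ} (hc : sn c ≤ A ^ 2) (z : ℝ × ℝ)
    {S : ℝ} (hS : 0 ≤ S) (hS2 : n * q z ^ (n - 1) ≤ S ^ 2) :
    ‖F n c z - lin (wl n z) c‖ ≤ S * A := by
  have e : F n c z - lin (wl n z) c = lin (fun m => w0 n z m - wl n z m) c := by
    rw [← lin_w0]
    unfold lin
    rw [← Finset.sum_sub_distrib]
    exact Finset.sum_congr rfl fun m _ => by rw [sub_smul]
  rw [e]
  refine norm_lin_le' hS (le_trans ?_ hS2) hA hc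
  rw [← defect hn z]
  refine Finset.sum_le_sum fun m _ => ?_
  obtain ⟨h1, -⟩ := deg_le m
  unfold wl
  split_ifs with h
  · rw [sub_self, zero_pow two_ne_zero]
    exact mul_nonneg h1 (sq_nonneg _)
  · rw [sub_zero]
    have h2 : m.1.1 + m.1.2 + 1 ≤ n := by
      have := mem_T.1 m.2
      omega
    have h3 : (m.1.1:ℝ) + m.1.2 + 1 ≤ n := by exact_mod_cast h2
    have h4 : (1:ℝ) ≤ n - ((m.1.1:ℝ) + m.1.2) := by linarith
    exact le_mul_of_one_le_left (sq_nonneg _) h4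

/-- Euler's identity -/
lemma euler (hn : 1 ≤ n) {A : ℝ} (hA : 0 ≤ A) {c : T n → ℝ × ℝ} (hc : sn c ≤ A ^ 2) (z : ℝ × ℝ)
    {S : ℝ} (hS : 0 ≤ S) (hS2 : n ^ 2 * q z ^ (n - 1) ≤ S ^ 2) :
    ‖fderiv ℝ (F n c) z z - (n:ℝ) • F n c z‖ ≤ S * A := by
  have e : fderiv ℝ (F n c) z z - (n:ℝ) • F n c z =
      lin (fun m => z.1 * wx n z m + z.2 * wy n z m - n * w0 n z m) c := by
    rw [fderiv_F, ← lin_w0]
    unfold lin
    rw [Finset.smul_sum, Finset.smul_sum, Finset.smul_sum, ← Finset.sum_add_distrib,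
      ← Finset.sum_sub_distrib]
    refine Finset.sum_congr rfl fun m _ => ?_
    rw [smul_smul, smul_smul, smul_smul, ← add_smul, ← sub_smul]
  rw [e]
  refine norm_lin_le' hS (le_trans ?_ hS2) hA hc
  have h0 : (n:ℝ) ^ 2 * q z ^ (n - 1) = n * (n * q z ^ (n - 1)) := by ring
  rw [h0, ← defect hn z, Finset.mul_sum]
  refine Finset.sum_le_sum fun m _ => ?_
  obtain ⟨h1, h2⟩ := deg_le m
  have h3 : z.1 * wx n z m = m.1.1 * w0 n z m := by
    unfold wx w0 wt e0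
    simp only
    rcases Nat.eq_zero_or_pos m.1.1 with h | h
    · simp [h]
    · obtain ⟨k, hk⟩ := Nat.exists_eq_add_of_le' h
      simp only [hk, Nat.add_sub_cancel]
      ring
  have h4 : z.2 * wy n z m = m.1.2 * w0 n z m := by
    unfold wy w0 wt e0
    simp only
    rcases Nat.eq_zero_or_pos m.1.2 with h | h
    · simp [h]
    · obtain ⟨k, hk⟩ := Nat.exists_eq_add_of_le' h
      simp only [hk, Nat.add_sub_cancel]
      ring
  rw [h3, h4]
  have h5 : ((m.1.1:ℝ) * w0 n z m + m.1.2 * w0 n z m - n * w0 n z m) ^ 2 =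
      ((n:ℝ) - ((m.1.1:ℝ) + m.1.2)) * (((n:ℝ) - ((m.1.1:ℝ) + m.1.2)) * w0 n z m ^ 2) := by ring
  rw [h5]
  exact mul_le_mul_of_nonneg_right h2 (mul_nonneg h1 (sq_nonneg _))

lemma swx' (hn : 1 ≤ n) (z : ℝ × ℝ) : ∑ m, wx n z m ^ 2 ≤ n ^ 2 * q z ^ (n - 1) := by
  have hn1 : (1:ℝ) ≤ n := by exact_mod_cast hn
  have h1 := qb hn z
  have h3 : z.1 ^ 2 ≤ q z := by unfold q H709R2.sq; nlinarith [sq_nonneg z.2]
  have h4 : 0 < q z ^ (n - 1) := pow_pos (q_pos z) _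
  have hq := q_pos z
  have h5 : q z ^ 2 * ∑ m, wx n z m ^ 2 ≤ q z ^ 2 * (n ^ 2 * q z ^ (n - 1)) := by
    rw [h1, ← q_mul1 hn]
    have h6 : (n:ℝ) * (n - 1) * z.1 ^ 2 * (q z * q z ^ (n - 1)) ≤
        n * (n - 1) * q z * (q z * q z ^ (n - 1)) := by
      have : 0 ≤ (n:ℝ) * (n - 1) := by nlinarith
      gcongr
    nlinarith
  exact le_of_mul_le_mul_left h5 (by positivity)

lemma swy' (hn : 1 ≤ n) (z : ℝ × ℝ) : ∑ m, wy n z m ^ 2 ≤ n ^ 2 * q z ^ (n - 1) := by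
  have hn1 : (1:ℝ) ≤ n := by exact_mod_cast hn
  have h1 := qb' hn z
  have h3 : z.2 ^ 2 ≤ q z := by unfold q H709R2.sq; nlinarith [sq_nonneg z.1]
  have h4 : 0 < q z ^ (n - 1) := pow_pos (q_pos z) _
  have hq := q_pos z
  have h5 : q z ^ 2 * ∑ m, wy n z m ^ 2 ≤ q z ^ 2 * (n ^ 2 * q z ^ (n - 1)) := by
    rw [h1, ← q_mul1 hn]
    have h6 : (n:ℝ) * (n - 1) * z.2 ^ 2 * (q z * q z ^ (n - 1)) ≤
        n * (n - 1) * q z * (q z * q z ^ (n - 1)) := by
      have : 0 ≤ (n:ℝ) * (n - 1) := by nlinarith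
      gcongr
    nlinarith
  exact le_of_mul_le_mul_left h5 (by positivity)

/-- homogeneity of the leading part -/
lemma wl_smul (r : ℝ) (u : ℝ × ℝ) (c : T n → ℝ × ℝ) :
    lin (wl n (r • u)) c = r ^ n • lin (wl n u) c := by
  unfold lin
  rw [Finset.smul_sum]
  refine Finset.sum_congr rfl fun m _ => ?_
  rw [smul_smul]
  congr 1
  unfold wl w0 wt e0
  split_ifs with h
  · simp only [Prod.smul_fst, Prod.smul_snd, smul_eq_mul]
    rw [mul_pow, mul_pow]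
    have : r ^ n = r ^ m.1.1 * r ^ m.1.2 := by rw [← pow_add, h]
    rw [this]; ring
  · simp

end LD

open LD in
/-- **Leaf D2.** -/
theorem d2 : S_D2 := by
  intro n hn A τ hA hτ hτ1 c hc hlead
  have hn1 : (1:ℝ) ≤ n := by exact_mod_cast hn
  have hn0 : (0:ℝ) < n := by linarith
  have hA0 : 0 < A := by linarith
  set R : ℝ := 20 * (A * n) / τ with hR
  have hAn : 1 ≤ A * n := one_le_mul_of_one_le_of_one_le hA hn1
  have hR0 : 0 < R := by positivity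
  have hRτ : R * τ = 20 * (A * n) := by rw [hR]; field_simp
  have hR20 : 20 * (A * n) ≤ R := by
    rw [hR, le_div_iff₀ hτ]
    nlinarith
  refine inf_zone (k := n) hR0 hR0.le fun z hz => ?_
  have hsz := norm_sq_le_sq z
  set r : ℝ := √(H709R2.sq z) with hr
  have hs0 : 0 ≤ H709R2.sq z := by unfold H709R2.sq; positivity
  have hr2 : r ^ 2 = H709R2.sq z := Real.sq_sqrt hs0
  have hr0' : 0 ≤ r := Real.sqrt_nonneg _
  have hzr : ‖z‖ ≤ r := Real.le_sqrt_of_sq_le hsz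
  have hrR : 14 / 20 * R ≤ r := by
    have h1 : R ^ 2 / 2 ≤ r ^ 2 := by rw [hr2]; linarith
    nlinarith
  have hr0 : 0 < r := by nlinarith
  have hr14 : 14 * (A * n) ≤ r := by linarith
  have hr14τ : 14 * (A * n) ≤ r * τ := by nlinarith
  have hrn : (14 * n : ℝ) ≤ r := by nlinarith
  have hqr : q z = 1 + r ^ 2 := by unfold q; rw [hr2]
  -- comparison of `q` and `r ^ 2`
  have hqn : q z ^ (n - 1) ≤ (11 / 10 * r ^ (n - 1)) ^ 2 := by
    have h1 : q z ≤ r ^ 2 * (1 + 1 / r ^ 2) := by rw [hqr]; field_simp; linarith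
    have h2 : (1 + 1 / r ^ 2) ^ (n - 1) ≤ 121 / 100 := by
      have h3 : 1 + 1 / r ^ 2 ≤ rexp (1 / r ^ 2) := by linarith [Real.add_one_le_exp (1 / r ^ 2)]
      have h4 : (1 + 1 / r ^ 2) ^ (n - 1) ≤ rexp (1 / r ^ 2) ^ (n - 1) :=
        pow_le_pow_left₀ (by positivity) h3 _
      rw [← Real.exp_nat_mul] at h4
      refine h4.trans ?_
      have h5 : ((n - 1 : ℕ) : ℝ) * (1 / r ^ 2) ≤ 1 / 14 := by
        have h6 : ((n - 1 : ℕ) : ℝ) ≤ n := by exact_mod_cast Nat.sub_le n 1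
        rw [mul_one_div, div_le_div_iff₀ (by positivity) (by norm_num)]
        nlinarith
      have h7 : rexp (((n - 1 : ℕ) : ℝ) * (1 / r ^ 2)) ≤ rexp (1 / 14) := Real.exp_le_exp.2 h5
      have h8 : rexp (1 / 14) ≤ 121 / 100 := by
        have h9 := Real.exp_bound_div_one_sub_of_interval (x := 1 / 14) (by norm_num) (by norm_num)
        refine h9.trans ?_
        norm_num
      exact h7.trans h8
    calc q z ^ (n - 1) ≤ (r ^ 2 * (1 + 1 / r ^ 2)) ^ (n - 1) :=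
          pow_le_pow_left₀ (q_pos z).le h1 _
      _ = (r ^ 2) ^ (n - 1) * (1 + 1 / r ^ 2) ^ (n - 1) := mul_pow _ _ _
      _ ≤ (r ^ 2) ^ (n - 1) * (121 / 100) := by gcongr
      _ = (11 / 10 * r ^ (n - 1)) ^ 2 := by rw [← pow_mul, mul_comm 2 (n - 1), pow_mul]; ring
  have hrr : r * r ^ (n - 1) = r ^ n := by rw [← pow_succ', Nat.sub_add_cancel hn]
  set P : ℝ := r ^ (n - 1) with hP
  have hP0 : 0 < P := by positivity
  -- the leading part
  have htop : τ * r ^ n ≤ ‖lin (wl n z) c‖ := by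
    have e : z = r • (r⁻¹ • z) := by rw [smul_smul, mul_inv_cancel₀ hr0.ne', one_smul]
    have hu : H709R2.sq (r⁻¹ • z) = 1 := by
      have : H709R2.sq (r⁻¹ • z) = r⁻¹ ^ 2 * H709R2.sq z := by
        unfold H709R2.sq
        simp only [Prod.smul_fst, Prod.smul_snd, smul_eq_mul]
        ring
      rw [this, ← hr2]
      field_simp
    rw [e, wl_smul, norm_smul, Real.norm_eq_abs, abs_of_pos (by positivity), mul_comm]
    exact mul_le_mul_of_nonneg_left (hlead _ hu) (by positivity)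
  have hnn : (n:ℝ) ≤ n ^ 2 := by nlinarith
  have hlow : ‖F n c z - lin (wl n z) c‖ ≤ n * (11 / 10 * P) * A := by
    refine low hn hA0.le hc z (by positivity) ?_
    rw [mul_pow]
    exact mul_le_mul hnn hqn (pow_pos (q_pos z) _).le (by positivity)
  have hX : 9 / 10 * (τ * r ^ n) ≤ ‖F n c z‖ := by
    have h1 := norm_sub_norm_le (lin (wl n z) c) (lin (wl n z) c - F n c z)
    have h2 : lin (wl n z) c - (lin (wl n z) c - F n c z) = F n c z := by abel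
    rw [h2, norm_sub_rev (lin (wl n z) c) (F n c z)] at h1
    have h3 : n * (11 / 10 * P) * A ≤ 1 / 10 * (τ * r ^ n) := by
      rw [← hrr]
      have h4 : 14 * (A * n) * P ≤ r * τ * P := mul_le_mul_of_nonneg_right hr14τ hP0.le
      nlinarith
    linarith
  have hX0 : 0 < ‖F n c z‖ := lt_of_lt_of_le (by positivity) hX
  have hRX : 18 * (A * n) * (r * P) ≤ R * ‖F n c z‖ := by
    have h1 := mul_le_mul_of_nonneg_left hX hR0.le
    have h2 : R * (9 / 10 * (τ * r ^ n)) = 18 * (A * n) * (r * P) := by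
      rw [hrr]
      linear_combination (9 / 10 * r ^ n) * hRτ
    linarith
  have hS : (n:ℝ) ^ 2 * q z ^ (n - 1) ≤ (n * (11 / 10 * P)) ^ 2 := by
    rw [mul_pow]
    exact mul_le_mul_of_nonneg_left hqn (by positivity)
  refine ⟨norm_pos_iff.1 hX0, fun v => ?_, ?_⟩
  · rw [fderiv_F]
    have g1 : ‖lin (wx n z) c‖ ≤ n * (11 / 10 * P) * A :=
      norm_lin_le' (by positivity) ((swx' hn z).trans hS) hA0.le hc
    have g2 : ‖lin (wy n z) c‖ ≤ n * (11 / 10 * P) * A :=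
      norm_lin_le' (by positivity) ((swy' hn z).trans hS) hA0.le hc
    have h1 := norm_comb_le v _ _ g1 g2
    calc 2 * ‖v.1 • lin (wx n z) c + v.2 • lin (wy n z) c‖ * ‖z‖
        ≤ 2 * (2 * (n * (11 / 10 * P) * A) * ‖v‖) * r := by gcongr
      _ = 44 / 10 * (A * n) * (r * P) * ‖v‖ := by ring
      _ ≤ 18 * (A * n) * (r * P) * ‖v‖ := by gcongr; norm_num
      _ ≤ R * ‖F n c z‖ * ‖v‖ := by gcongr
  · have h1 := euler hn hA0.le hc z (by positivity) hS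
    calc ‖fderiv ℝ (F n c) z z - (n:ℝ) • F n c z‖ * (3 * ‖z‖)
        ≤ (n * (11 / 10 * P) * A) * (3 * r) := by gcongr
      _ = 33 / 10 * (A * n) * (r * P) := by ring
      _ ≤ 18 * (A * n) * (r * P) := by gcongr; norm_num
      _ ≤ R * ‖F n c z‖ := hRX

end

end Pool.Agent.Helper63K9.KS
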