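import Pool.Agent.Helper63K9.KS.Leaves

/-! Leaf E: the zones at the zeros. -/

open Real Set MeasureTheory
open scoped ENNReal

namespace Pool.Agent.Helper63K9.KS

noncomputable section

open Pool.Agent.H709R2 (fld rot rotc NP wedge)
open Pool.Agent.W960.HR
open Pool.Agent.H709U
open Pool.Agent.H709Q (Maj)

lemma le_n {n : ℕ} (m : T n) : m.1.1 + m.1.2 ≤ n := mem_T.1 m.2

/-- a rough bound for the second derivatives -/
lemma i2_le (n : ℕ) (z : ℝ × ℝ) :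
    (n:ℝ) * (((n - 1 : ℕ) : ℝ) * q z ^ (n - 1 - 1)) ≤ n ^ 2 * q z ^ n := by
  have h1 : (((n - 1 : ℕ) : ℝ)) ≤ n := by exact_mod_cast Nat.sub_le _ _
  have h2 : q z ^ (n - 1 - 1) ≤ q z ^ n := pow_le_pow_right₀ (one_le_q z) (by omega)
  have h3 : 0 < q z := q_pos z
  have h4 : (((n - 1 : ℕ) : ℝ)) * q z ^ (n - 1 - 1) ≤ n * q z ^ n :=
    mul_le_mul h1 h2 (by positivity) (by positivity)
  calc (n:ℝ) * (((n - 1 : ℕ) : ℝ) * q z ^ (n - 1 - 1)) ≤ n * (n * q z ^ n) :=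
        mul_le_mul_of_nonneg_left h4 (by positivity)
    _ = n ^ 2 * q z ^ n := by ring

/-- first derivative weights -/
lemma sum_wx_le {n : ℕ} (z : ℝ × ℝ) : ∑ m, wx n z m ^ 2 ≤ (n * √(q z ^ n)) ^ 2 := by
  rcases Nat.eq_zero_or_pos n with hn | hn
  · subst hn
    rw [sum_wx_sq]; simp
  have h := qb hn z
  have h1 := one_le_q z
  have hx : z.1 ^ 2 ≤ q z := by rw [← q_eq]; nlinarith [sq_nonneg z.2]
  have hn1 : (1:ℝ) ≤ n := by exact_mod_cast hn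
  have hq : 0 < q z ^ n := pow_pos (q_pos z) n
  rw [mul_pow, Real.sq_sqrt hq.le]
  have h2 : (n:ℝ) * q z * q z ^ n + n * (n - 1) * z.1 ^ 2 * q z ^ n ≤ q z ^ 2 * (n ^ 2 * q z ^ n) := by
    have h3 : (n:ℝ) * (n - 1) * z.1 ^ 2 ≤ n * (n - 1) * q z :=
      mul_le_mul_of_nonneg_left hx (mul_nonneg (by linarith) (by linarith))
    have h4 : (n:ℝ) ^ 2 * q z ≤ n ^ 2 * q z ^ 2 := by
      refine mul_le_mul_of_nonneg_left ?_ (by positivity)
      nlinarith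
    nlinarith
  have h5 : 0 < q z ^ 2 := by positivity
  exact le_of_mul_le_mul_left (h.le.trans h2) h5

lemma sum_wy_le {n : ℕ} (z : ℝ × ℝ) : ∑ m, wy n z m ^ 2 ≤ (n * √(q z ^ n)) ^ 2 := by
  rcases Nat.eq_zero_or_pos n with hn | hn
  · subst hn
    rw [sum_wy_sq]; simp
  have h := qb' hn z
  have h1 := one_le_q z
  have hx : z.2 ^ 2 ≤ q z := by rw [← q_eq]; nlinarith [sq_nonneg z.1]
  have hn1 : (1:ℝ) ≤ n := by exact_mod_cast hn
  have hq : 0 < q z ^ n := pow_pos (q_pos z) n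
  rw [mul_pow, Real.sq_sqrt hq.le]
  have h2 : (n:ℝ) * q z * q z ^ n + n * (n - 1) * z.2 ^ 2 * q z ^ n ≤ q z ^ 2 * (n ^ 2 * q z ^ n) := by
    have h3 : (n:ℝ) * (n - 1) * z.2 ^ 2 ≤ n * (n - 1) * q z :=
      mul_le_mul_of_nonneg_left hx (mul_nonneg (by linarith) (by linarith))
    have h4 : (n:ℝ) ^ 2 * q z ≤ n ^ 2 * q z ^ 2 := by
      refine mul_le_mul_of_nonneg_left ?_ (by positivity)
      nlinarith
    nlinarith
  have h5 : 0 < q z ^ 2 := by positivity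
  exact le_of_mul_le_mul_left (h.le.trans h2) h5

/-- the coefficients of the first partial derivative -/
def ax (n : ℕ) (m : T n) : ℝ := ka n m * (e0 m).1
def ex (n : ℕ) (m : T n) : ℕ × ℕ := ((e0 m).1 - 1, (e0 m).2)
def ay (n : ℕ) (m : T n) : ℝ := ka n m * (e0 m).2
def ey (n : ℕ) (m : T n) : ℕ × ℕ := ((e0 m).1, (e0 m).2 - 1)

/-- weights of the second derivatives -/
def wxx (n : ℕ) (z : ℝ × ℝ) : T n → ℝ :=
  wt (fun m => ax n m * (ex n m).1) (fun m => ((ex n m).1 - 1, (ex n m).2)) z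
def wxy (n : ℕ) (z : ℝ × ℝ) : T n → ℝ :=
  wt (fun m => ax n m * (ex n m).2) (fun m => ((ex n m).1, (ex n m).2 - 1)) z
def wyx (n : ℕ) (z : ℝ × ℝ) : T n → ℝ :=
  wt (fun m => ay n m * (ey n m).1) (fun m => ((ey n m).1 - 1, (ey n m).2)) z
def wyy (n : ℕ) (z : ℝ × ℝ) : T n → ℝ :=
  wt (fun m => ay n m * (ey n m).2) (fun m => ((ey n m).1, (ey n m).2 - 1)) z

lemma hasFDerivAt_wx (n : ℕ) (c : T n → ℝ × ℝ) (z : ℝ × ℝ) :
    HasFDerivAt (fun z => lin (wx n z) c)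
      ((ContinuousLinearMap.fst ℝ ℝ ℝ).smulRight (lin (wxx n z) c) +
      (ContinuousLinearMap.snd ℝ ℝ ℝ).smulRight (lin (wxy n z) c)) z :=
  hasFDerivAt_Gs (ax n) (ex n) c z

lemma hasFDerivAt_wy (n : ℕ) (c : T n → ℝ × ℝ) (z : ℝ × ℝ) :
    HasFDerivAt (fun z => lin (wy n z) c)
      ((ContinuousLinearMap.fst ℝ ℝ ℝ).smulRight (lin (wyx n z) c) +
      (ContinuousLinearMap.snd ℝ ℝ ℝ).smulRight (lin (wyy n z) c)) z :=
  hasFDerivAt_Gs (ay n) (ey n) c z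

lemma T_sum_le {n : ℕ} {f : T n → ℝ} {g : ℕ × ℕ → ℝ} {K : ℝ}
    (h : ∀ m : T n, f m ≤ K * g m.1) : ∑ m, f m ≤ K * ∑ m ∈ T n, g m := by
  rw [← Finset.sum_coe_sort (T n) g, Finset.mul_sum]
  exact Finset.sum_le_sum fun m _ => h m

lemma sum_wxx (n : ℕ) (z : ℝ × ℝ) : ∑ m, wxx n z m ^ 2 ≤ (n ^ 2 * √(q z ^ n)) ^ 2 := by
  have hq : 0 < q z ^ n := pow_pos (q_pos z) n
  rw [mul_pow, Real.sq_sqrt hq.le]
  have h := I2 n (z.1 ^ 2) (z.2 ^ 2)
  rw [q_eq] at h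
  refine (T_sum_le (K := (n:ℝ) ^ 2) (g := fun m => mc n m * ((m.1 * (((m.1 - 1 : ℕ) : ℝ) *
    (z.1 ^ 2) ^ (m.1 - 1 - 1))) * (z.2 ^ 2) ^ m.2)) fun m => ?_).trans ?_
  · have hm := le_n m
    have h1 : (m.1.1 : ℝ) * ((m.1.1 - 1 : ℕ) : ℝ) ≤ n ^ 2 := by
      have a1 : (m.1.1 : ℝ) ≤ n := by exact_mod_cast (by omega)
      have a2 : (((m.1.1 - 1 : ℕ)) : ℝ) ≤ n := by exact_mod_cast (by omega)
      rw [pow_two]
      exact mul_le_mul a1 a2 (by positivity) (by positivity)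
    have e : wxx n z m ^ 2 = (m.1.1 : ℝ) * ((m.1.1 - 1 : ℕ) : ℝ) *
        (mc n m.1 * ((m.1.1 * (((m.1.1 - 1 : ℕ) : ℝ) *
        (z.1 ^ 2) ^ (m.1.1 - 1 - 1))) * (z.2 ^ 2) ^ m.1.2)) := by
      unfold wxx wt ax ex e0
      rw [← ka_sq]
      simp only
      rw [← pow_mul z.1 2, ← pow_mul z.2 2, mul_comm 2 (m.1.1 - 1 - 1), mul_comm 2 m.1.2]
      ring
    rw [e]
    refine mul_le_mul_of_nonneg_right h1 ?_
    have := mc_nonneg n m.1
    positivity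
  · rw [h]
    calc (n:ℝ) ^ 2 * (n * (((n - 1 : ℕ) : ℝ) * q z ^ (n - 1 - 1)))
        ≤ n ^ 2 * (n ^ 2 * q z ^ n) := mul_le_mul_of_nonneg_left (i2_le n z) (by positivity)
      _ = _ := by ring

lemma sum_wyy (n : ℕ) (z : ℝ × ℝ) : ∑ m, wyy n z m ^ 2 ≤ (n ^ 2 * √(q z ^ n)) ^ 2 := by
  have hq : 0 < q z ^ n := pow_pos (q_pos z) n
  rw [mul_pow, Real.sq_sqrt hq.le]
  have h := I2' n (z.1 ^ 2) (z.2 ^ 2)
  rw [q_eq] at h
  refine (T_sum_le (K := (n:ℝ) ^ 2) (g := fun m => mc n m * ((m.2 * (((m.2 - 1 : ℕ) : ℝ) *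
    (z.2 ^ 2) ^ (m.2 - 1 - 1))) * (z.1 ^ 2) ^ m.1)) fun m => ?_).trans ?_
  · have hm := le_n m
    have h1 : (m.1.2 : ℝ) * ((m.1.2 - 1 : ℕ) : ℝ) ≤ n ^ 2 := by
      have a1 : (m.1.2 : ℝ) ≤ n := by exact_mod_cast (by omega)
      have a2 : (((m.1.2 - 1 : ℕ)) : ℝ) ≤ n := by exact_mod_cast (by omega)
      rw [pow_two]
      exact mul_le_mul a1 a2 (by positivity) (by positivity)
    have e : wyy n z m ^ 2 = (m.1.2 : ℝ) * ((m.1.2 - 1 : ℕ) : ℝ) *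
        (mc n m.1 * ((m.1.2 * (((m.1.2 - 1 : ℕ) : ℝ) *
        (z.2 ^ 2) ^ (m.1.2 - 1 - 1))) * (z.1 ^ 2) ^ m.1.1)) := by
      unfold wyy wt ay ey e0
      rw [← ka_sq]
      simp only
      rw [← pow_mul z.1 2, ← pow_mul z.2 2, mul_comm 2 (m.1.2 - 1 - 1), mul_comm 2 m.1.1]
      ring
    rw [e]
    refine mul_le_mul_of_nonneg_right h1 ?_
    have := mc_nonneg n m.1
    positivity
  · rw [h]
    calc (n:ℝ) ^ 2 * (n * (((n - 1 : ℕ) : ℝ) * q z ^ (n - 1 - 1)))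
        ≤ n ^ 2 * (n ^ 2 * q z ^ n) := mul_le_mul_of_nonneg_left (i2_le n z) (by positivity)
      _ = _ := by ring

lemma sum_wxy (n : ℕ) (z : ℝ × ℝ) : ∑ m, wxy n z m ^ 2 ≤ (n ^ 2 * √(q z ^ n)) ^ 2 := by
  have hq : 0 < q z ^ n := pow_pos (q_pos z) n
  rw [mul_pow, Real.sq_sqrt hq.le]
  have h := I11 n (z.1 ^ 2) (z.2 ^ 2)
  rw [q_eq] at h
  refine (T_sum_le (K := (n:ℝ) ^ 2) (g := fun m => mc n m * ((m.1 * (z.1 ^ 2) ^ (m.1 - 1)) *
    (m.2 * (z.2 ^ 2) ^ (m.2 - 1)))) fun m => ?_).trans ?_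
  · have hm := le_n m
    have h1 : (m.1.1 : ℝ) * (m.1.2 : ℝ) ≤ n ^ 2 := by
      have a1 : (m.1.1 : ℝ) ≤ n := by exact_mod_cast (by omega)
      have a2 : (m.1.2 : ℝ) ≤ n := by exact_mod_cast (by omega)
      rw [pow_two]
      exact mul_le_mul a1 a2 (by positivity) (by positivity)
    have e : wxy n z m ^ 2 = (m.1.1 : ℝ) * (m.1.2 : ℝ) *
        (mc n m.1 * ((m.1.1 * (z.1 ^ 2) ^ (m.1.1 - 1)) * (m.1.2 * (z.2 ^ 2) ^ (m.1.2 - 1)))) := by
      unfold wxy wt ax ex e0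
      rw [← ka_sq]
      simp only
      rw [← pow_mul z.1 2, ← pow_mul z.2 2, mul_comm 2 (m.1.1 - 1), mul_comm 2 (m.1.2 - 1)]
      ring
    rw [e]
    refine mul_le_mul_of_nonneg_right h1 ?_
    have := mc_nonneg n m.1
    positivity
  · rw [h]
    calc (n:ℝ) ^ 2 * (n * (((n - 1 : ℕ) : ℝ) * q z ^ (n - 1 - 1)))
        ≤ n ^ 2 * (n ^ 2 * q z ^ n) := mul_le_mul_of_nonneg_left (i2_le n z) (by positivity)
      _ = _ := by ring

lemma wyx_eq (n : ℕ) (z : ℝ × ℝ) : wyx n z = wxy n z := by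
  funext m
  unfold wyx wxy wt ax ay ex ey e0
  simp only
  ring

/-- the second derivatives -/
lemma norm_second_le {n : ℕ} {c : T n → ℝ × ℝ} {A : ℝ} (hA : 0 ≤ A) (hc : sn c ≤ A ^ 2)
    (z v : ℝ × ℝ) :
    ‖v.1 • lin (wxx n z) c + v.2 • lin (wxy n z) c‖ ≤ 2 * (n ^ 2 * √(q z ^ n) * A) * ‖v‖ ∧
    ‖v.1 • lin (wyx n z) c + v.2 • lin (wyy n z) c‖ ≤ 2 * (n ^ 2 * √(q z ^ n) * A) * ‖v‖ := by
  have hs : 0 ≤ (n:ℝ) ^ 2 * √(q z ^ n) := by positivity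
  refine ⟨norm_comb_le v _ _ (norm_lin_le' hs (sum_wxx n z) hA hc)
    (norm_lin_le' hs (sum_wxy n z) hA hc), norm_comb_le v _ _ ?_
    (norm_lin_le' hs (sum_wyy n z) hA hc)⟩
  rw [wyx_eq]
  exact norm_lin_le' hs (sum_wxy n z) hA hc

/-- the size of the weight near a point -/
lemma q_le (z p : ℝ × ℝ) : q z ≤ q p * (1 + 2 * ‖z - p‖) ^ 2 := by
  have h1 := one_le_q p
  have e1 : |z.1 - p.1| ≤ ‖z - p‖ := norm_fst_le (z - p)
  have e2 : |z.2 - p.2| ≤ ‖z - p‖ := norm_snd_le (z - p)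
  set d := ‖z - p‖ with hd
  have hd0 : 0 ≤ d := norm_nonneg _
  have a1 : |p.1| ≤ q p := by
    rw [← q_eq, abs_le]
    constructor <;> nlinarith [sq_nonneg p.2, sq_nonneg (p.1 + 1), sq_nonneg (p.1 - 1)]
  have a2 : |p.2| ≤ q p := by
    rw [← q_eq, abs_le]
    constructor <;> nlinarith [sq_nonneg p.1, sq_nonneg (p.2 + 1), sq_nonneg (p.2 - 1)]
  have b1 : p.1 * (z.1 - p.1) ≤ q p * d := by
    refine (le_abs_self _).trans ?_
    rw [abs_mul]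
    exact mul_le_mul a1 e1 (abs_nonneg _) (by linarith)
  have b2 : p.2 * (z.2 - p.2) ≤ q p * d := by
    refine (le_abs_self _).trans ?_
    rw [abs_mul]
    exact mul_le_mul a2 e2 (abs_nonneg _) (by linarith)
  have c1 : (z.1 - p.1) ^ 2 ≤ d ^ 2 := by rw [← sq_abs]; gcongr
  have c2 : (z.2 - p.2) ^ 2 ≤ d ^ 2 := by rw [← sq_abs (z.2 - p.2)]; gcongr
  have e : q z = q p + 2 * (p.1 * (z.1 - p.1) + p.2 * (z.2 - p.2)) +
      ((z.1 - p.1) ^ 2 + (z.2 - p.2) ^ 2) := by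
    rw [← q_eq, ← q_eq]; ring
  rw [e]
  nlinarith [sq_nonneg d]

lemma sqrt_q_pow_le {n : ℕ} {z p : ℝ × ℝ} (h : ‖z - p‖ * (100 * n) ≤ 1) :
    √(q z ^ n) ≤ 2 * √(q p ^ n) := by
  have hq : 0 < q p ^ n := pow_pos (q_pos p) n
  rw [Real.sqrt_le_iff]
  refine ⟨by positivity, ?_⟩
  rw [mul_pow, Real.sq_sqrt hq.le]
  have h1 : q z ^ n ≤ (q p * (1 + 2 * ‖z - p‖) ^ 2) ^ n :=
    pow_le_pow_left₀ (q_pos z).le (q_le z p) n
  have hd0 : 0 ≤ ‖z - p‖ := norm_nonneg _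
  have h2 : ((1 + 2 * ‖z - p‖) ^ 2) ^ n ≤ 4 := by
    have h3 : 1 + 2 * ‖z - p‖ ≤ Real.exp (2 * ‖z - p‖) := by
      rw [add_comm]; exact Real.add_one_le_exp _
    have h4 : ((1 + 2 * ‖z - p‖) ^ 2) ^ n ≤ (Real.exp (2 * ‖z - p‖) ^ 2) ^ n := by gcongr
    have h5 : (Real.exp (2 * ‖z - p‖) ^ 2) ^ n = Real.exp (4 * (‖z - p‖ * n)) := by
      rw [← pow_mul, ← Real.exp_nat_mul]
      congr 1
      push_cast
      ring
    have h6 : 4 * (‖z - p‖ * n) ≤ 1 := by nlinarith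
    have h7 : Real.exp (4 * (‖z - p‖ * n)) ≤ Real.exp 1 := Real.exp_le_exp.2 h6
    have h8 := Real.exp_one_lt_d9
    linarith
  rw [mul_pow] at h1
  have h3 : q p ^ n * ((1 + 2 * ‖z - p‖) ^ 2) ^ n ≤ q p ^ n * 4 :=
    mul_le_mul_of_nonneg_left h2 hq.le
  linarith

theorem e : S_E := by
  intro n hn A B t hA ht ht1 c hc hnd p hpB hp
  have hn1 : (1:ℝ) ≤ n := by exact_mod_cast hn
  have hn0 : (0:ℝ) < n := by linarith
  have hA0 : 0 < A := by linarith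
  have hq : 0 < q p ^ n := pow_pos (q_pos p) n
  have hsq : 0 < √(q p ^ n) := Real.sqrt_pos.2 hq
  have h8 : 8 * (A * n) / t = 4 * (2 * (A * n) / t) := by ring
  rw [h8]
  refine local_zone (μ := t * √(q p ^ n)) (Λ₁ := 2 * (A * n) / t) (κ := 8 * (A * n ^ 2) / t)
    (fun z => (hasFDerivAt_F n c z).differentiableAt) hp (by positivity) ?_ (by positivity)
    (by positivity) ?_ (fun v => hnd p hpB hp v) (fun v => ?_) (fun z hz v => ?_)
  · rw [le_div_iff₀ ht]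
    nlinarith
  · have : A * (n:ℝ) ^ 2 ≠ 0 := by positivity
    have e1 : 8 * (8 * (A * (n:ℝ) ^ 2) / t) * (t / (100 * (A * n ^ 2))) = 64 / 100 := by
      field_simp
      norm_num
    rw [e1]; norm_num
  · rw [fderiv_F]
    have hs : 0 ≤ (n:ℝ) * √(q p ^ n) := by positivity
    refine (norm_comb_le v _ _ (norm_lin_le' hs (sum_wx_le p) hA0.le hc)
      (norm_lin_le' hs (sum_wy_le p) hA0.le hc)).trans (le_of_eq ?_)
    field_simp
  · set r : ℝ := t / (100 * (A * n ^ 2)) with hr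
    have hrn : ∀ x : ℝ × ℝ, ‖x - p‖ ≤ r → ‖x - p‖ * (100 * n) ≤ 1 := by
      intro x hx
      have h1 : r * (100 * n) ≤ 1 := by
        rw [hr, div_mul_eq_mul_div, div_le_one (by positivity)]
        have h2 : t * n ≤ A * n ^ 2 := by nlinarith
        linarith
      have h2 : ‖x - p‖ * (100 * n) ≤ r * (100 * n) :=
        mul_le_mul_of_nonneg_right hx (by positivity)
      linarith
    have hball : ∀ x ∈ Metric.closedBall p ‖z - p‖, √(q x ^ n) ≤ 2 * √(q p ^ n) := by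
      intro x hx
      rw [mem_closedBall_iff_norm] at hx
      exact sqrt_q_pow_le (hrn x (hx.trans hz))
    set K : ℝ := 4 * (n ^ 2 * √(q p ^ n) * A) with hK
    have hK0 : 0 ≤ K := by positivity
    have hbx : ∀ x ∈ Metric.closedBall p ‖z - p‖,
        ‖(ContinuousLinearMap.fst ℝ ℝ ℝ).smulRight (lin (wxx n x) c) +
          (ContinuousLinearMap.snd ℝ ℝ ℝ).smulRight (lin (wxy n x) c)‖ ≤ K := by
      intro x hx
      refine ContinuousLinearMap.opNorm_le_bound _ hK0 fun w => ?_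
      have h1 := (norm_second_le hA0.le hc x w).1
      have h2 := hball x hx
      simp only [ContinuousLinearMap.add_apply, ContinuousLinearMap.smulRight_apply,
        ContinuousLinearMap.coe_fst', ContinuousLinearMap.coe_snd']
      refine h1.trans (mul_le_mul_of_nonneg_right ?_ (norm_nonneg _))
      have h3 : (n:ℝ) ^ 2 * √(q x ^ n) * A ≤ n ^ 2 * (2 * √(q p ^ n)) * A := by gcongr
      rw [hK]; linarith
    have hby : ∀ x ∈ Metric.closedBall p ‖z - p‖,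
        ‖(ContinuousLinearMap.fst ℝ ℝ ℝ).smulRight (lin (wyx n x) c) +
          (ContinuousLinearMap.snd ℝ ℝ ℝ).smulRight (lin (wyy n x) c)‖ ≤ K := by
      intro x hx
      refine ContinuousLinearMap.opNorm_le_bound _ hK0 fun w => ?_
      have h1 := (norm_second_le hA0.le hc x w).2
      have h2 := hball x hx
      simp only [ContinuousLinearMap.add_apply, ContinuousLinearMap.smulRight_apply,
        ContinuousLinearMap.coe_fst', ContinuousLinearMap.coe_snd']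
      refine h1.trans (mul_le_mul_of_nonneg_right ?_ (norm_nonneg _))
      have h3 : (n:ℝ) ^ 2 * √(q x ^ n) * A ≤ n ^ 2 * (2 * √(q p ^ n)) * A := by gcongr
      rw [hK]; linarith
    have hzb : z ∈ Metric.closedBall p ‖z - p‖ := by rw [mem_closedBall_iff_norm]
    have hpb : p ∈ Metric.closedBall p ‖z - p‖ := Metric.mem_closedBall_self (norm_nonneg _)
    have hx1 := (convex_closedBall p ‖z - p‖).norm_image_sub_le_of_norm_hasFDerivWithin_le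
      (f := fun z => lin (wx n z) c) (C := K)
      (fun x _ => (hasFDerivAt_wx n c x).hasFDerivWithinAt) hbx hpb hzb
    have hy1 := (convex_closedBall p ‖z - p‖).norm_image_sub_le_of_norm_hasFDerivWithin_le
      (f := fun z => lin (wy n z) c) (C := K)
      (fun x _ => (hasFDerivAt_wy n c x).hasFDerivWithinAt) hby hpb hzb
    rw [fderiv_F, fderiv_F]
    have e1 : v.1 • lin (wx n z) c + v.2 • lin (wy n z) c -
        (v.1 • lin (wx n p) c + v.2 • lin (wy n p) c) =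
        v.1 • (lin (wx n z) c - lin (wx n p) c) + v.2 • (lin (wy n z) c - lin (wy n p) c) := by
      rw [smul_sub, smul_sub]; abel
    rw [e1]
    refine (norm_comb_le v _ _ hx1 hy1).trans (le_of_eq ?_)
    rw [hK]
    field_simp
    ring

end

end Pool.Agent.Helper63K9.KS
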