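import Pool.Agent.Helper63K9.KS.Leaves
import Pool.Agent.H709U.H1
import Pool.Agent.H709U.H2
import Pool.Agent.H709U.H3
import Pool.Agent.H709U.H4
import Pool.Agent.H709U.M0
import Pool.Agent.H709U.MB

/-! Leaf F: closed orbits which are not small (helper65). -/

open Real Set MeasureTheory Filter
open scoped ENNReal

namespace Pool.Agent.Helper63K9.KS

noncomputable section

open Pool.Agent.H709R2 (rot rotc wedge field ClosedOrbit divW winv sq_rot continuous_rot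
  contDiff_field dist_le_len)
open Pool.Agent.H709U
open Pool.Agent.H709Q (Maj majRules)

lemma per_deriv {γ γ' : ℝ → ℝ × ℝ} {T : ℝ} (hd : ∀ t, HasDerivAt γ (γ' t) t)
    (hper : ∀ t, γ (t + T) = γ t) : ∀ t, γ' (t + T) = γ' t := by
  intro t
  have h1 : HasDerivAt (fun s => γ (s + T)) (γ' (t + T)) t := by
    simpa using (hd (t + T)).comp_add_const t T
  have h2 : (fun s => γ (s + T)) = γ := funext hper
  rw [h2] at h1
  exact h1.unique (hd t)

/-- weighted length of a closed curve which touches a disc and is not small -/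
lemma wlen_ge {γ γ' : ℝ → ℝ × ℝ} {T : ℝ} (hT : 0 < T) (hd : ∀ t, HasDerivAt γ (γ' t) t)
    (hc : Continuous γ') (hper : ∀ t, γ (t + T) = γ t) {p : ℝ × ℝ} {R : ℝ} (hR : 0 < R)
    {t₁ : ℝ} (ht1' : H709R2.sq (γ t₁ - p) ≤ R ^ 2)
    (hy : ∃ y ∈ range γ, (R / 5) ^ 2 ≤ H709R2.sq (y - γ t₁)) :
    R / 200 ≤ ∫ t in (0:ℝ)..T, chi p R (γ t) * √(H709R2.sq (γ' t)) := by
  have hγ : Continuous γ := continuous_iff_continuousAt.2 fun t => (hd t).continuousAt
  have hper' := per_deriv hd hper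
  have hP : Function.Periodic (fun t => chi p R (γ t) * √(H709R2.sq (γ' t))) T := by
    intro t
    simp only [hper, hper']
  have hshift : ∫ t in (0:ℝ)..T, chi p R (γ t) * √(H709R2.sq (γ' t)) =
      ∫ t in t₁..(t₁ + T), chi p R (γ t) * √(H709R2.sq (γ' t)) := by
    have := hP.intervalIntegral_add_eq 0 t₁
    rwa [zero_add] at this
  have hgoal : ∀ s, t₁ ≤ s → s ≤ t₁ + T → (∀ t ∈ Ioo t₁ s, H709R2.sq (γ t - p) ≤ 4 * R ^ 2) →
      (R / 5) ^ 2 ≤ H709R2.sq (γ s - γ t₁) →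
      R / 200 ≤ ∫ t in (0:ℝ)..T, chi p R (γ t) * √(H709R2.sq (γ' t)) := by
    intro s h1 h2 h3 h4
    rw [hshift]
    have h5 := H3.part hd hc hR h1 h2 h3
    have h6 : R / 5 ≤ √(H709R2.sq (γ s - γ t₁)) := Real.le_sqrt_of_sq_le h4
    linarith
  by_cases hcase : ∀ t ∈ Icc t₁ (t₁ + T), H709R2.sq (γ t - p) ≤ 4 * R ^ 2
  · obtain ⟨y, ⟨s, rfl⟩, hs⟩ := hy
    obtain ⟨s', hs', hss⟩ := Function.Periodic.exists_mem_Ico (f := γ) hper hT s t₁
    rw [hss] at hs
    exact hgoal s' hs'.1 hs'.2.le (fun t ht => hcase t ⟨ht.1.le, (ht.2.trans hs'.2).le⟩) hs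
  · push Not at hcase
    obtain ⟨t₂, ht2, ht2'⟩ := hcase
    set S : Set ℝ := Icc t₁ t₂ ∩ {t | 4 * R ^ 2 ≤ H709R2.sq (γ t - p)} with hS
    have hScomp : IsCompact S := isCompact_Icc.inter_right
      (isClosed_le continuous_const (H3.cont_sq'.comp (hγ.sub continuous_const)))
    have hSne : S.Nonempty := ⟨t₂, ⟨ht2.1, le_rfl⟩, ht2'.le⟩
    obtain ⟨t₃, ht3, hmin⟩ := hScomp.exists_isLeast hSne
    refine hgoal t₃ ht3.1.1 (ht3.1.2.trans ht2.2) (fun t ht => ?_) ?_
    · by_contra hcon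
      push Not at hcon
      have : t₃ ≤ t := hmin ⟨⟨ht.1.le, ht.2.le.trans ht3.1.2⟩, hcon.le⟩
      linarith [ht.2]
    · have h1 := H3.sq_sub_ge hR (a := γ t₃ - p) (b := γ t₁ - p) ht3.2 ht1'
      have h2 : γ t₃ - p - (γ t₁ - p) = γ t₃ - γ t₁ := by abel
      rw [h2] at h1
      nlinarith [sq_nonneg R]

theorem f : S_F := by
  intro n P Q hP hQ R hRpos
  set X := field P Q with hX
  have hXc : ContDiff ℝ 2 X := contDiff_field P Q
  have key := h4_exhaust (fun α => rf X α)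
    (fun α C => ∃ x ∈ C, ∃ y ∈ C, H709R2.sq x ≤ R ^ 2 ∧ (R / 5) ^ 2 ≤ H709R2.sq (y - x))
    (8000 * (n + 1)) ?_
  · exact key
  intro m
  obtain ⟨hm1, hm2⟩ := H709U.h2 n P Q hP hQ (0 : ℝ × ℝ) R hRpos
  have hw : ∀ z, X z ≠ 0 → ContDiffAt ℝ 1 (fun z => chi (0 : ℝ × ℝ) R z * winv X z) z :=
    fun z hz => (H709U.h1 X hXc 0 z R 0 hRpos hz).1
  obtain ⟨g, hg1, hg2, hg3⟩ := mb X hXc (fun z => chi (0 : ℝ × ℝ) R z * winv X z) hw (h4Box m)
    (h4Box_compact m) _ hm1 (R / 200) (by positivity) (by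
      intro α _ z _ hz
      exact ENNReal.ofReal_le_ofReal (H709U.h1 X hXc 0 z R α hRpos hz).2)
  refine ⟨g, hg1, ?_, ?_⟩
  · intro α hα
    refine le_trans ?_ (hg2 α hα)
    apply ENat.toENNReal_mono
    apply encard_le_encard
    rintro C ⟨hC1, ⟨x, hx, y, hy, hx1, hxy⟩, hC4⟩
    obtain ⟨γ, T, hγ, rfl⟩ := m0 X hXc α C hC1
    refine ⟨γ, T, hγ, rfl, hC4, ?_⟩
    have hγc : Continuous γ := continuous_iff_continuousAt.2 fun t => (hγ.ode t).continuousAt
    have hYc : Continuous fun t => rf X α (γ t) :=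
      (continuous_rot α).comp (hXc.continuous.comp hγc)
    obtain ⟨t₀, rfl⟩ := hx
    have h3 := wlen_ge (γ' := fun t => rf X α (γ t)) hγ.pos hγ.ode hYc hγ.per (p := 0) hRpos
      (t₁ := t₀) (by rw [sub_zero]; exact hx1) ⟨y, hy, hxy⟩
    refine h3.trans (le_of_eq ?_)
    congr 1
    funext t
    have hr : H709R2.sq (rf X α (γ t)) = H709R2.sq (X (γ t)) := sq_rot _ _
    rw [hr]
    unfold winv
    rw [mul_assoc]
    congr 1
    rw [← div_eq_inv_mul, Real.div_sqrt]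
  · refine (setLIntegral_le_lintegral _ _).trans (hg3.trans ?_)
    refine (mul_le_mul_right ((setLIntegral_le_lintegral _ _).trans hm2) _).trans ?_
    rw [← ENNReal.ofReal_mul (by positivity)]
    apply ENNReal.ofReal_le_ofReal
    have e1 : 1 / (R / 200) * ((2 * n + 4) * π ^ 2 * R) = 200 * (2 * n + 4) * π ^ 2 := by
      field_simp
    rw [e1]
    have hpi : π ^ 2 ≤ 9.9225 := by
      have h1 := Real.pi_lt_d2
      have h0 := Real.pi_pos
      nlinarith
    have hn : (0 : ℝ) ≤ n := Nat.cast_nonneg n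
    nlinarith [mul_le_mul_of_nonneg_left hpi (by positivity : (0:ℝ) ≤ 200 * (2 * n + 4))]

/-- length of a closed curve -/
lemma len_ge {γ γ' : ℝ → ℝ × ℝ} {T : ℝ} (hT : 0 < T) (hd : ∀ t, HasDerivAt γ (γ' t) t)
    (hc : Continuous γ') (hper : ∀ t, γ (t + T) = γ t) {d : ℝ} {s t : ℝ}
    (h : d ^ 2 ≤ H709R2.sq (γ s - γ t)) :
    2 * d ≤ ∫ u in (0:ℝ)..T, √(H709R2.sq (γ' u)) := by
  have hper' := per_deriv hd hper
  have hP : Function.Periodic (fun t => √(H709R2.sq (γ' t))) T := by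
    intro t
    simp only [hper']
  have hshift : ∫ u in (0:ℝ)..T, √(H709R2.sq (γ' u)) =
      ∫ u in t..(t + T), √(H709R2.sq (γ' u)) := by
    have := hP.intervalIntegral_add_eq 0 t
    rwa [zero_add] at this
  have hf : Continuous fun u => √(H709R2.sq (γ' u)) := (H3.cont_sq'.comp hc).sqrt
  obtain ⟨s', hs', hss⟩ := Function.Periodic.exists_mem_Ico (f := γ) hper hT s t
  rw [hss] at h
  have h1 := dist_le_len hd hc hs'.1
  have h2 := dist_le_len hd hc hs'.2.le
  rw [hper t] at h2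
  have h3 : H709R2.sq (γ t - γ s') = H709R2.sq (γ s' - γ t) := by
    unfold H709R2.sq
    simp only [Prod.fst_sub, Prod.snd_sub]
    ring
  rw [h3] at h2
  have h4 : d ≤ √(H709R2.sq (γ s' - γ t)) := Real.le_sqrt_of_sq_le h
  rw [hshift, ← intervalIntegral.integral_add_adjacent_intervals (hf.intervalIntegrable t s')
    (hf.intervalIntegrable s' (t + T))]
  linarith

theorem f2 : S_F2 := by
  intro X hXc Ω hΩ d hd
  have hhm : Measurable (hk X) := by
    unfold hk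
    exact (H709R2.measurable_kernel hXc (1, 0)).add (H709R2.measurable_kernel hXc (0, 1))
  obtain ⟨g, hg1, hg2, hg3⟩ := mb X hXc (winv X) (fun z hz => H709R2.contDiffAt_winv hXc hz) Ω hΩ
    (hk X) hhm (2 * d) (by positivity) (by
      intro α _ z _ hz
      have h1 := H709R2.abs_divW_winv_le hXc hz α
      unfold hk
      have hs : 0 ≤ H709R2.sq (X z) := by unfold H709R2.sq; positivity
      rw [← ENNReal.ofReal_add (by positivity) (by positivity)]
      exact ENNReal.ofReal_le_ofReal h1)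
  refine ⟨g, hg1, ?_, (setLIntegral_le_lintegral _ _).trans hg3⟩
  intro α hα
  refine le_trans ?_ (hg2 α hα)
  apply ENat.toENNReal_mono
  apply encard_le_encard
  rintro C ⟨hC1, hC2, x, hx, y, hy, hxy⟩
  obtain ⟨γ, T, hγ, rfl⟩ := m0 X hXc α C hC1
  refine ⟨γ, T, hγ, rfl, hC2, ?_⟩
  have hγc : Continuous γ := continuous_iff_continuousAt.2 fun t => (hγ.ode t).continuousAt
  have hYc : Continuous fun t => rf X α (γ t) :=
    (continuous_rot α).comp (hXc.continuous.comp hγc)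
  obtain ⟨s, rfl⟩ := hx
  obtain ⟨t, rfl⟩ := hy
  have h3 := len_ge (γ' := fun t => rf X α (γ t)) hγ.pos hγ.ode hYc hγ.per hxy
  refine h3.trans (le_of_eq ?_)
  congr 1
  funext t
  have hr : H709R2.sq (rf X α (γ t)) = H709R2.sq (X (γ t)) := sq_rot _ _
  rw [hr]
  unfold winv
  rw [← div_eq_inv_mul, Real.div_sqrt]

end

end Pool.Agent.Helper63K9.KS
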