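import Pool.Agent.Helper63K9.KS.Leaves
import Pool.Agent.W960.HR.Law

/-! Leaf G: the exceptional coefficients. -/

open Real Set MeasureTheory
open scoped ENNReal

namespace Pool.Agent.Helper63K9.KS

noncomputable section

open Pool.Agent.H709R2 (fld rot rotc NP g2 wedge)
open Pool.Agent.W960.HR

/-- the part of the series of `phi_le_tsum` -/
lemma exists_tail {S : Finset (ℕ × ℕ)} {n : ℕ} (hF : Full n S) (μ : S → Measure (ℝ × ℝ))
    [∀ m, IsProbabilityMeasure (μ m)] {D W : ℝ} (hD1 : 1 ≤ D) (hW1 : 1 ≤ W) (hD : Dens μ D)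
    (hW : Mom μ W) :
    ∃ T : (S → ℝ × ℝ) → ℝ≥0∞, Measurable T ∧
      (∀ c, Phi c ≤ ENNReal.ofReal (bk n D W 0) * (1 + n * NZ c) + T c) ∧
      ∫⁻ c, T c ∂Measure.pi μ ≤ ENNReal.ofReal (191000000 * (1 + Real.log (n * D * W))) := by
  have hn := hF.one_le
  have hn1 : (1:ℝ) ≤ n := by exact_mod_cast hn
  have hn0 : (0:ℝ) < n := by linarith
  set P := Measure.pi μ with hP
  set l := Real.log (n * D * W) with hl
  have hl0 : 0 ≤ l := Real.log_nonneg
    (one_le_mul_of_one_le_of_one_le (one_le_mul_of_one_le_of_one_le hn1 hD1) hW1)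
  have hb : ∀ k, 0 ≤ bk n D W k := fun k => by linarith [bk_ge hn hD1 hW1 k]
  set E : ℕ → Set (S → ℝ × ℝ) := fun k =>
    toMeasurable P {c | ¬ Good n c (Mk n W k) (tk n D W k)} with hE
  set T : (S → ℝ × ℝ) → ℝ≥0∞ := fun c => ∑' k : ℕ,
      (E k).indicator (fun _ => ENNReal.ofReal (bk n D W (k + 1) * (2 * n ^ 3))) c with hT
  have hTm : Measurable T := Measurable.tsum fun k =>
    measurable_const.indicator (measurableSet_toMeasurable _ _)
  have h1 : ∀ c : S → ℝ × ℝ, Phi c ≤ ENNReal.ofReal (bk n D W 0) * (1 + n * NZ c) + T c := by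
    intro c
    refine (phi_le_tsum hF hD1 hW1 c).trans (add_le_add le_rfl (ENNReal.tsum_le_tsum fun k => ?_))
    exact indicator_le_indicator_of_subset (subset_toMeasurable _ _) (fun _ => zero_le) c
  refine ⟨T, hTm, h1, ?_⟩
  simp only [hT]
  rw [lintegral_tsum fun k =>
    (measurable_const.indicator (measurableSet_toMeasurable _ _)).aemeasurable]
  have h2 : ∀ k, ∫⁻ c, (E k).indicator
      (fun _ => ENNReal.ofReal (bk n D W (k + 1) * (2 * n ^ 3))) c ∂P ≤
      ENNReal.ofReal (bk n D W (k + 1) * (4 * (1 / 2) ^ k)) := by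
    intro k
    rw [lintegral_indicator (measurableSet_toMeasurable _ _), setLIntegral_const,
      measure_toMeasurable]
    refine (mul_le_mul_right (prob_level hF μ hD1 hW1 hD hW k) _).trans ?_
    have h3 := hb (k + 1)
    rw [← ENNReal.ofReal_mul (by positivity)]
    apply ENNReal.ofReal_le_ofReal
    have h5 : (1 / 2 : ℝ) ^ k = 1 / 2 ^ k := by rw [one_div, one_div, inv_pow]
    rw [h5]
    unfold lk
    refine le_of_eq ?_
    field_simp
    ring
  set a : ℝ := 700000 * (24 + 32 * l) with ha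
  set b : ℝ := 3500000 with hbd
  have hbk : ∀ k, bk n D W k = a + b * k := by
    intro k
    unfold bk
    rw [ha, hbd, ← hl]; ring
  have hs1 : HasSum (fun k : ℕ => ((1 / 2 : ℝ)) ^ k) 2 := hasSum_geometric_two
  have hs2 : HasSum (fun k : ℕ => (k : ℝ) * (1 / 2) ^ k) 2 := by
    have := hasSum_coe_mul_geometric_of_norm_lt_one (r := (1 / 2 : ℝ)) (by norm_num)
    norm_num at this ⊢
    exact this
  have hs : HasSum (fun k : ℕ => bk n D W (k + 1) * (4 * (1 / 2) ^ k)) (8 * a + 16 * b) := by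
    have h3 := ((hs1.mul_left (4 * (a + b))).add (hs2.mul_left (4 * b)))
    have e : 4 * (a + b) * 2 + 4 * b * 2 = 8 * a + 16 * b := by ring
    rw [e] at h3
    have e' : (fun k : ℕ => bk n D W (k + 1) * (4 * (1 / 2) ^ k)) =
        fun k : ℕ => 4 * (a + b) * (1 / 2) ^ k + 4 * b * (k * (1 / 2) ^ k) := by
      funext k
      rw [hbk]
      push_cast
      ring
    rw [e']
    exact h3
  refine (ENNReal.tsum_le_tsum h2).trans ?_
  rw [← ENNReal.ofReal_tsum_of_nonneg (fun k => mul_nonneg (hb _) (by positivity)) hs.summable,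
    hs.tsum_eq]
  apply ENNReal.ofReal_le_ofReal
  rw [ha, hbd]
  linarith

/-! ### the laws of the coefficients -/

/-- the law of the coefficient of a monomial -/
def km (n : ℕ) (m : T n) : Measure (ℝ × ℝ) := g2.map fun v => ka n m • v

lemma one_le_mc {n : ℕ} {m : ℕ × ℕ} (h : m.1 + m.2 ≤ n) : 1 ≤ mc n m := by
  unfold mc
  have h1 : (1:ℝ) ≤ (n.choose (m.1 + m.2) : ℝ) := by
    exact_mod_cast Nat.choose_pos h
  have h2 : (1:ℝ) ≤ ((m.1 + m.2).choose m.1 : ℝ) := by
    exact_mod_cast Nat.choose_pos (Nat.le_add_right _ _)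
  exact one_le_mul_of_one_le_of_one_le h1 h2

lemma one_le_ka {n : ℕ} (m : T n) : 1 ≤ ka n m := by
  unfold ka
  rw [Real.one_le_sqrt]
  exact one_le_mc (mem_T.1 m.2)

lemma mc_le {n : ℕ} {m : ℕ × ℕ} (h : m ∈ T n) : mc n m ≤ 3 ^ n := by
  have h1 := I0 n 1 1
  simp only [one_pow, mul_one] at h1
  have h2 : mc n m ≤ ∑ m ∈ T n, mc n m :=
    Finset.single_le_sum (f := mc n) (fun i _ => mc_nonneg n i) h
  rw [h1] at h2
  norm_num at h2
  exact h2

lemma measurable_sm (a : ℝ) : Measurable fun v : ℝ × ℝ => a • v :=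
  (continuous_const_smul a).measurable

instance (n : ℕ) (m : T n) : IsProbabilityMeasure (km n m) :=
  Measure.isProbabilityMeasure_map (measurable_sm _).aemeasurable

lemma dens_km (n : ℕ) : Dens (km n) 1 := by
  intro m B
  rw [ENNReal.ofReal_one, one_mul]
  refine (measure_mono (subset_toMeasurable volume B)).trans ?_
  rw [← measure_toMeasurable B]
  set B' := toMeasurable volume B with hB'
  have hm : MeasurableSet B' := measurableSet_toMeasurable _ _
  unfold km
  rw [Measure.map_apply (measurable_sm _) hm]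
  refine (g2_le _).trans ?_
  have h1 := one_le_ka m
  have h0 : ka n m ≠ 0 := by positivity
  rw [Measure.addHaar_preimage_smul volume h0]
  have h2 : |(ka n m ^ Module.finrank ℝ (ℝ × ℝ))⁻¹| ≤ 1 := by
    rw [abs_of_nonneg (by positivity)]
    exact inv_le_one_of_one_le₀ (one_le_pow₀ h1)
  calc ENNReal.ofReal |(ka n m ^ Module.finrank ℝ (ℝ × ℝ))⁻¹| * volume B'
      ≤ 1 * volume B' := by
        gcongr
        exact ENNReal.ofReal_le_one.2 h2
    _ = volume B' := one_mul _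

lemma mom_km (n : ℕ) : Mom (km n) (2 * 3 ^ n) := by
  intro m
  unfold km
  rw [lintegral_map (by fun_prop) (measurable_sm _)]
  have h1 : ∀ v : ℝ × ℝ, ENNReal.ofReal ((ka n m • v).1 ^ 2 + (ka n m • v).2 ^ 2) =
      ENNReal.ofReal (mc n m.1) * ENNReal.ofReal (v.1 ^ 2 + v.2 ^ 2) := by
    intro v
    rw [← ENNReal.ofReal_mul (mc_nonneg _ _), ← ka_sq]
    congr 1
    simp only [Prod.smul_fst, Prod.smul_snd, smul_eq_mul]
    ring
  simp only [h1]
  rw [lintegral_const_mul _ (by fun_prop)]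
  have h2 := mom_g2 (S := T n) m
  calc ENNReal.ofReal (mc n m.1) * ∫⁻ v : ℝ × ℝ, ENNReal.ofReal (v.1 ^ 2 + v.2 ^ 2) ∂g2
      ≤ ENNReal.ofReal (3 ^ n) * ENNReal.ofReal 2 :=
        mul_le_mul' (ENNReal.ofReal_le_ofReal (mc_le m.2)) h2
    _ = ENNReal.ofReal (2 * 3 ^ n) := by
        rw [← ENNReal.ofReal_mul (by positivity), mul_comm]

lemma measurable_kc (n : ℕ) : Measurable (kc n) := by
  unfold kc
  refine measurable_pi_lambda _ fun m => ?_
  exact (measurable_sm _).comp (measurable_pi_apply m)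

lemma map_kc (n : ℕ) : (GP (T n)).map (kc n) = Measure.pi (km n) := by
  rw [GP_eq]
  exact Measure.pi_map_pi (f := fun (m : T n) (v : ℝ × ℝ) => ka n m • v)
    fun m => (measurable_sm _).aemeasurable

lemma log_le {n : ℕ} (hn : 1 ≤ n) : Real.log (n * 1 * (2 * 3 ^ n)) ≤ 2 * n := by
  have hn1 : (1:ℝ) ≤ n := by exact_mod_cast hn
  have h1 : 2 * (n:ℝ) ≤ 2 ^ n := by
    obtain ⟨k, rfl⟩ := Nat.exists_eq_add_of_le' hn
    have h2 : k + 1 ≤ 2 ^ k := Nat.lt_two_pow_self
    have h3 : ((k:ℝ) + 1) ≤ 2 ^ k := by exact_mod_cast h2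
    rw [pow_succ]
    push_cast
    linarith
  have h2 : (n:ℝ) * 1 * (2 * 3 ^ n) ≤ 6 ^ n := by
    have h3 : (6:ℝ) ^ n = 2 ^ n * 3 ^ n := by rw [← mul_pow]; norm_num
    rw [h3]
    calc (n:ℝ) * 1 * (2 * 3 ^ n) = 2 * n * 3 ^ n := by ring
      _ ≤ 2 ^ n * 3 ^ n := by gcongr
  refine (Real.log_le_log (by positivity) h2).trans ?_
  rw [Real.log_pow]
  have h4 : Real.log 6 ≤ 2 := by
    rw [Real.log_le_iff_le_exp (by norm_num)]
    have h5 : Real.exp 2 = Real.exp 1 * Real.exp 1 := by rw [← Real.exp_add]; norm_num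
    rw [h5]
    nlinarith [Real.exp_one_gt_d9]
  nlinarith

/-- **Leaf G** -/
theorem g : S_G := by
  intro n hn E hE hE3
  have hn1 : (1:ℝ) ≤ n := by exact_mod_cast hn
  have hF := full_T hn
  have hW1 : (1:ℝ) ≤ 2 * 3 ^ n := by
    have : (1:ℝ) ≤ 3 ^ n := one_le_pow₀ (by norm_num)
    linarith
  obtain ⟨T', hTm, hTle, hTi⟩ := exists_tail hF (km n) le_rfl hW1 (dens_km n) (mom_km n)
  have hNZ : ∀ᵐ c ∂GP (T n), NZ (kc n c) ≤ (n:ℝ≥0∞) ^ 2 := by
    have h1 : ∀ᵐ c ∂(GP (T n)).map (kc n), NZ c ≤ (n:ℝ≥0∞) ^ 2 := by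
      rw [map_kc]
      filter_upwards [ae_good hF (km n) le_rfl hW1 (dens_km n) (mom_km n)] with c hc
      obtain ⟨k, hk⟩ := hc
      exact (phi_le_bk hF le_rfl hW1 k hk).2
    exact ae_of_ae_map (measurable_kc n).aemeasurable h1
  set b0 := bk n 1 (2 * 3 ^ n) 0 with hb0
  have hb1 : 1 ≤ b0 := bk_ge hn le_rfl hW1 0
  have hb2 : b0 ≤ 61600000 * n := by
    rw [hb0]
    unfold bk
    have := log_le hn
    push_cast
    nlinarith
  have h1 : ∫⁻ c in E, Phi (kc n c) ∂GP (T n) ≤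
      ∫⁻ c in E, (ENNReal.ofReal b0 * (1 + n * (n:ℝ≥0∞) ^ 2) + T' (kc n c)) ∂GP (T n) := by
    refine lintegral_mono_ae (ae_restrict_of_ae ?_)
    filter_upwards [hNZ] with c hc
    refine (hTle (kc n c)).trans ?_
    gcongr
  refine h1.trans ?_
  rw [lintegral_add_left measurable_const, setLIntegral_const]
  have h2 : ENNReal.ofReal b0 * (1 + n * (n:ℝ≥0∞) ^ 2) * GP (T n) E ≤
      ENNReal.ofReal (2 * b0) := by
    have e1 : ENNReal.ofReal b0 * (1 + n * (n:ℝ≥0∞) ^ 2) = ENNReal.ofReal (b0 * (1 + n * n ^ 2)) := by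
      rw [ENNReal.ofReal_mul (by linarith), ENNReal.ofReal_add (by norm_num) (by positivity),
        ENNReal.ofReal_one, ENNReal.ofReal_mul (by positivity), ENNReal.ofReal_natCast,
        ENNReal.ofReal_pow (by positivity), ENNReal.ofReal_natCast]
    rw [e1]
    refine (mul_le_mul_right hE3 _).trans ?_
    rw [← ENNReal.ofReal_mul (by positivity)]
    apply ENNReal.ofReal_le_ofReal
    rw [mul_one_div, div_le_iff₀ (by positivity)]
    have h3 : (1:ℝ) ≤ (n:ℝ) ^ 3 := one_le_pow₀ hn1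
    nlinarith
  have h3 : ∫⁻ c in E, T' (kc n c) ∂GP (T n) ≤ ENNReal.ofReal (573000000 * n) := by
    refine (setLIntegral_le_lintegral _ _).trans ?_
    rw [← lintegral_map hTm (measurable_kc n), map_kc]
    refine hTi.trans (ENNReal.ofReal_le_ofReal ?_)
    have := log_le hn
    nlinarith
  refine (add_le_add h2 h3).trans ?_
  rw [← ENNReal.ofReal_add (by positivity) (by positivity)]
  apply ENNReal.ofReal_le_ofReal
  nlinarith

end

end Pool.Agent.Helper63K9.KS
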