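import Pool.Agent.Helper63K9.KS.Id

/-! Statements of the leaves (as propositions). -/

open Real Set MeasureTheory
open scoped ENNReal

namespace Pool.Agent.Helper63K9.KS

noncomputable section

open Pool.Agent.H709R2 (fld rot rotc NP wedge)
open Pool.Agent.W960.HR
open Pool.Agent.H709U
open Pool.Agent.H709Q (Maj)

/-- the kernel: the derivatives of the direction of the field along the axes -/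
def hk (X : ℝ × ℝ → ℝ × ℝ) (z : ℝ × ℝ) : ℝ≥0∞ :=
  ENNReal.ofReal (|wedge (X z) (fderiv ℝ X z (1, 0))| / H709R2.sq (X z)) +
    ENNReal.ofReal (|wedge (X z) (fderiv ℝ X z (0, 1))| / H709R2.sq (X z))

/-- Leaf A1: mean of the kernel where the normalised field is at most `δ` -/
def S_A1 : Prop := ∀ (n : ℕ), 1 ≤ n → ∀ (z : ℝ × ℝ) (δ : ℝ), 0 ≤ δ →
  ∫⁻ c, {c : T n → ℝ × ℝ | H709R2.sq (F n c z) ≤ δ ^ 2 * q z ^ n}.indicator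
    (fun c => hk (F n c) z) c ∂GP (T n) ≤ ENNReal.ofReal (4 * √n * δ / √(q z))

/-- Leaf A2: small values at a point -/
def S_A2 : Prop := ∀ (n : ℕ) (z : ℝ × ℝ) (δ : ℝ), 0 ≤ δ →
  GP (T n) {c | ‖F n c z‖ ≤ δ * √(q z ^ n)} ≤ ENNReal.ofReal (δ ^ 2)

/-- Leaf B: oscillation -/
def S_B : Prop := ∀ (n : ℕ), 1 ≤ n → ∀ (A B M η : ℝ), 1 ≤ A → 1 ≤ B → 0 ≤ M → 0 < η → η ≤ 1 →
  GP (T n) {c | sn c ≤ A ^ 2 ∧ ¬ Osc n B (2 * M) η c} ≤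
    ENNReal.ofReal (4 * (30 * (n * (A + M) * B / η)) ^ 4 * exp (-M ^ 2 / 2))

/-- Leaf C: nondegeneracy -/
def S_C : Prop := ∀ (n : ℕ), 1 ≤ n → ∀ (A B t : ℝ), 1 ≤ A → 1 ≤ B → 0 < t → t ≤ 1 →
  GP (T n) {c | sn c ≤ A ^ 2 ∧ ¬ ND n B t c} ≤
    ENNReal.ofReal (10 ^ 8 * (A ^ 3 * n ^ 4 * B ^ 6 * t))

/-- Leaf D1: leading part -/
def S_D1 : Prop := ∀ (n : ℕ), 1 ≤ n → ∀ (A τ : ℝ), 1 ≤ A → 0 < τ → τ ≤ 1 →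
  GP (T n) {c | sn c ≤ A ^ 2 ∧ ¬ Lead n τ c} ≤ ENNReal.ofReal (1000 * (A * n * τ))

/-- Leaf D2: the zone at infinity -/
def S_D2 : Prop := ∀ (n : ℕ), 1 ≤ n → ∀ (A τ : ℝ), 1 ≤ A → 0 < τ → τ ≤ 1 →
  ∀ c : T n → ℝ × ℝ, sn c ≤ A ^ 2 → Lead n τ c →
  ZC (F n c) 0 (-1) (Real.log (20 * (A * n) / τ)) (20 * (A * n) / τ)

/-- Leaf E: the zones at the zeros -/
def S_E : Prop := ∀ (n : ℕ), 1 ≤ n → ∀ (A B t : ℝ), 1 ≤ A → 0 < t → t ≤ 1 →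
  ∀ c : T n → ℝ × ℝ, sn c ≤ A ^ 2 → ND n B t c → ∀ p : ℝ × ℝ, ‖p‖ ≤ B → F n c p = 0 →
  ZC (F n c) p 1 (Real.log (t / (100 * (A * n ^ 2)))) (8 * (A * n) / t)

/-- Leaf F: closed orbits which touch a disc and are not small -/
def S_F : Prop := ∀ (n : ℕ) (P Q : MvPolynomial (Fin 2) ℝ), P.totalDegree ≤ n →
  Q.totalDegree ≤ n → ∀ R : ℝ, 0 < R →
  Maj (fun α => ({C | C ∈ Cl P Q α ∧ ∃ x ∈ C, ∃ y ∈ C, H709R2.sq x ≤ R ^ 2 ∧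
    (R / 5) ^ 2 ≤ H709R2.sq (y - x)}.encard : ℝ≥0∞)) (8000 * (n + 1))

/-- Leaf F2: closed orbits in a compact set which are not small -/
def S_F2 : Prop := ∀ X : ℝ × ℝ → ℝ × ℝ, ContDiff ℝ 2 X → ∀ Ω : Set (ℝ × ℝ), IsCompact Ω →
  ∀ d : ℝ, 0 < d →
  ∃ g : ℝ → ℝ≥0∞, Measurable g ∧ (∀ α ∈ Ioo 0 π,
    ({C | H709R2.ClosedOrbit (rf X α) C ∧ C ⊆ Ω ∧ ∃ x ∈ C, ∃ y ∈ C, d ^ 2 ≤ H709R2.sq (x - y)}.encard :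
      ℝ≥0∞) ≤ g α) ∧
    ∫⁻ α in Ioo 0 π, g α ≤ ENNReal.ofReal (1 / (2 * d)) * ∫⁻ z in Ω, hk X z

/-- Leaf G: the exceptional coefficients -/
def S_G : Prop := ∀ (n : ℕ), 1 ≤ n → ∀ E : Set (T n → ℝ × ℝ), MeasurableSet E →
  GP (T n) E ≤ ENNReal.ofReal (1 / n ^ 3) →
  ∫⁻ c in E, Phi (kc n c) ∂GP (T n) ≤ ENNReal.ofReal (10 ^ 10 * n)

end

end Pool.Agent.Helper63K9.KS
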