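import Pool.Agent.Helper63K9.KS.Par

/-! The mean number of closed orbits: assembly. -/

open Real Set MeasureTheory
open scoped ENNReal

namespace Pool.Agent.Helper63K9.KS

noncomputable section

open Pool.Agent.H709R2 (fld rot rotc NP wedge field ClosedOrbit measurable_NP continuous_rotc g2)
open Pool.Agent.W960.HR

/-- large coefficients -/
lemma prob_sn {n : ℕ} (hn : 1 ≤ n) : GP (T n) {c | ¬ sn c ≤ pA n ^ 2} ≤
    ENNReal.ofReal (1 / (8 * n ^ 3)) := by
  have hn1 : (1:ℝ) ≤ n := by exact_mod_cast hn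
  have hsub : {c : T n → ℝ × ℝ | ¬ sn c ≤ pA n ^ 2} ⊆
      {c | ENNReal.ofReal (pA n ^ 2) ≤ ENNReal.ofReal (sn c)} := by
    intro c hc
    have hc' : ¬ sn c ≤ pA n ^ 2 := hc
    exact ENNReal.ofReal_le_ofReal (not_le.1 hc').le
  have hsnm : Measurable fun c : T n → ℝ × ℝ => ENNReal.ofReal (sn c) := by
    unfold sn H709R2.sq
    fun_prop
  have h1 := mul_meas_ge_le_lintegral (μ := GP (T n)) hsnm (ENNReal.ofReal (pA n ^ 2))
  have h2 : ∫⁻ c, ENNReal.ofReal (sn c) ∂GP (T n) ≤ ENNReal.ofReal (8 * n ^ 2) := by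
    have e : ∀ c : T n → ℝ × ℝ, ENNReal.ofReal (sn c) =
        ∑ m, ENNReal.ofReal ((c m).1 ^ 2 + (c m).2 ^ 2) := by
      intro c
      unfold sn H709R2.sq
      rw [ENNReal.ofReal_sum_of_nonneg fun m _ => by positivity]
    simp only [e]
    rw [lintegral_finsetSum _ fun m _ => by fun_prop]
    have h3 : ∀ m ∈ (Finset.univ : Finset (T n)),
        ∫⁻ c, ENNReal.ofReal (((c : T n → ℝ × ℝ) m).1 ^ 2 + (c m).2 ^ 2) ∂GP (T n) ≤
          ENNReal.ofReal 2 := by
      intro m _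
      have h4 := (measurePreserving_eval (fun _ : T n => g2) m).lintegral_comp
        (f := fun w : ℝ × ℝ => ENNReal.ofReal (w.1 ^ 2 + w.2 ^ 2)) (by fun_prop)
      rw [GP_eq]
      exact h4.le.trans (mom_g2 (S := T n) m)
    refine (Finset.sum_le_card_nsmul _ _ _ h3).trans ?_
    rw [Finset.card_univ, Fintype.card_coe, nsmul_eq_mul, ← ENNReal.ofReal_natCast,
      ← ENNReal.ofReal_mul (by positivity)]
    apply ENNReal.ofReal_le_ofReal
    have := card_le (full_T hn)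
    linarith
  have hA := pA_ge hn
  refine (measure_mono hsub).trans ?_
  have h3 := h1.trans h2
  rw [mul_comm, ← ENNReal.le_div_iff_mul_le (Or.inl (by simp; positivity))
    (Or.inl ENNReal.ofReal_ne_top), ← ENNReal.ofReal_div_of_pos (by positivity)] at h3
  refine h3.trans (ENNReal.ofReal_le_ofReal ?_)
  unfold pA
  rw [div_le_div_iff₀ (by positivity) (by positivity)]
  have h4 : (n:ℝ) ^ 5 ≤ n ^ 6 := pow_le_pow_right₀ hn1 (by norm_num)
  nlinarith

/-- the probability of the exceptional coefficients -/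
lemma prob_exc (hD1 : S_D1) (hC : S_C) (hB : S_B) {n : ℕ} (hn : 1 ≤ n) :
    GP (T n) {c | ¬ Gd n (pA n) (pT n) (pB n) (pt n) (2 * pM n) (pe n) c} ≤
      ENNReal.ofReal (1 / n ^ 3) := by
  have hn1 : (1:ℝ) ≤ n := by exact_mod_cast hn
  have hA := pA_ge hn
  have hsub : {c | ¬ Gd n (pA n) (pT n) (pB n) (pt n) (2 * pM n) (pe n) c} ⊆
      {c | ¬ sn c ≤ pA n ^ 2} ∪ ({c | sn c ≤ pA n ^ 2 ∧ ¬ Lead n (pT n) c} ∪
      ({c | sn c ≤ pA n ^ 2 ∧ ¬ ND n (pB n) (pt n) c} ∪
      {c | sn c ≤ pA n ^ 2 ∧ ¬ Osc n (pB n) (2 * pM n) (pe n) c})) := by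
    intro c hc
    by_contra h
    simp only [mem_union, mem_ofPred_eq, not_or, not_and, not_not] at h
    obtain ⟨h1, h2, h3, h4⟩ := h
    exact hc ⟨h1, h2 h1, h3 h1, h4 h1⟩
  have h1 := prob_sn hn
  have h2 : GP (T n) {c | sn c ≤ pA n ^ 2 ∧ ¬ Lead n (pT n) c} ≤
      ENNReal.ofReal (1 / (8 * n ^ 3)) := by
    refine (hD1 n hn (pA n) (pT n) hA (pT_pos hn) (pT_le hn)).trans (ENNReal.ofReal_le_ofReal ?_)
    refine le_of_eq ?_
    unfold pA pT
    field_simp
    norm_num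
  have h3 : GP (T n) {c | sn c ≤ pA n ^ 2 ∧ ¬ ND n (pB n) (pt n) c} ≤
      ENNReal.ofReal (1 / (8 * n ^ 3)) := by
    refine (hC n hn (pA n) (pB n) (pt n) hA (pB_ge n) (pt_pos hn) (pt_le hn)).trans
      (ENNReal.ofReal_le_ofReal ?_)
    refine le_of_eq ?_
    have hB0 : 0 < pB n := by linarith [pB_ge n]
    have hA0 : 0 < pA n := by linarith
    unfold pt
    field_simp
  have h4 : GP (T n) {c | sn c ≤ pA n ^ 2 ∧ ¬ Osc n (pB n) (2 * pM n) (pe n) c} ≤
      ENNReal.ofReal (1 / (8 * n ^ 3)) :=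
    (hB n hn (pA n) (pB n) (pM n) (pe n) hA (pB_ge n) (by linarith [pM_ge n]) (pe_pos n)
      (pe_le n)).trans (ENNReal.ofReal_le_ofReal (osc_spec hn))
  refine (measure_mono hsub).trans ((measure_union_le _ _).trans ((add_le_add h1
    ((measure_union_le _ _).trans (add_le_add h2 ((measure_union_le _ _).trans
      (add_le_add h3 h4))))).trans ?_))
  have h0 : (0:ℝ) ≤ 1 / (8 * n ^ 3) := by positivity
  rw [← ENNReal.ofReal_add h0 h0, ← ENNReal.ofReal_add h0 (by positivity),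
    ← ENNReal.ofReal_add h0 (by positivity)]
  apply ENNReal.ofReal_le_ofReal
  have e : 1 / (8 * (n:ℝ) ^ 3) + (1 / (8 * n ^ 3) + (1 / (8 * n ^ 3) + 1 / (8 * n ^ 3))) =
      1 / 2 * (1 / n ^ 3) := by
    field_simp
    norm_num
  rw [e]
  have : (0:ℝ) ≤ 1 / n ^ 3 := by positivity
  linarith

/-- the final estimate of the constants -/
lemma final_size {n : ℕ} (hn : 1 ≤ n) :
    4000 + 64000 * ((2 * pM n) ^ 2 * n) * (pK n + 2) + (pK n + 1) * (8000 * (n + 1)) +
      (pK n + 1) * ((pJ n + 1) * (768 * (2 * pM n * n))) + 10 ^ 10 * n ≤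
      2 * 10 ^ 11 * (n * ((1 + pL n) ^ 2 * √(1 + pL n))) := by
  have hn1 : (1:ℝ) ≤ n := by exact_mod_cast hn
  set l : ℝ := 1 + pL n with hl
  have hl1 : 1 ≤ l := by
    have : (0:ℝ) ≤ pL n := Nat.cast_nonneg _
    rw [hl]; linarith
  have h1 := pK_size n
  have h2 := pJ_size n
  have h3 := pm_size n
  rw [← hl] at h1 h2 h3
  set s : ℝ := √l with hs
  have hs2 : s ^ 2 = l := Real.sq_sqrt (by linarith)
  have hs1 : 1 ≤ s := by
    rw [hs, Real.one_le_sqrt]; exact hl1
  have hM2 := pM_sq n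
  have hM0 := pM_ge n
  have hM : pM n ≤ 113 * s := by
    have h4 : pM n ^ 2 ≤ (113 * s) ^ 2 := by
      rw [hM2, mul_pow, hs2]
      linarith
    exact abs_le_of_sq_le_sq' h4 (by positivity) |>.2
  have e1 : (2 * pM n) ^ 2 = 16 * pm n := by rw [mul_pow, hM2]; ring
  have hls : l ^ 2 ≤ l ^ 2 * s := le_mul_of_one_le_right (by positivity) hs1
  have hll : l ≤ l ^ 2 := by nlinarith
  have b1 : 64000 * ((2 * pM n) ^ 2 * n) * ((pK n : ℝ) + 2) ≤
      64000 * (16 * (3153 * l) * n) * (50 * l) := by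
    rw [e1]
    have : (0:ℝ) ≤ pK n := Nat.cast_nonneg _
    gcongr
  have b2 : ((pK n : ℝ) + 1) * (8000 * (n + 1)) ≤ (50 * l) * (8000 * (2 * n)) := by
    have : (pK n : ℝ) + 1 ≤ 50 * l := by linarith
    have h5 : (0:ℝ) ≤ pK n := Nat.cast_nonneg _
    gcongr
    linarith
  have b3 : ((pK n : ℝ) + 1) * (((pJ n : ℝ) + 1) * (768 * (2 * pM n * n))) ≤
      (50 * l) * ((731 * l) * (768 * (2 * (113 * s) * n))) := by
    have : (pK n : ℝ) + 1 ≤ 50 * l := by linarith
    have h5 : (0:ℝ) ≤ pK n := Nat.cast_nonneg _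
    have h6 : (0:ℝ) ≤ pJ n := Nat.cast_nonneg _
    gcongr
  have hn0 : (0:ℝ) ≤ n := by linarith
  have c1 : 64000 * (16 * (3153 * l) * n) * (50 * l) ≤ 161433600000 * (n * (l ^ 2 * s)) := by
    calc 64000 * (16 * (3153 * l) * n) * (50 * l) = 161433600000 * (n * l ^ 2) := by ring
      _ ≤ _ := by gcongr
  have c2 : (50 * l) * (8000 * (2 * (n:ℝ))) ≤ 800000 * (n * (l ^ 2 * s)) := by
    calc (50 * l) * (8000 * (2 * (n:ℝ))) = 800000 * (n * l) := by ring
      _ ≤ _ := by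
        have := hll.trans hls
        gcongr
  have c3 : (50 * l) * ((731 * l) * (768 * (2 * (113 * s) * n))) =
      6343910400 * (n * (l ^ 2 * s)) := by ring
  have c4 : 10 ^ 10 * (n:ℝ) ≤ 10 ^ 10 * (n * (l ^ 2 * s)) := by
    have : 1 ≤ l ^ 2 * s := one_le_mul_of_one_le_of_one_le (one_le_pow₀ hl1) hs1
    have := le_mul_of_one_le_right hn0 this
    gcongr
  have c5 : (4000:ℝ) ≤ 4000 * (n * (l ^ 2 * s)) := by
    have h5 : 1 ≤ l ^ 2 * s := one_le_mul_of_one_le_of_one_le (one_le_pow₀ hl1) hs1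
    have := one_le_mul_of_one_le_of_one_le hn1 h5
    linarith
  have h0 : 0 ≤ (n:ℝ) * (l ^ 2 * s) := by positivity
  linarith

/-- **the mean of the integral over the rotations** -/
theorem phi_mean (hA1 : S_A1) (hA2 : S_A2) (hB : S_B) (hC : S_C) (hD1 : S_D1) (hD2 : S_D2)
    (hE : S_E) (hF : S_F) (hF2 : S_F2) (hG : S_G) {n : ℕ} (hn : 1 ≤ n) :
    ∫⁻ c, Phi (kc n c) ∂GP (T n) ≤
      ENNReal.ofReal (2 * 10 ^ 11 * (n * ((1 + pL n) ^ 2 * √(1 + pL n)))) := by
  have hn1 : (1:ℝ) ≤ n := by exact_mod_cast hn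
  set P := GP (T n) with hP
  have hPp : IsProbabilityMeasure P := by rw [hP, GP_eq]; infer_instance
  set E : Set (T n → ℝ × ℝ) := toMeasurable P
    {c | ¬ Gd n (pA n) (pT n) (pB n) (pt n) (2 * pM n) (pe n) c} with hEd
  have hEm : MeasurableSet E := measurableSet_toMeasurable _ _
  have hE1 : ∫⁻ c in E, Phi (kc n c) ∂P ≤ ENNReal.ofReal (10 ^ 10 * n) := by
    refine hG n hn E hEm ?_
    rw [hEd, ← hP, measure_toMeasurable]
    exact prob_exc hD1 hC hB hn
  have hs := ps_pos hn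
  have hM := pM_ge n
  set G : (T n → ℝ × ℝ) → ℝ≥0∞ := fun c =>
    (((ENNReal.ofReal 4000 + ENNReal.ofReal (1000 / ps n ^ 2) * volume (Vn n (2 * pM n) (ps n) (pK n) c)) +
        ((pK n + 1 : ℕ) : ℝ≥0∞) * ENNReal.ofReal (8000 * (n + 1))) +
        ∑ k ∈ Finset.range (pK n + 1), ∑ j ∈ Finset.range (pJ n + 1),
          ENNReal.ofReal (1 / (2 * (2 ^ k / 2 ^ (j + 1)))) *
            ∫⁻ z in Om n (2 * pM n) c k j, hk (F n c) z) with hGd
  have hE2 : ∫⁻ c in Eᶜ, Phi (kc n c) ∂P ≤ ∫⁻ c, G c ∂P := by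
    refine le_trans ?_ (setLIntegral_le_lintegral Eᶜ G)
    refine setLIntegral_mono' hEm.compl fun c hc => ?_
    have hg : Gd n (pA n) (pT n) (pB n) (pt n) (2 * pM n) (pe n) c := by
      by_contra hcon
      exact hc (subset_toMeasurable _ _ hcon)
    exact phi_good hD2 hE hF hF2 hn (pA_ge hn) (pT_pos hn) (pT_le hn) (pt_pos hn) (pt_le hn)
      (by linarith) (pe_pos n).le (pK_spec hn) le_rfl (pJ_spec hn) (pe_spec1 hn) hs le_rfl
      (pe_spec2 hn) hg
  have hE3 : ∫⁻ c, G c ∂P ≤ ENNReal.ofReal (4000 + 64000 * ((2 * pM n) ^ 2 * n) * (pK n + 2) +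
      (pK n + 1) * (8000 * (n + 1)) +
      (pK n + 1) * ((pJ n + 1) * (768 * (2 * pM n * n)))) := by
    have m1 : Measurable fun c : T n → ℝ × ℝ => ENNReal.ofReal (1000 / ps n ^ 2) *
        volume (Vn n (2 * pM n) (ps n) (pK n) c) := (meas_vol_V n _ _ _).const_mul _
    have m2 : ∀ k j, Measurable fun c : T n → ℝ × ℝ =>
        ENNReal.ofReal (1 / (2 * (2 ^ k / 2 ^ (j + 1)))) *
            ∫⁻ z in Om n (2 * pM n) c k j, hk (F n c) z := fun k j =>
      (meas_int_Om n _ k j).const_mul _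
    have m3 : Measurable fun c : T n → ℝ × ℝ => ENNReal.ofReal 4000 +
        ENNReal.ofReal (1000 / ps n ^ 2) * volume (Vn n (2 * pM n) (ps n) (pK n) c) :=
      measurable_const.add m1
    have m4 : Measurable fun c : T n → ℝ × ℝ => (ENNReal.ofReal 4000 +
        ENNReal.ofReal (1000 / ps n ^ 2) * volume (Vn n (2 * pM n) (ps n) (pK n) c)) +
        ((pK n + 1 : ℕ) : ℝ≥0∞) * ENNReal.ofReal (8000 * (n + 1)) :=
      m3.add measurable_const
    simp only [hGd]
    rw [lintegral_add_left m4, lintegral_add_left m3, lintegral_add_left measurable_const,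
      lintegral_const, lintegral_const, measure_univ, mul_one, mul_one,
      lintegral_const_mul _ (meas_vol_V n _ _ _),
      lintegral_finsetSum _ fun k _ => Finset.measurable_sum _ fun j _ => m2 k j]
    have i1 : ENNReal.ofReal (1000 / ps n ^ 2) *
        ∫⁻ c, volume (Vn n (2 * pM n) (ps n) (pK n) c) ∂P ≤
        ENNReal.ofReal (64000 * ((2 * pM n) ^ 2 * n) * (pK n + 2)) := by
      refine (mul_le_mul_right (mean_V hA2 (by linarith) hs.le (pK n)) _).trans ?_
      rw [← ENNReal.ofReal_mul (by positivity)]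
      apply ENNReal.ofReal_le_ofReal
      refine le_of_eq ?_
      field_simp
      norm_num
    have i2 : ∑ k ∈ Finset.range (pK n + 1), ∫⁻ c, ∑ j ∈ Finset.range (pJ n + 1),
          ENNReal.ofReal (1 / (2 * (2 ^ k / 2 ^ (j + 1)))) *
            (∫⁻ z in Om n (2 * pM n) c k j, hk (F n c) z) ∂P ≤
        ENNReal.ofReal ((pK n + 1) * ((pJ n + 1) * (768 * (2 * pM n * n)))) := by
      have i3 : ∀ k ∈ Finset.range (pK n + 1), ∫⁻ c, ∑ j ∈ Finset.range (pJ n + 1),
          ENNReal.ofReal (1 / (2 * (2 ^ k / 2 ^ (j + 1)))) *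
            (∫⁻ z in Om n (2 * pM n) c k j, hk (F n c) z) ∂P ≤
          ENNReal.ofReal ((pJ n + 1) * (768 * (2 * pM n * n))) := by
        intro k _
        rw [lintegral_finsetSum _ fun j _ => m2 k j]
        have i4 : ∀ j ∈ Finset.range (pJ n + 1), ∫⁻ c,
            ENNReal.ofReal (1 / (2 * (2 ^ k / 2 ^ (j + 1)))) *
              (∫⁻ z in Om n (2 * pM n) c k j, hk (F n c) z) ∂P ≤
            ENNReal.ofReal (768 * (2 * pM n * n)) := by
          intro j _
          rw [lintegral_const_mul _ (meas_int_Om n _ k j)]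
          exact mean_Om hA1 hn (by linarith) k j
        refine (Finset.sum_le_card_nsmul _ _ _ i4).trans ?_
        rw [Finset.card_range, nsmul_eq_mul, ← ENNReal.ofReal_natCast,
          ← ENNReal.ofReal_mul (by positivity)]
        push_cast
        exact le_rfl
      refine (Finset.sum_le_card_nsmul _ _ _ i3).trans ?_
      rw [Finset.card_range, nsmul_eq_mul, ← ENNReal.ofReal_natCast,
        ← ENNReal.ofReal_mul (by positivity)]
      push_cast
      exact le_rfl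
    have i5 : ((pK n + 1 : ℕ) : ℝ≥0∞) * ENNReal.ofReal (8000 * (n + 1)) =
        ENNReal.ofReal ((pK n + 1) * (8000 * (n + 1))) := by
      rw [← ENNReal.ofReal_natCast, ← ENNReal.ofReal_mul (by positivity)]
      push_cast
      rfl
    rw [i5]
    refine (add_le_add (add_le_add (add_le_add le_rfl i1) le_rfl) i2).trans ?_
    rw [← ENNReal.ofReal_add (by norm_num) (by positivity),
      ← ENNReal.ofReal_add (by positivity) (by positivity),
      ← ENNReal.ofReal_add (by positivity) (by positivity)]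
  rw [← lintegral_add_compl _ hEm]
  refine (add_le_add hE1 (hE2.trans hE3)).trans ?_
  rw [← ENNReal.ofReal_add (by positivity) (by positivity)]
  apply ENNReal.ofReal_le_ofReal
  have := final_size hn
  linarith

/-- **the mean number of closed orbits of the Kostlan ensemble** -/
theorem kostlan (hA1 : S_A1) (hA2 : S_A2) (hB : S_B) (hC : S_C) (hD1 : S_D1) (hD2 : S_D2)
    (hE : S_E) (hF : S_F) (hF2 : S_F2) (hG : S_G) {n : ℕ} (hn : 1 ≤ n) :
    ∫⁻ c, NP (kc n c) ∂GP (T n) ≤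
      ENNReal.ofReal (4 * 10 ^ 11 * n * ((1 + Real.log n) ^ 2 * √(1 + Real.log n))) := by
  have hn1 : (1:ℝ) ≤ n := by exact_mod_cast hn
  have hl0 : 0 ≤ Real.log n := Real.log_nonneg hn1
  have hR : RotInv (fun _ : T n => g2) := rotInv_g2
  have hkc : Continuous (kc n) := by unfold kc; fun_prop
  have hm : Measurable fun c : T n → ℝ × ℝ => NP (kc n c) := measurable_NP.comp hkc.measurable
  have h1 : ∀ α, ∫⁻ c, NP (rotc α (kc n c)) ∂GP (T n) = ∫⁻ c, NP (kc n c) ∂GP (T n) := by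
    intro α
    simp only [rotc_kc]
    have hmp : MeasurePreserving (rotc α : (T n → ℝ × ℝ) → (T n → ℝ × ℝ)) (GP (T n)) (GP (T n)) := by
      rw [GP_eq]
      exact measurePreserving_rotc' (fun _ : T n => g2) hR α
    exact hmp.lintegral_comp (f := fun c => NP (kc n c)) hm
  have hmeas : Measurable (Function.uncurry fun (α : ℝ) (c : T n → ℝ × ℝ) =>
      NP (rotc α (kc n c))) := by
    have h3 : Continuous fun p : ℝ × (T n → ℝ × ℝ) => (p.1, kc n p.2) :=
      continuous_fst.prodMk (hkc.comp continuous_snd)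
    have h4 : Continuous fun p : ℝ × (T n → ℝ × ℝ) => rotc p.1 (kc n p.2) :=
      (continuous_rotc (S := T n)).comp h3
    have h5 : Measurable fun p : ℝ × (T n → ℝ × ℝ) => NP (rotc p.1 (kc n p.2)) :=
      (measurable_NP (S := T n)).comp h4.measurable
    exact h5
  have h2 : ∫⁻ c, Phi (kc n c) ∂GP (T n) = ENNReal.ofReal π * ∫⁻ c, NP (kc n c) ∂GP (T n) := by
    unfold Phi
    have hP : SFinite (GP (T n)) := by rw [GP_eq]; infer_instance
    rw [← lintegral_lintegral_swap (μ := volume.restrict (Ioo 0 π)) (ν := GP (T n))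
      (f := fun (α : ℝ) (c : T n → ℝ × ℝ) => NP (rotc α (kc n c))) hmeas.aemeasurable]
    simp only [h1]
    rw [lintegral_const, Measure.restrict_apply_univ, Real.volume_Ioo, sub_zero, mul_comm]
  have h3 := phi_mean hA1 hA2 hB hC hD1 hD2 hE hF hF2 hG hn
  rw [h2] at h3
  set l : ℝ := 1 + pL n with hl
  have hl1 : 1 ≤ l := by
    have : (0:ℝ) ≤ pL n := Nat.cast_nonneg _
    rw [hl]; linarith
  have hll : l ≤ 2 * (1 + Real.log n) := by
    have := clog_le hn
    rw [hl]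
    unfold pL
    linarith
  have hls : √l ≤ 3 / 2 * √(1 + Real.log n) := by
    apply Real.sqrt_le_iff.2
    refine ⟨by positivity, ?_⟩
    rw [mul_pow, Real.sq_sqrt (by linarith)]
    linarith
  have h5 : l ^ 2 * √l ≤ 6 * ((1 + Real.log n) ^ 2 * √(1 + Real.log n)) := by
    calc l ^ 2 * √l ≤ (2 * (1 + Real.log n)) ^ 2 * (3 / 2 * √(1 + Real.log n)) := by
          gcongr
      _ = _ := by ring
  have h4 : ENNReal.ofReal 3 * ∫⁻ c, NP (kc n c) ∂GP (T n) ≤
      ENNReal.ofReal 3 * ENNReal.ofReal (4 * 10 ^ 11 * n *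
        ((1 + Real.log n) ^ 2 * √(1 + Real.log n))) := by
    refine le_trans ?_ (h3.trans ?_)
    · gcongr
      exact Real.pi_gt_three.le
    · rw [← ENNReal.ofReal_mul (by norm_num)]
      apply ENNReal.ofReal_le_ofReal
      have h6 : n * (l ^ 2 * √l) ≤ n * (6 * ((1 + Real.log n) ^ 2 * √(1 + Real.log n))) := by
        gcongr
      linarith
  exact (ENNReal.mul_le_mul_iff_right (by simp) ENNReal.ofReal_ne_top).1 h4

end

end Pool.Agent.Helper63K9.KS
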