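import Pool.Agent.Helper63K9.KS.Good

/-! Means over the Kostlan ensemble. -/

open Real Set MeasureTheory
open scoped ENNReal

namespace Pool.Agent.Helper63K9.KS

noncomputable section

open Pool.Agent.H709R2 (fld rot rotc NP wedge field ClosedOrbit)
open Pool.Agent.W960.HR
open Pool.Agent.H709U
open Pool.Agent.H709Q (Maj)

lemma cont_F (n : ℕ) : Continuous fun p : (T n → ℝ × ℝ) × (ℝ × ℝ) => F n p.1 p.2 := by
  unfold F Gs
  fun_prop

lemma cont_Fx (n : ℕ) : Continuous fun p : (T n → ℝ × ℝ) × (ℝ × ℝ) => lin (wx n p.2) p.1 := by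
  unfold lin wx wt
  fun_prop

lemma cont_Fy (n : ℕ) : Continuous fun p : (T n → ℝ × ℝ) × (ℝ × ℝ) => lin (wy n p.2) p.1 := by
  unfold lin wy wt
  fun_prop

lemma hk_eq (n : ℕ) (c : T n → ℝ × ℝ) (z : ℝ × ℝ) : hk (F n c) z =
    ENNReal.ofReal (|wedge (F n c z) (lin (wx n z) c)| / H709R2.sq (F n c z)) +
      ENNReal.ofReal (|wedge (F n c z) (lin (wy n z) c)| / H709R2.sq (F n c z)) := by
  unfold hk
  rw [fderiv_F, fderiv_F]
  simp

lemma meas_hk (n : ℕ) :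
    Measurable fun p : (T n → ℝ × ℝ) × (ℝ × ℝ) => hk (F n p.1) p.2 := by
  simp only [hk_eq]
  have h0 := cont_F n
  have h1 := cont_Fx n
  have h2 := cont_Fy n
  have hs : Measurable fun p : (T n → ℝ × ℝ) × (ℝ × ℝ) => H709R2.sq (F n p.1 p.2) :=
    (continuous_sq'.comp h0).measurable
  have w1 : Measurable fun p : (T n → ℝ × ℝ) × (ℝ × ℝ) =>
      |wedge (F n p.1 p.2) (lin (wx n p.2) p.1)| := by
    unfold wedge
    fun_prop
  have w2 : Measurable fun p : (T n → ℝ × ℝ) × (ℝ × ℝ) =>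
      |wedge (F n p.1 p.2) (lin (wy n p.2) p.1)| := by
    unfold wedge
    fun_prop
  exact (ENNReal.measurable_ofReal.comp (w1.div hs)).add
    (ENNReal.measurable_ofReal.comp (w2.div hs))

/-- the part of the plane of class `k` -/
def Dk (k : ℕ) : Set (ℝ × ℝ) := {z | ‖z‖ ≤ 2 ^ (k + 1) ∧ 2 ^ k ≤ 2 * √(q z)}

lemma meas_Dk (k : ℕ) : MeasurableSet (Dk k) := by
  have h1 : IsClosed {z : ℝ × ℝ | ‖z‖ ≤ 2 ^ (k + 1)} := isClosed_le continuous_norm continuous_const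
  have h2 : IsClosed {z : ℝ × ℝ | (2:ℝ) ^ k ≤ 2 * √(q z)} :=
    isClosed_le continuous_const (continuous_const.mul continuous_q.sqrt)
  exact (h1.inter h2).measurableSet

lemma vol_box (m : ℕ) : volume {z : ℝ × ℝ | ‖z‖ ≤ 2 ^ m} = ENNReal.ofReal (4 * (2 ^ m) ^ 2) := by
  have e : {z : ℝ × ℝ | ‖z‖ ≤ 2 ^ m} = Metric.closedBall (0:ℝ) (2 ^ m) ×ˢ Metric.closedBall (0:ℝ) (2 ^ m) := by
    rw [closedBall_prod_same]
    ext z
    rw [Metric.mem_closedBall, Prod.mk_zero_zero, dist_zero_right]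
    rfl
  rw [e, Measure.volume_eq_prod, Measure.prod_prod, Real.volume_closedBall,
    ← ENNReal.ofReal_mul (by positivity)]
  congr 1
  ring

/-- the kernel restricted to the set of small values -/
def fk (n : ℕ) (δ : ℝ) (c : T n → ℝ × ℝ) (z : ℝ × ℝ) : ℝ≥0∞ :=
  {c : T n → ℝ × ℝ | H709R2.sq (F n c z) ≤ δ ^ 2 * q z ^ n}.indicator (fun c => hk (F n c) z) c

lemma meas_small (n : ℕ) (δ : ℝ) :
    MeasurableSet {p : (T n → ℝ × ℝ) × (ℝ × ℝ) | H709R2.sq (F n p.1 p.2) ≤ δ ^ 2 * q p.2 ^ n} :=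
  (isClosed_le (continuous_sq'.comp (cont_F n))
    (continuous_const.mul ((continuous_q.comp continuous_snd).pow n))).measurableSet

lemma meas_fk (n : ℕ) (δ : ℝ) :
    Measurable fun p : (T n → ℝ × ℝ) × (ℝ × ℝ) => fk n δ p.1 p.2 := by
  have h : (fun p : (T n → ℝ × ℝ) × (ℝ × ℝ) => fk n δ p.1 p.2) =
      {p : (T n → ℝ × ℝ) × (ℝ × ℝ) | H709R2.sq (F n p.1 p.2) ≤ δ ^ 2 * q p.2 ^ n}.indicator
        (fun p => hk (F n p.1) p.2) := by
    funext p
    unfold fk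
    by_cases hp : H709R2.sq (F n p.1 p.2) ≤ δ ^ 2 * q p.2 ^ n
    · rw [indicator_of_mem, indicator_of_mem]
      · exact hp
      · exact hp
    · rw [indicator_of_notMem, indicator_of_notMem]
      · exact hp
      · exact hp
  rw [h]
  exact (meas_hk n).indicator (meas_small n δ)

lemma int_Om (n : ℕ) (M : ℝ) (c : T n → ℝ × ℝ) (k j : ℕ) :
    ∫⁻ z in Om n M c k j, hk (F n c) z = ∫⁻ z in Dk k, fk n (6 * (M * √n) / 2 ^ j) c z := by
  have hF : Continuous (F n c) := (contDiff_F n c).continuous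
  have hm : MeasurableSet {z : ℝ × ℝ | H709R2.sq (F n c z) ≤ (6 * (M * √n) / 2 ^ j) ^ 2 * q z ^ n} :=
    (isClosed_le (continuous_sq'.comp hF) (continuous_const.mul (continuous_q.pow n))).measurableSet
  unfold Om
  rw [inter_comm, ← setLIntegral_indicator hm]
  unfold Dk fk
  congr 1

lemma meas_int_Om (n : ℕ) (M : ℝ) (k j : ℕ) :
    Measurable fun c : T n → ℝ × ℝ => ∫⁻ z in Om n M c k j, hk (F n c) z := by
  simp only [int_Om]
  exact (meas_fk n _).lintegral_prod_right'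

theorem mean_Om (hA1 : S_A1) {n : ℕ} (hn : 1 ≤ n) {M : ℝ} (hM : 0 ≤ M) (k j : ℕ) :
    ENNReal.ofReal (1 / (2 * (2 ^ k / 2 ^ (j + 1)))) *
      ∫⁻ c, (∫⁻ z in Om n M c k j, hk (F n c) z) ∂GP (T n) ≤ ENNReal.ofReal (768 * (M * n)) := by
  have hn0 : (0:ℝ) ≤ n := Nat.cast_nonneg n
  set δ : ℝ := 6 * (M * √n) / 2 ^ j with hδ
  have hδ0 : 0 ≤ δ := by positivity
  have h1 : ∫⁻ c, (∫⁻ z in Om n M c k j, hk (F n c) z) ∂GP (T n) ≤
      ENNReal.ofReal (4 * √n * δ * (2 / 2 ^ k)) * ENNReal.ofReal (4 * (2 ^ (k + 1)) ^ 2) := by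
    simp only [int_Om]
    rw [lintegral_lintegral_swap (μ := GP (T n)) (ν := volume.restrict (Dk k))
      (f := fun c z => fk n δ c z) (meas_fk n δ).aemeasurable]
    calc ∫⁻ z in Dk k, (∫⁻ c, fk n δ c z ∂GP (T n))
        ≤ ∫⁻ z in Dk k, ENNReal.ofReal (4 * √n * δ * (2 / 2 ^ k)) := by
          refine setLIntegral_mono' (meas_Dk k) fun z hz => ?_
          refine (hA1 n hn z δ hδ0).trans (ENNReal.ofReal_le_ofReal ?_)
          have hq0 : 0 < √(q z) := Real.sqrt_pos.2 (q_pos z)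
          have h2k : (0:ℝ) < 2 ^ k := by positivity
          rw [div_le_iff₀ hq0]
          have h2 : 1 ≤ 2 / 2 ^ k * √(q z) := by
            rw [div_mul_eq_mul_div, le_div_iff₀ h2k, one_mul]
            exact hz.2
          have h3 : 0 ≤ 4 * √n * δ := by positivity
          calc 4 * √n * δ = 4 * √n * δ * 1 := (mul_one _).symm
            _ ≤ 4 * √n * δ * (2 / 2 ^ k * √(q z)) := mul_le_mul_of_nonneg_left h2 h3
            _ = _ := by ring
      _ = ENNReal.ofReal (4 * √n * δ * (2 / 2 ^ k)) * volume (Dk k) := by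
          rw [lintegral_const, Measure.restrict_apply_univ]
      _ ≤ _ := by
          refine mul_le_mul_right ?_ _
          rw [← vol_box]
          exact measure_mono fun z hz => hz.1
  refine (mul_le_mul_right h1 _).trans ?_
  rw [← ENNReal.ofReal_mul (by positivity), ← ENNReal.ofReal_mul (by positivity)]
  apply ENNReal.ofReal_le_ofReal
  have hsn : √(n:ℝ) * √n = n := Real.mul_self_sqrt hn0
  have h2j : (0:ℝ) < 2 ^ j := by positivity
  have h2k : (0:ℝ) < 2 ^ k := by positivity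
  rw [hδ, pow_succ _ j, pow_succ _ k]
  have e : 1 / (2 * ((2:ℝ) ^ k / (2 ^ j * 2))) * (4 * √n * (6 * (M * √n) / 2 ^ j) * (2 / 2 ^ k) *
      (4 * (2 ^ k * 2) ^ 2)) = 768 * (M * (√n * √n)) := by
    field_simp
    ring
  rw [e, hsn]

lemma int_q (m : ℕ) : ∫⁻ z in {z : ℝ × ℝ | ‖z‖ ≤ 2 ^ m}, ENNReal.ofReal (1 / q z) ≤
    ENNReal.ofReal (16 * (m + 1)) := by
  induction m with
  | zero =>
    have h1 : ∫⁻ z in {z : ℝ × ℝ | ‖z‖ ≤ 2 ^ 0}, ENNReal.ofReal (1 / q z) ≤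
        ∫⁻ z in {z : ℝ × ℝ | ‖z‖ ≤ 2 ^ 0}, ENNReal.ofReal 1 := by
      refine lintegral_mono fun z => ENNReal.ofReal_le_ofReal ?_
      rw [div_le_one (q_pos z)]
      exact one_le_q z
    refine h1.trans ?_
    rw [lintegral_const, Measure.restrict_apply_univ, vol_box, ← ENNReal.ofReal_mul (by norm_num)]
    apply ENNReal.ofReal_le_ofReal
    norm_num
  | succ m ih =>
    set S : Set (ℝ × ℝ) := {z : ℝ × ℝ | ‖z‖ ≤ 2 ^ (m + 1)} ∩ {z | 2 ^ m ≤ ‖z‖} with hS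
    have hSm : MeasurableSet S :=
      ((isClosed_le continuous_norm continuous_const).inter
        (isClosed_le continuous_const continuous_norm)).measurableSet
    have hsub : {z : ℝ × ℝ | ‖z‖ ≤ 2 ^ (m + 1)} ⊆ {z : ℝ × ℝ | ‖z‖ ≤ 2 ^ m} ∪ S := by
      intro z hz
      rcases le_total ‖z‖ (2 ^ m) with h | h
      · exact Or.inl h
      · exact Or.inr ⟨hz, h⟩
    refine (lintegral_mono_set hsub).trans ((lintegral_union_le _ _ _).trans ?_)
    have h1 : ∫⁻ z in S, ENNReal.ofReal (1 / q z) ≤ ENNReal.ofReal 16 := by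
      have h2 : ∫⁻ z in S, ENNReal.ofReal (1 / q z) ≤ ∫⁻ z in S, ENNReal.ofReal (1 / (2 ^ m) ^ 2) := by
        refine setLIntegral_mono' hSm fun z hz => ENNReal.ofReal_le_ofReal ?_
        have h0 : (0:ℝ) < (2 ^ m) ^ 2 := by positivity
        refine one_div_le_one_div_of_le h0 ?_
        have h3 : ((2:ℝ) ^ m) ^ 2 ≤ ‖z‖ ^ 2 := pow_le_pow_left₀ (by positivity) hz.2 2
        have h4 := norm_sq_le_sq z
        unfold q
        linarith
      refine h2.trans ?_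
      rw [lintegral_const, Measure.restrict_apply_univ]
      have h3 : volume S ≤ ENNReal.ofReal (4 * (2 ^ (m + 1)) ^ 2) := by
        rw [← vol_box]
        exact measure_mono inter_subset_left
      refine (mul_le_mul_right h3 _).trans ?_
      rw [← ENNReal.ofReal_mul (by positivity)]
      apply ENNReal.ofReal_le_ofReal
      refine le_of_eq ?_
      rw [pow_succ _ m]
      field_simp
      norm_num
    refine (add_le_add ih h1).trans ?_
    rw [← ENNReal.ofReal_add (by positivity) (by norm_num)]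
    apply ENNReal.ofReal_le_ofReal
    push_cast
    linarith

lemma cont_V (n : ℕ) (M s : ℝ) (K : ℕ) : MeasurableSet {p : (T n → ℝ × ℝ) × (ℝ × ℝ) |
    p.2 ∈ Vn n M s K p.1} := by
  have hq : Continuous fun p : (T n → ℝ × ℝ) × (ℝ × ℝ) => q p.2 := continuous_q.comp continuous_snd
  have h1 : IsClosed {p : (T n → ℝ × ℝ) × (ℝ × ℝ) | ‖p.2‖ ≤ 2 ^ (K + 1)} :=
    isClosed_le continuous_snd.norm continuous_const
  have h2 : IsClosed {p : (T n → ℝ × ℝ) × (ℝ × ℝ) | ‖F n p.1 p.2‖ ≤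
      (2 * (M * √n) * s / √(q p.2)) * √(q p.2 ^ n)} := by
    refine isClosed_le (cont_F n).norm (Continuous.mul (Continuous.div continuous_const hq.sqrt ?_)
      (hq.pow n).sqrt)
    intro p
    exact (Real.sqrt_pos.2 (q_pos p.2)).ne'
  exact (h1.inter h2).measurableSet

lemma vol_V (n : ℕ) (M s : ℝ) (K : ℕ) (c : T n → ℝ × ℝ) : volume (Vn n M s K c) =
    ∫⁻ z in {z : ℝ × ℝ | ‖z‖ ≤ 2 ^ (K + 1)},
      {p : (T n → ℝ × ℝ) × (ℝ × ℝ) | p.2 ∈ Vn n M s K p.1}.indicator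
        (1 : (T n → ℝ × ℝ) × (ℝ × ℝ) → ℝ≥0∞) (c, z) := by
  have hVm : MeasurableSet (Vn n M s K c) := measurable_prodMk_left (cont_V n M s K)
  have hbox : MeasurableSet {z : ℝ × ℝ | ‖z‖ ≤ 2 ^ (K + 1)} :=
    (isClosed_le continuous_norm continuous_const).measurableSet
  have e : ∀ z : ℝ × ℝ, {p : (T n → ℝ × ℝ) × (ℝ × ℝ) | p.2 ∈ Vn n M s K p.1}.indicator
      (1 : (T n → ℝ × ℝ) × (ℝ × ℝ) → ℝ≥0∞) (c, z) = (Vn n M s K c).indicator 1 z := by
    intro z
    by_cases hz : z ∈ Vn n M s K c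
    · rw [indicator_of_mem hz, indicator_of_mem (show (c, z) ∈
        {p : (T n → ℝ × ℝ) × (ℝ × ℝ) | p.2 ∈ Vn n M s K p.1} from hz)]
      rfl
    · rw [indicator_of_notMem hz, indicator_of_notMem]
      exact hz
  simp only [e]
  rw [lintegral_indicator_one hVm, Measure.restrict_apply hVm]
  congr 1
  exact (inter_eq_left.2 inter_subset_left).symm

lemma meas_vol_V (n : ℕ) (M s : ℝ) (K : ℕ) :
    Measurable fun c : T n → ℝ × ℝ => volume (Vn n M s K c) := by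
  simp only [vol_V]
  exact (measurable_one.indicator (cont_V n M s K)).lintegral_prod_right'

theorem mean_V (hA2 : S_A2) {n : ℕ} {M s : ℝ} (hM : 0 ≤ M) (hs : 0 ≤ s) (K : ℕ) :
    ∫⁻ c, volume (Vn n M s K c) ∂GP (T n) ≤ ENNReal.ofReal (64 * (M ^ 2 * n * s ^ 2) * (K + 2)) := by
  have hn0 : (0:ℝ) ≤ n := Nat.cast_nonneg n
  simp only [vol_V]
  have hm : Measurable fun p : (T n → ℝ × ℝ) × (ℝ × ℝ) =>
      {p : (T n → ℝ × ℝ) × (ℝ × ℝ) | p.2 ∈ Vn n M s K p.1}.indicator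
        (1 : (T n → ℝ × ℝ) × (ℝ × ℝ) → ℝ≥0∞) p :=
    measurable_one.indicator (cont_V n M s K)
  rw [lintegral_lintegral_swap (μ := GP (T n))
    (ν := volume.restrict {z : ℝ × ℝ | ‖z‖ ≤ 2 ^ (K + 1)})
    (f := fun c z => {p : (T n → ℝ × ℝ) × (ℝ × ℝ) | p.2 ∈ Vn n M s K p.1}.indicator
      (1 : (T n → ℝ × ℝ) × (ℝ × ℝ) → ℝ≥0∞) (c, z))
    hm.aemeasurable]
  have hbox : MeasurableSet {z : ℝ × ℝ | ‖z‖ ≤ 2 ^ (K + 1)} :=
    (isClosed_le continuous_norm continuous_const).measurableSet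
  have h1 : ∀ z : ℝ × ℝ, ∫⁻ c, {p : (T n → ℝ × ℝ) × (ℝ × ℝ) | p.2 ∈ Vn n M s K p.1}.indicator
      (1 : (T n → ℝ × ℝ) × (ℝ × ℝ) → ℝ≥0∞) (c, z) ∂GP (T n) ≤ ENNReal.ofReal (4 * (M ^ 2 * n * s ^ 2)) *
        ENNReal.ofReal (1 / q z) := by
    intro z
    have hms : MeasurableSet {c : T n → ℝ × ℝ | z ∈ Vn n M s K c} :=
      measurable_prodMk_right (cont_V n M s K)
    have e : ∀ c : T n → ℝ × ℝ, {p : (T n → ℝ × ℝ) × (ℝ × ℝ) | p.2 ∈ Vn n M s K p.1}.indicator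
        (1 : (T n → ℝ × ℝ) × (ℝ × ℝ) → ℝ≥0∞) (c, z) =
        {c : T n → ℝ × ℝ | z ∈ Vn n M s K c}.indicator 1 c := by
      intro c
      by_cases hz : z ∈ Vn n M s K c
      · rw [indicator_of_mem (show c ∈ {c : T n → ℝ × ℝ | z ∈ Vn n M s K c} from hz),
          indicator_of_mem (show (c, z) ∈
          {p : (T n → ℝ × ℝ) × (ℝ × ℝ) | p.2 ∈ Vn n M s K p.1} from hz)]
        rfl
      · rw [indicator_of_notMem, indicator_of_notMem]
        · exact hz
        · exact hz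
    simp only [e]
    rw [lintegral_indicator_one hms]
    have hq0 : 0 < √(q z) := Real.sqrt_pos.2 (q_pos z)
    refine (measure_mono fun c hc => ?_).trans
      ((hA2 n z (2 * (M * √n) * s / √(q z)) (by positivity)).trans ?_)
    · exact hc.2
    · rw [← ENNReal.ofReal_mul (by positivity)]
      apply ENNReal.ofReal_le_ofReal
      have h2 : √(q z) ^ 2 = q z := Real.sq_sqrt (q_pos z).le
      have h3 : √(n:ℝ) ^ 2 = n := Real.sq_sqrt hn0
      rw [div_pow, h2, mul_pow, mul_pow, mul_pow, h3]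
      refine le_of_eq ?_
      ring
  refine (lintegral_mono h1).trans ?_
  rw [lintegral_const_mul' _ _ ENNReal.ofReal_ne_top]
  refine (mul_le_mul_right (int_q (K + 1)) _).trans ?_
  rw [← ENNReal.ofReal_mul (by positivity)]
  apply ENNReal.ofReal_le_ofReal
  push_cast
  refine le_of_eq ?_
  ring

end

end Pool.Agent.Helper63K9.KS
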