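import Pool.Agent.Helper63K9.KS.Mean

/-! The parameters. -/

open Real Set MeasureTheory
open scoped ENNReal

namespace Pool.Agent.Helper63K9.KS

noncomputable section

open Pool.Agent.H709R2 (fld rot rotc NP wedge field ClosedOrbit)
open Pool.Agent.W960.HR

/-- the logarithm of the degree -/
def pL (n : ℕ) : ℕ := Nat.clog 2 n

/-- the bound for the coefficients -/
def pA (n : ℕ) : ℝ := 8 * n ^ 3

/-- the bound for the leading part -/
def pT (n : ℕ) : ℝ := 1 / (64000 * n ^ 7)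

/-- the number of classes of positions -/
def pK (n : ℕ) : ℕ := 48 + 22 * pL n

/-- the radius of the box -/
def pB (n : ℕ) : ℝ := 2 ^ (pK n + 1)

/-- the nondegeneracy -/
def pt (n : ℕ) : ℝ := 1 / (8 * 10 ^ 8 * (pA n ^ 3 * n ^ 7 * pB n ^ 6))

/-- the number of classes of sizes -/
def pJ (n : ℕ) : ℕ := 106 + 41 * pL n + 13 * pK n

/-- the mesh -/
def pe (n : ℕ) : ℝ := 1 / 2 ^ pJ n

/-- the exponent of the probability -/
def pm (n : ℕ) : ℕ := 41 + 19 * pL n + 4 * pK n + 4 * pJ n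

/-- the deviation -/
def pM (n : ℕ) : ℝ := 2 * √(pm n)

/-- the separation of the zeros -/
def ps (n : ℕ) : ℝ := pt n / (400 * (pA n * n ^ 2))

variable {n : ℕ}

lemma n_le (n : ℕ) : (n:ℝ) ≤ 2 ^ pL n := by
  have := Nat.le_pow_clog (b := 2) (by norm_num) n
  unfold pL
  exact_mod_cast this

lemma pow_n_le (n k : ℕ) : (n:ℝ) ^ k ≤ 2 ^ (k * pL n) := by
  have h := pow_le_pow_left₀ (Nat.cast_nonneg n) (n_le n) k
  rwa [← pow_mul, mul_comm] at h

lemma pA_ge (hn : 1 ≤ n) : 1 ≤ pA n := by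
  have hn1 : (1:ℝ) ≤ n := by exact_mod_cast hn
  have := one_le_pow₀ hn1 (n := 3)
  unfold pA
  linarith

lemma pT_pos (hn : 1 ≤ n) : 0 < pT n := by
  have hn1 : (1:ℝ) ≤ n := by exact_mod_cast hn
  unfold pT
  positivity

lemma pT_le (hn : 1 ≤ n) : pT n ≤ 1 := by
  have hn1 : (1:ℝ) ≤ n := by exact_mod_cast hn
  have := one_le_pow₀ hn1 (n := 7)
  unfold pT
  rw [div_le_one (by positivity)]
  linarith

lemma pB_ge (n : ℕ) : 1 ≤ pB n := one_le_pow₀ (by norm_num)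

lemma pK_spec (hn : 1 ≤ n) :
    (20 * (pA n * n) / pT n) * (20 * (pA n * n) / pT n) ≤ 2 ^ pK n := by
  have hn1 : (1:ℝ) ≤ n := by exact_mod_cast hn
  have e : (20 * (pA n * n) / pT n) * (20 * (pA n * n) / pT n) = 104857600000000 * n ^ 22 := by
    unfold pA pT
    field_simp
    ring
  rw [e]
  have h1 := pow_n_le n 22
  unfold pK
  rw [pow_add]
  have h2 : (0:ℝ) ≤ 2 ^ (22 * pL n) := by positivity
  calc (104857600000000:ℝ) * n ^ 22 ≤ 2 ^ 48 * n ^ 22 := by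
        refine mul_le_mul_of_nonneg_right (by norm_num) (by positivity)
    _ ≤ _ := mul_le_mul_of_nonneg_left h1 (by norm_num)

lemma pt_pos (hn : 1 ≤ n) : 0 < pt n := by
  have hn1 : (1:ℝ) ≤ n := by exact_mod_cast hn
  have h1 := pA_ge hn
  have h2 := pB_ge n
  unfold pt
  positivity

lemma pt_le (hn : 1 ≤ n) : pt n ≤ 1 := by
  have hn1 : (1:ℝ) ≤ n := by exact_mod_cast hn
  have h1 := pA_ge hn
  have h2 := pB_ge n
  have h3 : 1 ≤ pA n ^ 3 * n ^ 7 * pB n ^ 6 :=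
    one_le_mul_of_one_le_of_one_le (one_le_mul_of_one_le_of_one_le (one_le_pow₀ h1)
      (one_le_pow₀ hn1)) (one_le_pow₀ h2)
  unfold pt
  rw [div_le_one (by positivity)]
  linarith

/-- `1 / t` -/
lemma inv_pt (hn : 1 ≤ n) : 1 / pt n ≤ 2 ^ (45 + 16 * pL n + 6 * pK n) := by
  have hn1 : (1:ℝ) ≤ n := by exact_mod_cast hn
  have e : 1 / pt n = 409600000000 * n ^ 16 * (2 ^ (6 + 6 * pK n)) := by
    have h2 : pB n ^ 6 = 2 ^ (6 + 6 * pK n) := by
      unfold pB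
      rw [← pow_mul]
      congr 1
      ring
    unfold pt
    rw [one_div_one_div, h2]
    unfold pA
    ring
  rw [e]
  have h1 := pow_n_le n 16
  have e2 : 45 + 16 * pL n + 6 * pK n = 39 + 16 * pL n + (6 + 6 * pK n) := by ring
  rw [e2, pow_add _ (39 + 16 * pL n), pow_add _ 39]
  have h3 : (0:ℝ) ≤ 2 ^ (6 + 6 * pK n) := by positivity
  refine mul_le_mul_of_nonneg_right ?_ h3
  calc (409600000000:ℝ) * n ^ 16 ≤ 2 ^ 39 * n ^ 16 := by
        refine mul_le_mul_of_nonneg_right (by norm_num) (by positivity)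
    _ ≤ _ := mul_le_mul_of_nonneg_left h1 (by norm_num)

lemma pJ_spec (hn : 1 ≤ n) :
    2 ^ pK n * (8 * (pA n * n) / pt n) ≤ pt n / (100 * (pA n * n ^ 2)) * 2 ^ pJ n := by
  have hn1 : (1:ℝ) ≤ n := by exact_mod_cast hn
  have h0 := pt_pos hn
  have h1 := inv_pt hn
  have h2 := pow_n_le n 9
  have hA := pA_ge hn
  have hA0 : 0 < pA n := by linarith
  have h3 : (1 / pt n) ^ 2 ≤ (2 ^ (45 + 16 * pL n + 6 * pK n)) ^ 2 :=
    pow_le_pow_left₀ (by positivity) h1 2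
  have h4 : 2 ^ pK n * (51200 * (n:ℝ) ^ 9 * (1 / pt n) ^ 2) ≤ 2 ^ pJ n := by
    calc 2 ^ pK n * (51200 * (n:ℝ) ^ 9 * (1 / pt n) ^ 2)
        ≤ 2 ^ pK n * (2 ^ 16 * 2 ^ (9 * pL n) * (2 ^ (45 + 16 * pL n + 6 * pK n)) ^ 2) := by
          gcongr
          norm_num
      _ = 2 ^ pJ n := by
          unfold pJ
          rw [← pow_mul, ← pow_add, ← pow_add, ← pow_add]
          congr 1
          ring
  have e1 : 2 ^ pK n * (51200 * (n:ℝ) ^ 9 * (1 / pt n) ^ 2) =
      2 ^ pK n * (8 * (pA n * n) / pt n) / (pt n / (100 * (pA n * n ^ 2))) := by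
    unfold pA
    field_simp
    ring
  rw [e1, div_le_iff₀ (by positivity)] at h4
  linarith

lemma ps_pos (hn : 1 ≤ n) : 0 < ps n := by
  have hn1 : (1:ℝ) ≤ n := by exact_mod_cast hn
  have h0 := pt_pos hn
  have hA := pA_ge hn
  unfold ps
  positivity

lemma pm_ge (n : ℕ) : (1:ℝ) ≤ pm n := by
  have : 1 ≤ pm n := by unfold pm; omega
  exact_mod_cast this

lemma pM_ge (n : ℕ) : 1 ≤ pM n := by
  have h1 : 1 ≤ √(pm n) := by
    rw [Real.one_le_sqrt]
    exact pm_ge n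
  unfold pM
  linarith

lemma pM_sq (n : ℕ) : pM n ^ 2 = 4 * pm n := by
  unfold pM
  rw [mul_pow, Real.sq_sqrt (by positivity)]
  norm_num

lemma pe_pos (n : ℕ) : 0 < pe n := by unfold pe; positivity

lemma pe_le (n : ℕ) : pe n ≤ 1 := by
  unfold pe
  rw [div_le_one (by positivity)]
  exact one_le_pow₀ (by norm_num)

lemma sqrt_n_ge (hn : 1 ≤ n) : 1 ≤ √(n:ℝ) := by
  rw [Real.one_le_sqrt]
  exact_mod_cast hn

lemma pe_spec1 (hn : 1 ≤ n) : pe n ≤ 2 * pM n * √n / 2 ^ pJ n := by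
  have h1 := sqrt_n_ge hn
  have h2 := pM_ge n
  have h3 : 1 ≤ 2 * pM n * √n := by nlinarith
  unfold pe
  gcongr

lemma pe_spec2 (hn : 1 ≤ n) : pe n * 2 ^ (pK n + 3) ≤ 2 * pM n * √n * ps n := by
  have hn1 : (1:ℝ) ≤ n := by exact_mod_cast hn
  have h0 := pt_pos hn
  have h1 := sqrt_n_ge hn
  have h2 := pM_ge n
  have h3 : 1 ≤ 2 * pM n * √n := by nlinarith
  have hs := ps_pos hn
  have h4 : ps n ≤ 2 * pM n * √n * ps n := le_mul_of_one_le_left hs.le h3
  refine le_trans ?_ h4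
  have h5 : 1 / ps n ≤ 2 ^ (57 + 21 * pL n + 6 * pK n) := by
    have e : 1 / ps n = 3200 * n ^ 5 * (1 / pt n) := by
      unfold ps pA
      field_simp
      ring
    have h6 := pow_n_le n 5
    rw [e]
    calc 3200 * (n:ℝ) ^ 5 * (1 / pt n) ≤
        2 ^ 12 * 2 ^ (5 * pL n) * 2 ^ (45 + 16 * pL n + 6 * pK n) := by
          have := inv_pt hn
          gcongr
          norm_num
      _ = _ := by
          rw [← pow_add, ← pow_add]
          congr 1
          ring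
  have h6 : (2:ℝ) ^ (pK n + 3) * (1 / ps n) ≤ 2 ^ pJ n := by
    calc (2:ℝ) ^ (pK n + 3) * (1 / ps n) ≤ 2 ^ (pK n + 3) * 2 ^ (57 + 21 * pL n + 6 * pK n) := by
          gcongr
      _ = 2 ^ (60 + 21 * pL n + 7 * pK n) := by
          rw [← pow_add]
          congr 1
          ring
      _ ≤ 2 ^ pJ n := by
          refine pow_le_pow_right₀ (by norm_num) ?_
          unfold pJ
          omega
  unfold pe
  rw [mul_one_div, div_le_iff₀ hs] at h6
  rw [one_div_mul_eq_div, div_le_iff₀ (by positivity)]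
  linarith

lemma two_pow_ge {m : ℕ} (hm : 16 ≤ m) : (8 * m + 2) ^ 2 ≤ 2 ^ m := by
  induction m, hm using Nat.le_induction with
  | base => norm_num
  | succ m hm ih =>
    rw [pow_succ 2 m]
    nlinarith

/-- the probability of a large oscillation -/
lemma osc_spec (hn : 1 ≤ n) : 4 * (30 * (n * (pA n + pM n) * pB n / pe n)) ^ 4 *
    exp (-pM n ^ 2 / 2) ≤ 1 / (8 * n ^ 3) := by
  have hn1 : (1:ℝ) ≤ n := by exact_mod_cast hn
  have hA := pA_ge hn
  have hM := pM_ge n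
  have h1 : -pM n ^ 2 / 2 = -(2 * pm n) := by rw [pM_sq]; ring
  rw [h1, Real.exp_neg, ← div_eq_mul_inv, div_le_div_iff₀ (Real.exp_pos _) (by positivity), one_mul]
  have h2 : (2:ℝ) ^ (2 * pm n) ≤ exp (2 * pm n) := by
    have h3 : (2:ℝ) ≤ Real.exp 1 := by linarith [Real.exp_one_gt_d9]
    calc (2:ℝ) ^ (2 * pm n) ≤ Real.exp 1 ^ (2 * pm n) := by gcongr
      _ = exp (2 * pm n) := by rw [← Real.exp_nat_mul]; congr 1; push_cast; ring
  refine le_trans ?_ h2
  have h3 : pA n + pM n ≤ 2 ^ (3 + 3 * pL n) * (1 + pM n) := by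
    have h4 : pA n ≤ 2 ^ (3 + 3 * pL n) := by
      have := pow_n_le n 3
      rw [pow_add]
      unfold pA
      norm_num
      linarith
    have h5 : (1:ℝ) ≤ 2 ^ (3 + 3 * pL n) := one_le_pow₀ (by norm_num)
    nlinarith
  have h4 : 1 / pe n = 2 ^ pJ n := by
    unfold pe
    rw [one_div_one_div]
  have h5 : 30 * (n * (pA n + pM n) * pB n / pe n) ≤
      2 ^ (9 + 4 * pL n + pK n + pJ n) * (1 + pM n) := by
    calc 30 * (n * (pA n + pM n) * pB n / pe n) = 30 * (n * (pA n + pM n) * pB n * (1 / pe n)) := by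
          ring
      _ ≤ 2 ^ 5 * (2 ^ pL n * (2 ^ (3 + 3 * pL n) * (1 + pM n)) * 2 ^ (pK n + 1) * 2 ^ pJ n) := by
          rw [h4]
          unfold pB
          have := n_le n
          gcongr
          norm_num
      _ = _ := by
          have e : 9 + 4 * pL n + pK n + pJ n = 5 + pL n + (3 + 3 * pL n) + (pK n + 1) + pJ n := by
            ring
          rw [e, pow_add, pow_add, pow_add, pow_add]
          ring
  have h6 : (1 + pM n) ^ 4 ≤ (8 * pm n + 2) ^ 2 := by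
    have h7 : (1 + pM n) ^ 2 ≤ 8 * pm n + 2 := by
      have := pM_sq n
      nlinarith [sq_nonneg (1 - pM n)]
    calc (1 + pM n) ^ 4 = ((1 + pM n) ^ 2) ^ 2 := by ring
      _ ≤ _ := pow_le_pow_left₀ (by positivity) h7 2
  have h7 : ((8 * pm n + 2 : ℕ) : ℝ) ^ 2 ≤ 2 ^ pm n := by
    have : 16 ≤ pm n := by unfold pm; omega
    exact_mod_cast two_pow_ge this
  have h8 : 8 * (n:ℝ) ^ 3 ≤ 2 ^ (3 + 3 * pL n) := by
    have := pow_n_le n 3
    rw [pow_add]
    norm_num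
    linarith
  have h0 : 0 ≤ 30 * (n * (pA n + pM n) * pB n / pe n) := by
    have := pB_ge n
    have := pe_pos n
    positivity
  calc 4 * (30 * (n * (pA n + pM n) * pB n / pe n)) ^ 4 * (8 * (n:ℝ) ^ 3)
      ≤ 2 ^ 2 * (2 ^ (9 + 4 * pL n + pK n + pJ n) * (1 + pM n)) ^ 4 * 2 ^ (3 + 3 * pL n) := by
        gcongr
        norm_num
    _ = 2 ^ (41 + 19 * pL n + 4 * pK n + 4 * pJ n) * (1 + pM n) ^ 4 := by
        rw [mul_pow, ← pow_mul]
        have e : 41 + 19 * pL n + 4 * pK n + 4 * pJ n =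
            2 + (9 + 4 * pL n + pK n + pJ n) * 4 + (3 + 3 * pL n) := by ring
        rw [e, pow_add _ (2 + (9 + 4 * pL n + pK n + pJ n) * 4), pow_add _ 2]
        ring
    _ ≤ 2 ^ pm n * 2 ^ pm n := by
        refine mul_le_mul (le_of_eq rfl) ?_ (by positivity) (by positivity)
        refine h6.trans (le_trans (le_of_eq ?_) h7)
        push_cast
        ring
    _ = 2 ^ (2 * pm n) := by rw [← pow_add]; congr 1; ring

/-! sizes -/

lemma pK_size (n : ℕ) : ((pK n : ℕ) : ℝ) + 2 ≤ 50 * (1 + pL n) := by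
  unfold pK
  push_cast
  have : (0:ℝ) ≤ pL n := Nat.cast_nonneg _
  linarith

lemma pJ_size (n : ℕ) : ((pJ n : ℕ) : ℝ) + 1 ≤ 731 * (1 + pL n) := by
  unfold pJ pK
  push_cast
  have : (0:ℝ) ≤ pL n := Nat.cast_nonneg _
  linarith

lemma pm_size (n : ℕ) : ((pm n : ℕ) : ℝ) ≤ 3153 * (1 + pL n) := by
  unfold pm pJ pK
  push_cast
  have : (0:ℝ) ≤ pL n := Nat.cast_nonneg _
  linarith

end

end Pool.Agent.Helper63K9.KS
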